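import Pool.Agent.H1EI.Fin

/-!
Project EI: consequences.
-/

set_option autoImplicit false

open MeasureTheory Set Metric
open scoped ContDiff
open H459R3.NS Pool.Agent.W268.NS Pool.Agent.Q67.VD
open W221.NS (nsq gsq adv)
open Pool.Agent.Q85.CL (SM DFO LEq LSl DSl WSl Sing Blow)

namespace Pool.Agent.H1EI

/-- There are spheres with a large excess. -/
theorem InfAt.sphere {ν δ ε T : ℝ} {Ω : Set V} {u : ℝ → V → V} {p : ℝ → V → ℝ} {a : V}
    (hν : 0 < ν) (hε : 0 < ε) (h : InfAt ν δ ε T Ω u p a) {T₀ R : ℝ} (hT₀ : T₀ < T)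
    (hR : 0 < R) : ∃ t ∈ Ioo T₀ T, 0 < t ∧ ∃ ρ ∈ Ioo 0 R, ∃ r ∈ Ioo ρ R, closedBall a r ⊆ Ω ∧
      ε * ν ^ 3 < exc ν δ ε (T - t) (⨍ y in closedBall a r, p t y) a (u t) (p t) ρ := by
  have hd : 0 < √(ν * (T - T₀)) := Real.sqrt_pos.2 (mul_pos hν (by linarith))
  obtain ⟨r, hr, hrr, hrT, hsub, hlt⟩ := h (min R (√(ν * (T - T₀)))) (lt_min hR hd)
  have hrR : r < R := hrr.trans_le (min_le_left _ _)
  have hr2 : r ^ 2 / ν < T - T₀ := by
    rw [div_lt_iff₀ hν]
    calc r ^ 2 < (√(ν * (T - T₀))) ^ 2 :=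
          pow_lt_pow_left₀ (hrr.trans_le (min_le_right _ _)) hr.le two_ne_zero
      _ = (T - T₀) * ν := by rw [Real.sq_sqrt (by nlinarith), mul_comm]
  have hT' : r ^ 2 / ν ≤ T := by
    rw [div_le_iff₀ hν, mul_comm]; exact hrT
  by_contra hcon
  push Not at hcon
  refine absurd hlt (not_lt.2 ?_)
  calc _ ≤ ∫⁻ t in Ioo (T - r ^ 2 / ν) T, ∫⁻ ρ in Ioo 0 r, ENNReal.ofReal (ε * ν ^ 3) := by
        refine setLIntegral_mono measurable_const fun t ht => ?_
        refine setLIntegral_mono measurable_const fun ρ hρ => ENNReal.ofReal_le_ofReal ?_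
        exact hcon t ⟨by linarith [ht.1], ht.2⟩ (by linarith [ht.1]) ρ ⟨hρ.1, hρ.2.trans hrR⟩ r
          ⟨hρ.2, hrR⟩ hsub
    _ = ENNReal.ofReal (ε * ν ^ 2 * r ^ 3) := by
        simp only [lintegral_const, Measure.restrict_apply MeasurableSet.univ, univ_inter,
          Real.volume_Ioo]
        rw [← ENNReal.ofReal_mul (by positivity), ← ENNReal.ofReal_mul (by
          have := hr.le
          rw [sub_zero]
          positivity)]
        congr 1
        field_simp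
        ring

theorem sph_mono {a : V} {ρ : ℝ} {f g : V → ℝ} {R : ℝ} (hρ : 0 < ρ) (hρR : ρ < R)
    (hf : ContinuousOn f (closedBall a R)) (hg : ContinuousOn g (closedBall a R))
    (hfg : ∀ x ∈ closedBall a R, f x ≤ g x) : sph a ρ f ≤ sph a ρ g := by
  have hm : ∀ σ : sphere (0 : EuclideanSpace ℝ (Fin 3)) 1,
      (fun i => a i + ρ * σ.1 i) ∈ closedBall a R := by
    intro σ
    rw [mem_closedBall, dist_pi_le_iff (hρ.le.trans hρR.le)]
    intro i
    have h1 : |σ.1 i| ≤ 1 := by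
      have h2 := EuclideanSpace.norm_eq σ.1
      have h3 : ‖σ.1‖ = 1 := by simpa using σ.2
      have h4 : σ.1 i ^ 2 ≤ ∑ j, ‖σ.1 j‖ ^ 2 := by
        have := Finset.single_le_sum (f := fun j => ‖σ.1 j‖ ^ 2) (fun j _ => sq_nonneg _)
          (Finset.mem_univ i)
        simp only [Real.norm_eq_abs, sq_abs] at this ⊢
        exact this
      rw [h3] at h2
      have h5 : ∑ j, ‖σ.1 j‖ ^ 2 = 1 := by
        have := congrArg (fun z => z ^ 2) h2
        simp only [one_pow] at this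
        rw [Real.sq_sqrt (Finset.sum_nonneg fun j _ => sq_nonneg _)] at this
        exact this.symm
      rw [h5] at h4
      exact (sq_le_one_iff_abs_le_one _).1 h4
    rw [Real.dist_eq, add_sub_cancel_left, abs_mul, abs_of_pos hρ]
    nlinarith [abs_nonneg (σ.1 i)]
  have hc : Continuous fun σ : sphere (0 : EuclideanSpace ℝ (Fin 3)) 1 =>
      (fun i => a i + ρ * σ.1 i : V) := by fun_prop
  unfold sph
  refine mul_le_mul_of_nonneg_left ?_ (sq_nonneg _)
  refine integral_mono ?_ ?_ fun σ => hfg _ (hm σ)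
  · exact (hf.comp_continuous hc hm).integrable_of_hasCompactSupport
      (HasCompactSupport.of_compactSpace _)
  · exact (hg.comp_continuous hc hm).integrable_of_hasCompactSupport
      (HasCompactSupport.of_compactSpace _)

/-- The velocity, its gradient and the pressure are continuous in `Ω`. -/
theorem cont_aux {T : ℝ} {Ω : Set V} {u : ℝ → V → V} {p : ℝ → V → ℝ} (hO : IsOpen Ω)
    (hu : ContDiffOn ℝ ∞ (fun z : ℝ × V => u z.1 z.2) (Ioo 0 T ×ˢ Ω))
    (hp : ContDiffOn ℝ ∞ (fun z : ℝ × V => p z.1 z.2) (Ioo 0 T ×ˢ Ω)) {t : ℝ} (ht : t ∈ Ioo 0 T) :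
    ContinuousOn (u t) Ω ∧ ContinuousOn (nsq (u t)) Ω ∧ ContinuousOn (gsq (u t)) Ω ∧
      ContinuousOn (p t) Ω := by
  have hmap : ContDiff ℝ ∞ (fun x : V => ((t, x) : ℝ × V)) := contDiff_const.prodMk contDiff_id
  have hmt : MapsTo (fun x : V => ((t, x) : ℝ × V)) Ω (Ioo 0 T ×ˢ Ω) := fun x hx => ⟨ht, hx⟩
  have hut : ContDiffOn ℝ ∞ (u t) Ω := hu.comp hmap.contDiffOn hmt
  have hpt : ContDiffOn ℝ ∞ (p t) Ω := hp.comp hmap.contDiffOn hmt
  have hi : ∀ i, ContDiffOn ℝ ∞ (fun y => u t y i) Ω := fun i => contDiffOn_pi.1 hut i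
  refine ⟨hut.continuousOn, ?_, ?_, hpt.continuousOn⟩
  · exact continuousOn_finsetSum _ fun i _ => (hi i).continuousOn.pow 2
  · refine continuousOn_finsetSum _ fun i _ => continuousOn_finsetSum _ fun j _ => ?_
    refine ContinuousOn.pow ?_ 2
    have h1 : ContinuousOn (fderiv ℝ (fun y => u t y i)) Ω :=
      (hi i).continuousOn_fderiv_of_isOpen hO (by simp)
    exact h1.clm_apply continuousOn_const

/-- If the excess of the inflow is pointwise not positive then `a` is not singular. -/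
theorem InfAt.pointwise {ν δ ε T : ℝ} {Ω Ω' : Set V} {u : ℝ → V → V} {p : ℝ → V → ℝ} {a : V}
    (hν : 0 < ν) (hε : 0 < ε) (hO : IsOpen Ω')
    (hu : ContDiffOn ℝ ∞ (fun z : ℝ × V => u z.1 z.2) (Ioo 0 T ×ˢ Ω'))
    (hp : ContDiffOn ℝ ∞ (fun z : ℝ × V => p z.1 z.2) (Ioo 0 T ×ˢ Ω'))
    (h : InfAt ν δ ε T Ω u p a) {T₀ R : ℝ} (hT₀ : T₀ < T) (hR : 0 < R)
    (hRO : closedBall a R ⊆ Ω') :
    ∃ t ∈ Ioo T₀ T, 0 < t ∧ ∃ r ∈ Ioo 0 R, ∃ x ∈ closedBall a R,
      ν * ((2 - δ) * nsq (u t) x + (4 - δ) * (ν * (T - t)) * gsq (u t) x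
        + ε * |p t x - ⨍ y in closedBall a r, p t y|) <
      inw a (u t) x * (nsq (u t) x + 2 * (p t x - ⨍ y in closedBall a r, p t y)) := by
  obtain ⟨t, ht, ht0, ρ, hρ, r, hr, hsub, hlt⟩ := h.sphere hν hε hT₀ hR
  refine ⟨t, ht, ht0, r, ⟨hρ.1.trans hr.1, hr.2⟩, ?_⟩
  by_contra hcon
  push Not at hcon
  obtain ⟨c1, c2, c3, c4⟩ := cont_aux hO hu hp ⟨ht0, ht.2⟩
  have c1 := c1.mono hRO
  have c2 := c2.mono hRO
  have c3 := c3.mono hRO
  have c4 := c4.mono hRO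
  set c := ⨍ y in closedBall a r, p t y
  have ci : ContinuousOn (inw a (u t)) (closedBall a R) := by
    unfold inw
    refine ContinuousOn.neg (continuousOn_finsetSum _ fun i _ => ContinuousOn.mul ?_ ?_)
    · fun_prop
    · exact continuousOn_pi.1 c1 i
  have h1 := sph_mono hρ.1 hρ.2 (f := fun x => inw a (u t) x * (nsq (u t) x + 2 * (p t x - c)))
    (g := fun x => ν * ((2 - δ) * nsq (u t) x + (4 - δ) * (ν * (T - t)) * gsq (u t) x
        + ε * |p t x - c|)) (ci.mul (c2.add (continuousOn_const.mul (c4.sub continuousOn_const))))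
    (continuousOn_const.mul (((continuousOn_const.mul c2).add (continuousOn_const.mul c3)).add
      (continuousOn_const.mul (c4.sub continuousOn_const).abs))) hcon
  have h2 : sph a ρ (fun x => ν * ((2 - δ) * nsq (u t) x + (4 - δ) * (ν * (T - t)) * gsq (u t) x
        + ε * |p t x - c|)) = ν * sph a ρ (fun x => (2 - δ) * nsq (u t) x
        + (4 - δ) * (ν * (T - t)) * gsq (u t) x + ε * |p t x - c|) := by
    unfold sph
    rw [integral_const_mul]
    ring
  have h3 : exc ν δ ε (T - t) c a (u t) (p t) ρ = 0 := by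
    unfold exc
    exact max_eq_left (by linarith)
  rw [h3] at hlt
  exact absurd hlt (not_lt.2 (by positivity))

/-- The radial component of the velocity. -/
theorem InfAt.radial {ν δ ε T : ℝ} {Ω Ω' : Set V} {u : ℝ → V → V} {p : ℝ → V → ℝ} {a : V}
    (hν : 0 < ν) (hδ : δ ≤ 1) (hε : 0 < ε) (hO : IsOpen Ω')
    (hu : ContDiffOn ℝ ∞ (fun z : ℝ × V => u z.1 z.2) (Ioo 0 T ×ˢ Ω'))
    (hp : ContDiffOn ℝ ∞ (fun z : ℝ × V => p z.1 z.2) (Ioo 0 T ×ˢ Ω'))
    (h : InfAt ν δ ε T Ω u p a) {T₀ R : ℝ} (hT₀ : T₀ < T) (hR : 0 < R)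
    (hRO : closedBall a R ⊆ Ω') :
    ∃ t ∈ Ioo T₀ T, 0 < t ∧ ∃ x ∈ closedBall a R,
      min 1 (ε / 2) * ν < |∑ i, (x i - a i) * u t x i| := by
  obtain ⟨t, ht, ht0, r, hr, x, hx, hlt⟩ := h.pointwise hν hε hO hu hp hT₀ hR hRO
  refine ⟨t, ht, ht0, x, hx, ?_⟩
  by_contra hcon
  push Not at hcon
  refine absurd hlt (not_lt.2 ?_)
  set c := ⨍ y in closedBall a r, p t y
  have n1 : 0 ≤ nsq (u t) x := Finset.sum_nonneg fun i _ => sq_nonneg _
  have n2 : 0 ≤ gsq (u t) x := Finset.sum_nonneg fun i _ => Finset.sum_nonneg fun j _ => sq_nonneg _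
  have hi : |inw a (u t) x| ≤ min 1 (ε / 2) * ν := by
    unfold inw
    rwa [abs_neg]
  have h1 : inw a (u t) x * (nsq (u t) x + 2 * (p t x - c))
      ≤ (min 1 (ε / 2) * ν) * (nsq (u t) x + 2 * |p t x - c|) := by
    calc _ ≤ |inw a (u t) x * (nsq (u t) x + 2 * (p t x - c))| := le_abs_self _
      _ = |inw a (u t) x| * |nsq (u t) x + 2 * (p t x - c)| := abs_mul _ _
      _ ≤ _ := by
        refine mul_le_mul hi ?_ (abs_nonneg _) (by positivity)
        refine (abs_add_le _ _).trans ?_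
        rw [abs_of_nonneg n1, abs_mul, abs_two]
  refine h1.trans ?_
  have m1 : min 1 (ε / 2) ≤ 1 := min_le_left _ _
  have m2 : min 1 (ε / 2) ≤ ε / 2 := min_le_right _ _
  have h4 : 0 ≤ (4 - δ) * (ν * (T - t)) * gsq (u t) x := by
    have : 0 ≤ T - t := by linarith [ht.2]
    have : 0 ≤ 4 - δ := by linarith
    positivity
  have h5 : min 1 (ε / 2) * nsq (u t) x ≤ (2 - δ) * nsq (u t) x :=
    mul_le_mul_of_nonneg_right (by linarith) n1
  have h6 : min 1 (ε / 2) * (2 * |p t x - c|) ≤ ε * |p t x - c| := by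
    have := mul_le_mul_of_nonneg_right m2 (abs_nonneg (p t x - c))
    linarith
  calc _ = ν * (min 1 (ε / 2) * nsq (u t) x + min 1 (ε / 2) * (2 * |p t x - c|)) := by ring
    _ ≤ _ := mul_le_mul_of_nonneg_left (by linarith) hν.le

end Pool.Agent.H1EI
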