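import Pool.Agent.H1EI.Stm2
import Pool.Agent.H1EI.Cor

/-!
Project EI: a positive proportion of the scales; the theorem from its parts.
-/

set_option autoImplicit false

open MeasureTheory Set Metric
open scoped ContDiff
open H459R3.NS Pool.Agent.W268.NS Pool.Agent.Q67.VD
open W221.NS (nsq gsq adv)
open Pool.Agent.Q85.CL (SM DFO LEq LSl DSl WSl Sing Blow StmDecL StmDom)

namespace Pool.Agent.H1EI

/-- `ν δ ε θ c`: for every `r₁ > 0` (with `r₁² ≤ ν T` and the cube in `Ω`) the number of the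
`n < N` for which the excess of the net inflow at the scale `θⁿ r₁` is large is at least `c N - K`. -/
def InfP (ν δ ε θ c T : ℝ) (Ω : Set V) (u : ℝ → V → V) (p : ℝ → V → ℝ) (a : V) : Prop :=
  ∀ r₁ : ℝ, 0 < r₁ → r₁ ^ 2 ≤ ν * T → closedBall a r₁ ⊆ Ω → ∃ K : ℝ, ∀ N : ℕ,
    c * N ≤ K + ({n : ℕ | ¬ ExcLe ν δ ε T (θ ^ n * r₁) a u p ∧ n < N}.ncard : ℝ)

theorem count_shift {S : Set ℕ} {c K : ℝ} (hc : 0 ≤ c) (n₀ : ℕ)
    (h : ∀ N : ℕ, c * N ≤ K + ({n : ℕ | n + n₀ ∈ S ∧ n < N}.ncard : ℝ)) :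
    ∀ N : ℕ, c * N ≤ (K + c * n₀) + ({n : ℕ | n ∈ S ∧ n < N}.ncard : ℝ) := by
  intro N
  have hfin : {n : ℕ | n ∈ S ∧ n < N}.Finite := (finite_lt_nat N).subset fun n hn => hn.2
  have h0 : (0 : ℝ) ≤ ({n : ℕ | n ∈ S ∧ n < N}.ncard : ℝ) := Nat.cast_nonneg _
  have hK : 0 ≤ K := by
    have := h 0
    simpa using this
  by_cases hN : N ≤ n₀
  · have : c * N ≤ c * n₀ := mul_le_mul_of_nonneg_left (by exact_mod_cast hN) hc
    linarith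
  · push Not at hN
    have h1 := h (N - n₀)
    have h2 : ({n : ℕ | n + n₀ ∈ S ∧ n < N - n₀}.ncard : ℝ) ≤
        ({n : ℕ | n ∈ S ∧ n < N}.ncard : ℝ) := by
      have h3 : ((fun n => n + n₀) '' {n : ℕ | n + n₀ ∈ S ∧ n < N - n₀}).ncard =
          {n : ℕ | n + n₀ ∈ S ∧ n < N - n₀}.ncard :=
        ncard_image_of_injective _ fun x y hxy => by simpa using hxy
      rw [← h3]
      refine Nat.cast_le.2 (ncard_le_ncard ?_ hfin)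
      rintro m ⟨n, ⟨hn, hnN⟩, rfl⟩
      exact ⟨hn, by show n + n₀ < N; omega⟩
    have h4 : ((N - n₀ : ℕ) : ℝ) = N - n₀ := by
      rw [Nat.cast_sub hN.le]
    rw [h4] at h1
    linarith

theorem main2 (hL : LIM2) (hE : END) (hS : SCALX) (hX : SPHX) : ∀ δ : ℝ, 0 < δ → δ ≤ 1 →
    ∃ ε θ c : ℝ, 0 < ε ∧ 0 < θ ∧ θ ≤ 1 / 4 ∧ 0 < c ∧ ∀ (ν T E : ℝ) (Ω : Set V)
      (u : ℝ → V → V) (p : ℝ → V → ℝ), 0 < ν → DSl ν T E Ω u p → ∀ a : V, Sing T u a →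
        InfP ν δ ε θ c T Ω u p a := by
  intro δ hδ hδ1
  obtain ⟨σ, hσ, hEnd⟩ := hE
  obtain ⟨θ, c, hθ, hθ4, hc, hL⟩ := hL δ hδ hδ1
  obtain ⟨ε, hε, hLim⟩ := hL σ hσ
  refine ⟨ε, θ, c, hε, hθ, hθ4, hc, ?_⟩
  intro ν T E Ω u p hν h a hs r₁ hr₁ hrT hrΩ
  have hT0 : 0 < T := Sing.pos hs
  have hθ1 : θ < 1 := by linarith
  obtain ⟨E', v, q, hv, hN', hsing⟩ := hS ν T E Ω u p hν hT0 h a r₁ hr₁ hrΩ
  obtain ⟨m, hm⟩ : ∃ m : ℕ, θ ^ m < min 1 (1 / r₁) :=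
    exists_pow_lt_of_lt_one (lt_min one_pos (by positivity)) hθ1
  have hm1 : θ ^ m * r₁ < r₁ := by
    have := mul_lt_mul_of_pos_right (hm.trans_le (min_le_left _ _)) hr₁
    linarith
  have hm2 : θ ^ m * r₁ < 1 := by
    have := mul_lt_mul_of_pos_right (hm.trans_le (min_le_right _ _)) hr₁
    rwa [one_div, inv_mul_cancel₀ hr₁.ne'] at this
  have hm0 : 0 < θ ^ m * r₁ := by positivity
  have hsub : closedBall a (θ ^ m * r₁) ⊆ ball a r₁ := closedBall_subset_ball hm1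
  have hsq : ∀ r : ℝ, 0 < r → r ≤ θ ^ m * r₁ → r ^ 2 ≤ ν * T := fun r hr hr1 =>
    (pow_le_pow_left₀ hr.le (hr1.trans hm1.le) 2).trans hrT
  obtain ⟨K, hK⟩ := hLim (ν * T) E' (ball a r₁) v q hv (θ ^ m * r₁) a hm0 (hsq _ hm0 le_rfl) hsub
    (fun r hr hr1 hSe => hEnd (ν * T) E' (ball a r₁) v q hv a r hr (hr1.trans hm2.le)
      (hsq r hr hr1) ((closedBall_subset_closedBall hr1).trans hsub) hSe (hsing hs))
  refine ⟨K + c * m, count_shift (S := {n : ℕ | ¬ ExcLe ν δ ε T (θ ^ n * r₁) a u p}) hc.le m ?_⟩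
  intro N
  refine (hK N).trans ?_
  have hle : {n : ℕ | ¬ (∃ Y : ℝ → ℝ, NoX δ ε (ν * T) (θ ^ n * (θ ^ m * r₁)) a v q Y) ∧ n < N} ⊆
      {n : ℕ | n + m ∈ {n : ℕ | ¬ ExcLe ν δ ε T (θ ^ n * r₁) a u p} ∧ n < N} := by
    rintro n ⟨hn, hnN⟩
    refine ⟨fun hex => hn ?_, hnN⟩
    have he : θ ^ n * (θ ^ m * r₁) = θ ^ (n + m) * r₁ := by rw [pow_add]; ring
    have hr : 0 < θ ^ (n + m) * r₁ := by positivity
    have hr1 : θ ^ (n + m) * r₁ ≤ θ ^ m * r₁ := by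
      rw [← he]
      exact mul_le_of_le_one_left hm0.le (pow_le_one₀ hθ.le hθ1.le)
    rw [he]
    exact hX (ν * T) E' (ball a r₁) v q hv δ ε _ a hε.le hr (hsq _ hr hr1)
      ((closedBall_subset_closedBall hr1).trans hsub)
      (hN' δ ε _ hr (hr1.trans_lt hm1) (hsq _ hr hr1) hex)
  have hfin : {n : ℕ | n + m ∈ {n : ℕ | ¬ ExcLe ν δ ε T (θ ^ n * r₁) a u p} ∧ n < N}.Finite :=
    (finite_lt_nat N).subset fun n hn => hn.2
  have h5 := ncard_le_ncard hle hfin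
  have h6 : ({n : ℕ | ¬ (∃ Y : ℝ → ℝ, NoX δ ε (ν * T) (θ ^ n * (θ ^ m * r₁)) a v q Y) ∧
      n < N}.ncard : ℝ) ≤
      ({n : ℕ | n + m ∈ {n : ℕ | ¬ ExcLe ν δ ε T (θ ^ n * r₁) a u p} ∧ n < N}.ncard : ℝ) := by
    exact_mod_cast h5
  linarith

/-- The three classes of solutions. -/
theorem fin2 (hL : LIM2) (hE : END) (hS : SCALX) (hX : SPHX) (hPer : PER) (hPX : PERX) :
    ∀ δ : ℝ, 0 < δ → δ ≤ 1 → ∃ ε θ c : ℝ, 0 < ε ∧ 0 < θ ∧ θ < 1 ∧ 0 < c ∧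
      ∀ (ν T : ℝ) (u : ℝ → V → V) (p : ℝ → V → ℝ), 0 < ν →
      (∀ (E : ℝ) (Ω : Set V), DSl ν T E Ω u p → ∀ a, Sing T u a → InfP ν δ ε θ c T Ω u p a) ∧
      (∀ E : ℝ, WSl ν T E u p → (Blow T u → ∃ a, Sing T u a) ∧
        ∀ a, Sing T u a → InfP ν δ ε θ c T univ u p a) ∧
      (IsSol ν T u p → (Blow T u → ∃ a, Sing T u a) ∧
        ∀ a, Sing T u a → InfP ν δ ε θ c T univ u p a) := by
  intro δ hδ hδ1
  obtain ⟨ε, θ, c, hε, hθ, hθ4, hc, h⟩ := main2 hL hE hS hX δ hδ hδ1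
  have hθ1 : θ < 1 := by linarith
  have shift : ∀ {ν T : ℝ} {Ω : Set V} {u : ℝ → V → V} {p : ℝ → V → ℝ} {a : V} {R : ℝ},
      0 < R → ball a R ⊆ Ω → (∀ r₁ : ℝ, 0 < r₁ → r₁ ^ 2 ≤ ν * T → r₁ < R → ∃ K : ℝ, ∀ N : ℕ,
        c * N ≤ K + ({n : ℕ | ¬ ExcLe ν δ ε T (θ ^ n * r₁) a u p ∧ n < N}.ncard : ℝ)) →
      ∀ Ω', InfP ν δ ε θ c T Ω' u p a := by
    intro ν T Ω u p a R hR hRΩ hh Ω' r₁ hr₁ hrT _
    obtain ⟨m, hm⟩ : ∃ m : ℕ, θ ^ m < min 1 (R / r₁) :=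
      exists_pow_lt_of_lt_one (lt_min one_pos (by positivity)) hθ1
    have hm1 : θ ^ m * r₁ < R := by
      have := mul_lt_mul_of_pos_right (hm.trans_le (min_le_right _ _)) hr₁
      rwa [div_mul_cancel₀ _ hr₁.ne'] at this
    have hm2 : θ ^ m * r₁ < r₁ := by
      have := mul_lt_mul_of_pos_right (hm.trans_le (min_le_left _ _)) hr₁
      linarith
    have hm0 : 0 < θ ^ m * r₁ := by positivity
    obtain ⟨K, hK⟩ := hh (θ ^ m * r₁) hm0 ((pow_le_pow_left₀ hm0.le hm2.le 2).trans hrT) hm1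
    refine ⟨K + c * m, count_shift (S := {n : ℕ | ¬ ExcLe ν δ ε T (θ ^ n * r₁) a u p}) hc.le m
      fun N => ?_⟩
    have he : ∀ n : ℕ, θ ^ n * (θ ^ m * r₁) = θ ^ (n + m) * r₁ := fun n => by rw [pow_add]; ring
    have := hK N
    simp only [he] at this
    exact this
  refine ⟨ε, θ, c, hε, hθ, hθ1, hc, fun ν T u p hν => ⟨?_, ?_, ?_⟩⟩
  · exact fun E Ω hd a hs => h ν T E Ω u p hν hd a hs
  · intro E hW
    refine ⟨fun hB => Pool.Agent.Q85.CL.sing_whole Pool.Agent.Q95.CL.far Pool.Agent.Q285.CL.wsc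
      hν hW hB, fun a hs => ?_⟩
    have hh := h ν T E _ u p hν (Pool.Agent.Q85.CL.whole_D hW a) a hs
    exact shift (R := 1 / 2) (by norm_num) (subset_univ _) (fun r₁ h1 h2 h3 => hh r₁ h1 h2
      (closedBall_subset_ball h3)) univ
  · intro hP
    refine ⟨fun hB => Pool.Agent.Q85.CL.sing_per hP hB, fun a hs => ?_⟩
    have hT : 0 < T := Sing.pos hs
    obtain ⟨E, p', hd, hpp⟩ := hPer ν T u p hν hT hP a
    have hh := h ν T E _ u p' hν hd a hs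
    refine shift (R := 1 / 2) (by norm_num) (subset_univ _) (fun r₁ h1 h2 h3 => ?_) univ
    obtain ⟨K, hK⟩ := hh r₁ h1 h2 (closedBall_subset_ball h3)
    refine ⟨K, fun N => (hK N).trans ?_⟩
    have hsub : {n : ℕ | ¬ ExcLe ν δ ε T (θ ^ n * r₁) a u p' ∧ n < N} ⊆
        {n : ℕ | ¬ ExcLe ν δ ε T (θ ^ n * r₁) a u p ∧ n < N} := by
      rintro n ⟨hn, hnN⟩
      have hr : 0 < θ ^ n * r₁ := by positivity
      have hr1 : θ ^ n * r₁ ≤ r₁ := mul_le_of_le_one_left h1.le (pow_le_one₀ hθ.le hθ1.le)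
      refine ⟨fun hex => hn ?_, hnN⟩
      exact hPX ν T u p p' hν hP a hpp δ ε _ hr (hr1.trans_lt h3)
        ((pow_le_pow_left₀ hr.le hr1 2).trans h2) hex
    have hfin : {n : ℕ | ¬ ExcLe ν δ ε T (θ ^ n * r₁) a u p ∧ n < N}.Finite :=
      (finite_lt_nat N).subset fun n hn => hn.2
    have h5 := ncard_le_ncard hsub hfin
    have h6 : ({n : ℕ | ¬ ExcLe ν δ ε T (θ ^ n * r₁) a u p' ∧ n < N}.ncard : ℝ) ≤
        ({n : ℕ | ¬ ExcLe ν δ ε T (θ ^ n * r₁) a u p ∧ n < N}.ncard : ℝ) := by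
      exact_mod_cast h5
    linarith

/-- A positive proportion implies infinitely many scales. -/
theorem InfP.infAt {ν δ ε θ c T : ℝ} {Ω : Set V} {u : ℝ → V → V} {p : ℝ → V → ℝ} {a : V}
    (hν : 0 < ν) (hθ : 0 < θ) (hθ1 : θ < 1) (hc : 0 < c) (hT : 0 < T) (hO : IsOpen Ω) (ha : a ∈ Ω)
    (h : InfP ν δ ε θ c T Ω u p a) : InfAt ν δ ε T Ω u p a := by
  intro r₀ hr₀
  have hνT : 0 < ν * T := mul_pos hν hT
  obtain ⟨R₀, hR₀, hR₀Ω⟩ := Metric.nhds_basis_closedBall.mem_iff.1 (hO.mem_nhds ha)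
  have h1 : 0 < min (r₀ / 2) (min R₀ (√(ν * T))) :=
    lt_min (by linarith) (lt_min hR₀ (Real.sqrt_pos.2 hνT))
  set r₁ := min (r₀ / 2) (min R₀ (√(ν * T))) with hr₁
  have hr₁a : r₁ ≤ r₀ / 2 := min_le_left _ _
  have hr₁b : r₁ ≤ R₀ := (min_le_right _ _).trans (min_le_left _ _)
  have hr₁c : r₁ ≤ √(ν * T) := (min_le_right _ _).trans (min_le_right _ _)
  have hsq : r₁ ^ 2 ≤ ν * T := by
    calc r₁ ^ 2 ≤ (√(ν * T)) ^ 2 := pow_le_pow_left₀ h1.le hr₁c 2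
      _ = ν * T := Real.sq_sqrt hνT.le
  obtain ⟨K, hK⟩ := h r₁ h1 hsq ((closedBall_subset_closedBall hr₁b).trans hR₀Ω)
  obtain ⟨N, hN⟩ := exists_nat_gt (K / c)
  have hN2 : K < c * N := by
    rw [div_lt_iff₀ hc] at hN
    linarith
  have hpos : 0 < {n : ℕ | ¬ ExcLe ν δ ε T (θ ^ n * r₁) a u p ∧ n < N}.ncard := by
    have := hK N
    have h7 : (0 : ℝ) < ({n : ℕ | ¬ ExcLe ν δ ε T (θ ^ n * r₁) a u p ∧ n < N}.ncard : ℝ) := by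
      linarith
    exact_mod_cast h7
  obtain ⟨n, hn, -⟩ := nonempty_of_ncard_ne_zero hpos.ne'
  have hr1 : θ ^ n * r₁ ≤ r₁ := mul_le_of_le_one_left h1.le (pow_le_one₀ hθ.le hθ1.le)
  have hr : 0 < θ ^ n * r₁ := by positivity
  exact ⟨θ ^ n * r₁, hr, by linarith, (pow_le_pow_left₀ hr.le hr1 2).trans hsq,
    (closedBall_subset_closedBall (hr1.trans hr₁b)).trans hR₀Ω, not_le.1 hn⟩

end Pool.Agent.H1EI
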