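import Pool.Agent.H1EI.Stm

/-! # Stub ITER: the iteration -/

set_option autoImplicit false

open Set Filter Topology

namespace Pool.Agent.H1EI.ITER

theorem small {δ C : ℝ} (hδ : 0 < δ) (hC : 0 < C) : ∃ θ₀ : ℝ, 0 < θ₀ ∧ ∀ θ : ℝ, 0 < θ → θ ≤ θ₀ → C * θ ^ δ ≤ 1 / 4 := by
  refine ⟨(1 / (4 * C)) ^ (1 / δ), by positivity, fun θ h0 h1 => ?_⟩
  have h2 : θ ^ δ ≤ ((1 / (4 * C)) ^ (1 / δ)) ^ δ := Real.rpow_le_rpow h0.le h1 hδ.le
  rw [← Real.rpow_mul (by positivity), one_div_mul_cancel hδ.ne', Real.rpow_one] at h2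
  calc C * θ ^ δ ≤ C * (1 / (4 * C)) := mul_le_mul_of_nonneg_left h2 hC.le
    _ = 1 / 4 := by field_simp

theorem t : Pool.Agent.H1EI.ITER := by
  intro δ C₁ C₃ hδ hC1 hC3
  obtain ⟨θ₀, hθ0, hsm⟩ := small hδ hC1
  set θ := min θ₀ (min (1 / 4) (1 / (4 * C₃))) with hθ
  have hθpos : 0 < θ := lt_min hθ0 (lt_min (by norm_num) (by positivity))
  have hθ4 : θ ≤ 1 / 4 := (min_le_right _ _).trans (min_le_left _ _)
  have h1 : C₁ * θ ^ δ ≤ 1 / 4 := hsm θ hθpos (min_le_left _ _)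
  have h3 : C₃ * θ ≤ 1 / 4 := by
    have : θ ≤ 1 / (4 * C₃) := (min_le_right _ _).trans (min_le_right _ _)
    calc C₃ * θ ≤ C₃ * (1 / (4 * C₃)) := mul_le_mul_of_nonneg_left this hC3.le
      _ = 1 / 4 := by field_simp
  refine ⟨θ, hθpos, hθ4, fun C₂ σ hC2 hσ => ?_⟩
  set q := C₃ * (θ ^ 3)⁻¹ with hq
  have hq0 : 0 < q := by positivity
  set lam := 1 / (4 * q) with hlam
  have hlam0 : 0 < lam := by positivity
  have hlq : lam * q = 1 / 4 := by rw [hlam]; field_simp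
  set ε := min (lam / (4 * C₂)) (σ / (8 * C₂)) with hε
  have hε0 : 0 < ε := lt_min (by positivity) (by positivity)
  have he1 : ε * C₂ ≤ lam / 4 := by
    have : ε ≤ lam / (4 * C₂) := min_le_left _ _
    calc ε * C₂ ≤ lam / (4 * C₂) * C₂ := mul_le_mul_of_nonneg_right this hC2.le
      _ = lam / 4 := by field_simp
  have he2 : ε * C₂ ≤ σ / 8 := by
    have : ε ≤ σ / (8 * C₂) := min_le_right _ _
    calc ε * C₂ ≤ σ / (8 * C₂) * C₂ := mul_le_mul_of_nonneg_right this hC2.le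
      _ = σ / 8 := by field_simp
  refine ⟨ε, hε0, fun a P ha hP hA hB => ?_⟩
  have step : ∀ n, a (n + 1) + lam * P (n + 1) ≤ (a n + lam * P n) / 2 + ε * C₂ := by
    intro n
    have e1 := hA n
    have e2 := hB n
    have e3 : C₁ * θ ^ δ * a n ≤ 1 / 4 * a n := mul_le_mul_of_nonneg_right h1 (ha n)
    have e4 : ε * C₂ * P n ≤ lam / 4 * P n := mul_le_mul_of_nonneg_right he1 (hP n)
    have e5 : C₃ * θ * P n ≤ 1 / 4 * P n := mul_le_mul_of_nonneg_right h3 (hP n)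
    have e6 : lam * P (n + 1) ≤ lam * (C₃ * θ * P n + q * a n) := mul_le_mul_of_nonneg_left e2 hlam0.le
    have e7 : lam * (C₃ * θ * P n) ≤ lam * (1 / 4 * P n) := mul_le_mul_of_nonneg_left e5 hlam0.le
    have e8 : lam * (q * a n) = 1 / 4 * a n := by rw [← mul_assoc, hlq]
    nlinarith
  have bd : ∀ n, a n + lam * P n ≤ (a 0 + lam * P 0) * (1 / 2) ^ n + 2 * (ε * C₂) := by
    intro n
    induction n with
    | zero =>
      have : 0 ≤ ε * C₂ := by positivity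
      simp only [pow_zero, mul_one]
      linarith
    | succ n ih =>
      have := step n
      rw [pow_succ]
      nlinarith
  have hlim : Tendsto (fun n : ℕ => (a 0 + lam * P 0) * (1 / 2 : ℝ) ^ n) atTop (𝓝 ((a 0 + lam * P 0) * 0)) :=
    (tendsto_pow_atTop_nhds_zero_of_lt_one (by norm_num) (by norm_num)).const_mul _
  rw [mul_zero] at hlim
  obtain ⟨n, hn⟩ := ((hlim.eventually (gt_mem_nhds (show (0 : ℝ) < σ / 2 by positivity)))).exists
  refine ⟨n, ?_⟩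
  have := bd n
  have h5 : 0 ≤ lam * P n := mul_nonneg hlam0.le (hP n)
  linarith

end Pool.Agent.H1EI.ITER
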