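import Pool.Agent.H1EI.Stm2
import Pool.Agent.H1EI.ITER

/-! # Stub ITER2: the iteration with bad scales -/

set_option autoImplicit false

open Set Filter Topology

namespace Pool.Agent.H1EI.ITER2

theorem count (S : Set ℕ) (N : ℕ) :
    (N ∈ S → ({n | n ∈ S ∧ n < N + 1}.ncard : ℝ) = ({n | n ∈ S ∧ n < N}.ncard : ℝ) + 1) ∧
    (N ∉ S → ({n | n ∈ S ∧ n < N + 1}.ncard : ℝ) = ({n | n ∈ S ∧ n < N}.ncard : ℝ)) := by
  have hf : {n | n ∈ S ∧ n < N}.Finite := (Set.finite_lt_nat N).subset fun n hn => hn.2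
  constructor
  · intro h
    have e : {n | n ∈ S ∧ n < N + 1} = insert N {n | n ∈ S ∧ n < N} := by
      ext n
      simp only [mem_ofPred_eq, mem_insert_iff]
      constructor
      · rintro ⟨h1, h2⟩
        rcases Nat.lt_succ_iff_lt_or_eq.1 h2 with h3 | h3
        · exact Or.inr ⟨h1, h3⟩
        · exact Or.inl h3
      · rintro (rfl | ⟨h1, h2⟩)
        · exact ⟨h, Nat.lt_succ_self _⟩
        · exact ⟨h1, by omega⟩
    rw [e, Set.ncard_insert_of_notMem (fun h => lt_irrefl _ h.2) hf]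
    push_cast
    ring
  · intro h
    have e : {n | n ∈ S ∧ n < N + 1} = {n | n ∈ S ∧ n < N} := by
      ext n
      simp only [mem_ofPred_eq]
      constructor
      · rintro ⟨h1, h2⟩
        rcases Nat.lt_succ_iff_lt_or_eq.1 h2 with h3 | h3
        · exact ⟨h1, h3⟩
        · subst h3; exact absurd h1 h
      · rintro ⟨h1, h2⟩
        exact ⟨h1, by omega⟩
    rw [e]

theorem t : Pool.Agent.H1EI.ITER2 := by
  intro δ C₁ C₃ hδ hC1 hC3
  obtain ⟨θ₀, hθ0, hsm⟩ := ITER.small hδ hC1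
  set θ := min θ₀ (min (1 / 4) (1 / (4 * C₃))) with hθ
  have hθpos : 0 < θ := lt_min hθ0 (lt_min (by norm_num) (by positivity))
  have hθ4 : θ ≤ 1 / 4 := (min_le_right _ _).trans (min_le_left _ _)
  have h1 : C₁ * θ ^ δ ≤ 1 / 4 := hsm θ hθpos (min_le_left _ _)
  have h3 : C₃ * θ ≤ 1 / 4 := by
    have : θ ≤ 1 / (4 * C₃) := (min_le_right _ _).trans (min_le_right _ _)
    calc C₃ * θ ≤ C₃ * (1 / (4 * C₃)) := mul_le_mul_of_nonneg_left this hC3.le
      _ = 1 / 4 := by field_simp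
  have hti : 0 < θ⁻¹ := by positivity
  have hl8 : 0 < Real.log (8 / 5) := Real.log_pos (by norm_num)
  have hlG : 0 < Real.log (8 / 5 * (θ⁻¹ + 1)) := by
    apply Real.log_pos
    nlinarith
  have hsplit : Real.log (8 / 5 * (θ⁻¹ + 1)) = Real.log (8 / 5) + Real.log (θ⁻¹ + 1) :=
    Real.log_mul (by norm_num) (by positivity)
  refine ⟨θ, Real.log (8 / 5) / Real.log (8 / 5 * (θ⁻¹ + 1)), hθpos, hθ4, by positivity,
    fun C₂ σ hC2 hσ => ?_⟩
  set q := C₃ * (θ ^ 3)⁻¹ with hq
  have hq0 : 0 < q := by positivity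
  set lam := 1 / (4 * q) with hlam
  have hlam0 : 0 < lam := by positivity
  have hlq : lam * q = 1 / 4 := by rw [hlam]; field_simp
  set ε := min (lam / (4 * C₂)) (σ / (8 * C₂)) with hε
  have hε0 : 0 < ε := lt_min (by positivity) (by positivity)
  have he1 : ε * C₂ ≤ lam / 4 := by
    have : ε ≤ lam / (4 * C₂) := min_le_left _ _
    calc ε * C₂ ≤ lam / (4 * C₂) * C₂ := mul_le_mul_of_nonneg_right this hC2.le
      _ = lam / 4 := by field_simp
  have he2 : ε * C₂ ≤ σ / 8 := by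
    have : ε ≤ σ / (8 * C₂) := min_le_right _ _
    calc ε * C₂ ≤ σ / (8 * C₂) * C₂ := mul_le_mul_of_nonneg_right this hC2.le
      _ = σ / 8 := by field_simp
  refine ⟨ε, hε0, fun a P S ha hP hA hA' hB => ?_⟩
  have ha0 : ∀ n, 0 < a n := fun n => hσ.trans (ha n)
  set b : ℕ → ℝ := fun n => a n + lam * P n with hb
  have hlP : ∀ n, 0 ≤ lam * P n := fun n => mul_nonneg hlam0.le (hP n)
  have hbσ : ∀ n, σ < b n := fun n => by
    have := ha n; have := hlP n; simp only [hb]; linarith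
  have hb0 : ∀ n, 0 < b n := fun n => hσ.trans (hbσ n)
  have hPs : ∀ n, lam * P (n + 1) ≤ 1 / 4 * (lam * P n) + 1 / 4 * a n := by
    intro n
    have e2 := hB n
    have e5 : C₃ * θ * P n ≤ 1 / 4 * P n := mul_le_mul_of_nonneg_right h3 (hP n)
    have e6 : lam * P (n + 1) ≤ lam * (C₃ * θ * P n + q * a n) := mul_le_mul_of_nonneg_left e2 hlam0.le
    have e7 : lam * (C₃ * θ * P n) ≤ lam * (1 / 4 * P n) := mul_le_mul_of_nonneg_left e5 hlam0.le
    have e8 : lam * (q * a n) = 1 / 4 * a n := by rw [← mul_assoc, hlq]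
    nlinarith
  have good : ∀ n, n ∉ S → b (n + 1) ≤ 5 / 8 * b n := by
    intro n hn
    have e1 := hA n hn
    have e3 : C₁ * θ ^ δ * a n ≤ 1 / 4 * a n := mul_le_mul_of_nonneg_right h1 (ha0 n).le
    have e4 : ε * C₂ * P n ≤ lam / 4 * P n := mul_le_mul_of_nonneg_right he1 (hP n)
    have e5 := hPs n
    have e6 := ha n
    have e7 := hlP n
    simp only [hb]
    nlinarith
  have bad : ∀ n, n ∈ S → b (n + 1) ≤ (θ⁻¹ + 1) * b n := by
    intro n hn
    have e1 := hA' n hn
    have e5 := hPs n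
    have e6 := ha0 n
    have e7 := hlP n
    have e8 : 0 ≤ θ⁻¹ * (lam * P n) := mul_nonneg hti.le e7
    simp only [hb]
    nlinarith
  refine ⟨(Real.log (b 0) - Real.log σ) / Real.log (8 / 5 * (θ⁻¹ + 1)), fun N => ?_⟩
  have key : ∀ N : ℕ, Real.log (b N) ≤ Real.log (b 0) - N * Real.log (8 / 5) +
      ({n | n ∈ S ∧ n < N}.ncard : ℝ) * Real.log (8 / 5 * (θ⁻¹ + 1)) := by
    intro N
    induction N with
    | zero => simp
    | succ N ih =>
      by_cases hN : N ∈ S
      · rw [(count S N).1 hN]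
        have e1 : Real.log (b (N + 1)) ≤ Real.log (θ⁻¹ + 1) + Real.log (b N) := by
          rw [← Real.log_mul (by positivity) (hb0 N).ne']
          exact Real.log_le_log (hb0 _) (bad N hN)
        push_cast
        nlinarith
      · rw [(count S N).2 hN]
        have e1 : Real.log (b (N + 1)) ≤ Real.log (5 / 8) + Real.log (b N) := by
          rw [← Real.log_mul (by norm_num) (hb0 N).ne']
          exact Real.log_le_log (hb0 _) (good N hN)
        have e2 : Real.log (5 / 8) = -Real.log (8 / 5) := by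
          rw [← Real.log_inv]; norm_num
        push_cast
        nlinarith
  have h5 := key N
  have h6 : Real.log σ ≤ Real.log (b N) := Real.log_le_log hσ (hbσ N).le
  rw [div_mul_eq_mul_div, div_add' _ _ _ hlG.ne', div_le_div_iff_of_pos_right hlG]
  nlinarith

end Pool.Agent.H1EI.ITER2
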