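import Pool.Agent.H1EI.Stm

/-!
Project EI, stub INIT: finite constants at every scale.
-/

set_option autoImplicit false

open MeasureTheory Set Metric
open scoped ContDiff
open H459R3.NS Pool.Agent.W268.NS Pool.Agent.Q67.VD
open W221.NS (nsq gsq adv)
open Pool.Agent.Q85.CL (SM DFO LEq LSl DSl WSl Sing Blow StmDecL StmDom)

namespace Pool.Agent.H1EI.INIT

theorem nsq_nonneg (v : V → V) (x : V) : 0 ≤ nsq v x := Finset.sum_nonneg fun _ _ => sq_nonneg _

theorem restr {T r : ℝ} {O : Set V} {a : V} {f : ℝ × V → ℝ} (hr : r ^ 2 ≤ T)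
    (hb : closedBall a r ⊆ O) (h : IntegrableOn f (Ioo 0 T ×ˢ O)) :
    Integrable f ((volume.restrict (Ioo (T - r ^ 2) T)).prod
      (volume.restrict (closedBall a r))) := by
  have h1 : IntegrableOn f (Ioo (T - r ^ 2) T ×ˢ closedBall a r) :=
    h.mono_set (prod_mono (Ioo_subset_Ioo (by linarith) le_rfl) hb)
  rw [IntegrableOn, Measure.volume_eq_prod, ← Measure.prod_restrict] at h1
  exact h1

theorem t : Pool.Agent.H1EI.INIT := by
  intro T E O u p hs a r hr hrT hb
  have : IsFiniteMeasure ((volume : Measure V).restrict (closedBall a r)) :=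
    ⟨by rw [Measure.restrict_apply_univ]; exact measure_closedBall_lt_top⟩
  have hg := restr hrT hb hs.dis
  have hp := restr hrT hb hs.prs
  have hg1 := hg.integral_prod_left
  have hp1 := hp.integral_prod_left
  set D₀ : ℝ := ∫ t in Ioo (T - r ^ 2) T, ∫ x in closedBall a r, gsq (u t) x with hD₀
  set P₀ : ℝ := ∫ t in Ioo (T - r ^ 2) T, osc a r (p t) with hP₀
  have hp2 : Integrable (fun z : ℝ × V => |p z.1 z.2 - ⨍ y in closedBall a r, p z.1 y|)
      ((volume.restrict (Ioo (T - r ^ 2) T)).prod (volume.restrict (closedBall a r))) := by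
    refine (hp.sub ?_).abs
    have := hp1.comp_fst (volume.restrict (closedBall a r))
    have h3 := this.const_mul ((volume : Measure V).real (closedBall a r))⁻¹
    refine h3.congr (Filter.Eventually.of_forall fun z => ?_)
    simp only [setAverage_eq, smul_eq_mul]
  refine ⟨(|E| + |D₀|) / r, |P₀| / r ^ 3, by positivity, by positivity, ⟨?_, hg1, ?_⟩, ⟨?_, ?_⟩⟩
  · intro t ht
    have ht' : t ∈ Ioo 0 T := ⟨by linarith [ht.1], ht.2⟩
    have h1 : ∫ x in closedBall a r, nsq (u t) x ≤ ∫ x in O, nsq (u t) x :=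
      setIntegral_mono_set (hs.en_int t ht')
        (Filter.Eventually.of_forall fun x => nsq_nonneg _ _) hb.eventuallyLE
    have h2 := hs.en t ht'
    rw [div_mul_cancel₀ _ hr.ne']
    linarith [le_abs_self E, abs_nonneg D₀]
  · rw [div_mul_cancel₀ _ hr.ne']
    linarith [le_abs_self D₀, abs_nonneg E]
  · exact hp2.integral_prod_left
  · rw [div_mul_cancel₀ _ (by positivity)]
    exact le_abs_self _

end Pool.Agent.H1EI.INIT
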