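import Pool.Agent.H1EI.Stm2
import Pool.Agent.H1EI.INIT

/-!
Stub LIM2 of project EI: the scales with a large excess have a positive lower density.
-/

set_option autoImplicit false

open MeasureTheory Set Metric
open scoped ContDiff
open H459R3.NS Pool.Agent.W268.NS Pool.Agent.Q67.VD
open W221.NS (nsq gsq adv)
open Pool.Agent.Q85.CL (SM DFO LEq LSl DSl WSl Sing Blow StmDecL StmDom)

namespace Pool.Agent.H1EI.LIM2

open Pool.Agent.H1EI

theorem Se_mono {T : ℝ} {a : V} {r A D A' D' : ℝ} {u : ℝ → V → V} (hr : 0 ≤ r) (hA : A ≤ A')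
    (hD : D ≤ D') (h : Se T a r A D u) : Se T a r A' D' u where
  en := fun t ht => (h.en t ht).trans (mul_le_mul_of_nonneg_right hA hr)
  dii := h.dii
  di := h.di.trans (mul_le_mul_of_nonneg_right hD hr)

theorem Sp_mono {T : ℝ} {a : V} {r P P' : ℝ} {p : ℝ → V → ℝ} (hr : 0 ≤ r) (hP : P ≤ P')
    (h : Sp T a r P p) : Sp T a r P' p where
  pri := h.pri
  pr := h.pr.trans (mul_le_mul_of_nonneg_right hP (by positivity))

theorem gsq_nonneg (v : V → V) (x : V) : 0 ≤ gsq v x :=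
  Finset.sum_nonneg fun _ _ => Finset.sum_nonneg fun _ _ => sq_nonneg _

theorem Se_shrink {T E : ℝ} {O : Set V} {u : ℝ → V → V} {p : ℝ → V → ℝ} (hs : LSl T E O u p)
    {a : V} {r θ A D : ℝ} (hr : 0 < r) (hrT : r ^ 2 ≤ T) (hb : closedBall a r ⊆ O) (hθ : 0 < θ)
    (hθ1 : θ ≤ 1) (h : Se T a r A D u) : Se T a (θ * r) (θ⁻¹ * A) (θ⁻¹ * D) u := by
  have hle : θ * r ≤ r := mul_le_of_le_one_left hr.le hθ1
  have hpos : 0 ≤ θ * r := by positivity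
  have hsq : (θ * r) ^ 2 ≤ r ^ 2 := pow_le_pow_left₀ hpos hle 2
  have hcb : closedBall a (θ * r) ⊆ closedBall a r := closedBall_subset_closedBall hle
  have hI : Ioo (T - (θ * r) ^ 2) T ⊆ Ioo (T - r ^ 2) T := Ioo_subset_Ioo (by linarith) le_rfl
  have e : ∀ X : ℝ, θ⁻¹ * X * (θ * r) = X * r := fun X => by
    field_simp
  have hg := INIT.restr hrT hb hs.dis
  have hg2 := INIT.restr (hsq.trans hrT) (hcb.trans hb) hs.dis
  refine ⟨fun t ht => ?_, hg2.integral_prod_left, ?_⟩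
  · have ht1 := hI ht
    have ht' : t ∈ Ioo 0 T := ⟨by linarith [ht1.1], ht1.2⟩
    rw [e]
    refine le_trans ?_ (h.en t ht1)
    exact setIntegral_mono_set ((hs.en_int t ht').mono_set hb)
      (Filter.Eventually.of_forall fun x => INIT.nsq_nonneg _ _) hcb.eventuallyLE
  · rw [e]
    refine le_trans ?_ h.di
    have h1 : ∫ t in Ioo (T - (θ * r) ^ 2) T, ∫ x in closedBall a (θ * r), gsq (u t) x ≤
        ∫ t in Ioo (T - (θ * r) ^ 2) T, ∫ x in closedBall a r, gsq (u t) x := by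
      refine integral_mono_ae hg2.integral_prod_left (h.dii.mono_set hI) ?_
      have h2 : ∀ᵐ t ∂(volume.restrict (Ioo (T - r ^ 2) T)),
          Integrable (fun x => gsq (u t) x) (volume.restrict (closedBall a r)) :=
        hg.prod_right_ae
      have h3 := ae_restrict_of_ae_restrict_of_subset hI h2
      filter_upwards [h3] with t ht
      exact setIntegral_mono_set ht (Filter.Eventually.of_forall fun x => gsq_nonneg _ _)
        hcb.eventuallyLE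
    refine h1.trans ?_
    refine setIntegral_mono_set h.dii ?_ hI.eventuallyLE
    exact Filter.Eventually.of_forall fun t =>
      setIntegral_nonneg measurableSet_closedBall fun x _ => gsq_nonneg _ _

open Classical in
/-- the recursion -/
noncomputable def sq (S : Set ℕ) (c₀ c₁ c₂ c₃ c₄ A P : ℝ) : ℕ → ℝ × ℝ
  | 0 => (A, P)
  | n + 1 => (if n ∈ S then c₀ * (sq S c₀ c₁ c₂ c₃ c₄ A P n).1 else
        c₁ * (sq S c₀ c₁ c₂ c₃ c₄ A P n).1 + c₂ * ((sq S c₀ c₁ c₂ c₃ c₄ A P n).2 + 1),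
      c₃ * (sq S c₀ c₁ c₂ c₃ c₄ A P n).2 + c₄ * (sq S c₀ c₁ c₂ c₃ c₄ A P n).1)

theorem sq_nonneg' {S : Set ℕ} {c₀ c₁ c₂ c₃ c₄ A P : ℝ} (h0 : 0 ≤ c₀) (h1 : 0 ≤ c₁) (h2 : 0 ≤ c₂)
    (h3 : 0 ≤ c₃) (h4 : 0 ≤ c₄) (hA : 0 ≤ A) (hP : 0 ≤ P) (n : ℕ) :
    0 ≤ (sq S c₀ c₁ c₂ c₃ c₄ A P n).1 ∧ 0 ≤ (sq S c₀ c₁ c₂ c₃ c₄ A P n).2 := by
  induction n with
  | zero => exact ⟨hA, hP⟩
  | succ n ih =>
    obtain ⟨ih1, ih2⟩ := ih
    simp only [sq]
    constructor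
    · split_ifs <;> positivity
    · positivity

theorem t (hI : Pool.Agent.H1EI.ITER2) (hN : Pool.Agent.H1EI.INIT) (hO : Pool.Agent.H1EI.ONE)
    (hP : Pool.Agent.H1EI.PR) : Pool.Agent.H1EI.LIM2 := by
  intro δ hδ hδ1
  obtain ⟨C₁, hC₁, hO1⟩ := hO δ hδ hδ1
  obtain ⟨C₃, hC₃, hP1⟩ := hP
  obtain ⟨θ, c, hθ, hθ4, hc, hI1⟩ := hI δ (2 * C₁) (2 * C₃) hδ (by positivity) (by positivity)
  refine ⟨θ, c, hθ, hθ4, hc, ?_⟩
  intro σ hσ
  obtain ⟨C₂, hC₂, hO2⟩ := hO1 θ hθ hθ4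
  obtain ⟨ε, hε, hI2⟩ := hI1 C₂ σ hC₂ hσ
  refine ⟨ε, hε, ?_⟩
  intro T E O u p hL r₀ a hr₀ hr₀2 hcb hbad
  obtain ⟨A, P, hA, hPp, hSe, hSp⟩ := hN T E O u p hL a r₀ hr₀ hr₀2 hcb
  have hθ1 : θ ≤ 1 := by linarith
  have hθδ : 0 < θ ^ δ := Real.rpow_pos_of_pos hθ δ
  set S : Set ℕ := {n : ℕ | ¬ ∃ Y : ℝ → ℝ, NoX δ ε T (θ ^ n * r₀) a u p Y} with hS
  set F : ℕ → ℝ × ℝ :=
    sq S θ⁻¹ (2 * C₁ * θ ^ δ) (ε * C₂) (2 * C₃ * θ) (2 * C₃ * (θ ^ 3)⁻¹) A P with hF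
  have hFnn : ∀ n, 0 ≤ (F n).1 ∧ 0 ≤ (F n).2 := fun n =>
    sq_nonneg' (by positivity) (by positivity) (by positivity) (by positivity) (by positivity)
      hA hPp n
  have hF1 : ∀ n, n ∉ S → (F (n + 1)).1 = 2 * C₁ * θ ^ δ * (F n).1 + ε * C₂ * ((F n).2 + 1) :=
    fun n hn => if_neg hn
  have hF1' : ∀ n, n ∈ S → (F (n + 1)).1 = θ⁻¹ * (F n).1 := fun n hn => if_pos hn
  have hF2 : ∀ n, (F (n + 1)).2 = 2 * C₃ * θ * (F n).2 + 2 * C₃ * (θ ^ 3)⁻¹ * (F n).1 :=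
    fun n => rfl
  have hrn : ∀ n : ℕ, 0 < θ ^ n * r₀ ∧ θ ^ n * r₀ ≤ r₀ := by
    intro n
    refine ⟨by positivity, ?_⟩
    exact mul_le_of_le_one_left hr₀.le (pow_le_one₀ hθ.le hθ1)
  have hrn2 : ∀ n : ℕ, (θ ^ n * r₀) ^ 2 ≤ T := fun n =>
    (pow_le_pow_left₀ (hrn n).1.le (hrn n).2 2).trans hr₀2
  have hmain : ∀ n : ℕ, Se T a (θ ^ n * r₀) (F n).1 (F n).1 u ∧ Sp T a (θ ^ n * r₀) (F n).2 p := by
    intro n
    induction n with
    | zero =>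
      rw [pow_zero, one_mul]
      exact ⟨hSe, hSp⟩
    | succ n ih =>
      obtain ⟨ih1, ih2⟩ := ih
      have hcn : closedBall a (θ ^ n * r₀) ⊆ O :=
        (closedBall_subset_closedBall (hrn n).2).trans hcb
      have h2 := hP1 θ hθ hθ4 T E O u p hL (θ ^ n * r₀) (F n).1 (F n).1 (F n).2 a (hrn n).1
        (hrn2 n) hcn ih1 ih2
      have e : θ ^ (n + 1) * r₀ = θ * (θ ^ n * r₀) := by ring
      rw [e]
      have hpos : 0 ≤ θ * (θ ^ n * r₀) := by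
        have := (hrn n).1
        positivity
      constructor
      · by_cases hn : n ∈ S
        · rw [hF1' n hn]
          exact Se_shrink hL (hrn n).1 (hrn2 n) hcn hθ hθ1 ih1
        · have hn' : ∃ Y : ℝ → ℝ, NoX δ ε T (θ ^ n * r₀) a u p Y := not_not.1 hn
          obtain ⟨Y, hY⟩ := hn'
          have h1 := hO2 T E O u p hL ε (θ ^ n * r₀) (F n).1 (F n).1 (F n).2 a Y hε.le (hrn n).1
            hcn (hrn2 n) hY ih1 ih2
          refine Se_mono hpos (le_of_eq ?_) (le_of_eq ?_) h1 <;>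
          · rw [hF1 n hn]
            ring
      · refine Sp_mono hpos ?_ h2
        rw [hF2]
        have h3 : 0 ≤ C₃ * θ * (F n).2 := by
          have := (hFnn n).2
          positivity
        have h4 : C₃ * (θ ^ 3)⁻¹ * ((F n).1 + (F n).1) = 2 * C₃ * (θ ^ 3)⁻¹ * (F n).1 := by ring
        rw [h4]
        linarith
  have hσF : ∀ n, σ < (F n).1 := by
    intro n
    by_contra hcon
    push Not at hcon
    exact hbad (θ ^ n * r₀) (hrn n).1 (hrn n).2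
      (Se_mono (hrn n).1.le hcon hcon (hmain n).1)
  exact hI2 (fun n => (F n).1) (fun n => (F n).2) S hσF (fun n => (hFnn n).2)
    (fun n hn => (hF1 n hn).le) (fun n hn => (hF1' n hn).le) (fun n => (hF2 n).le)

end Pool.Agent.H1EI.LIM2
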