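import Pool.Agent.H1EI.All0
import Pool.Agent.H1EI.Fin2
import Pool.Agent.H1EI.ITER2
import Pool.Agent.H1EI.LIM2

/-!
Project EI: the theorem.
-/

set_option autoImplicit false

open MeasureTheory Set Metric
open H459R3.NS Pool.Agent.W268.NS
open Pool.Agent.Q85.CL (DSl WSl Sing Blow)

namespace Pool.Agent.H1EI

theorem all : ∀ δ : ℝ, 0 < δ → δ ≤ 1 → ∃ ε θ c : ℝ, 0 < ε ∧ 0 < θ ∧ θ < 1 ∧ 0 < c ∧
      ∀ (ν T : ℝ) (u : ℝ → V → V) (p : ℝ → V → ℝ), 0 < ν →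
      (∀ (E : ℝ) (Ω : Set V), DSl ν T E Ω u p → ∀ a, Sing T u a → InfP ν δ ε θ c T Ω u p a) ∧
      (∀ E : ℝ, WSl ν T E u p → (Blow T u → ∃ a, Sing T u a) ∧
        ∀ a, Sing T u a → InfP ν δ ε θ c T univ u p a) ∧
      (IsSol ν T u p → (Blow T u → ∃ a, Sing T u a) ∧
        ∀ a, Sing T u a → InfP ν δ ε θ c T univ u p a) :=
  fin2 (LIM2.t ITER2.t INIT.t pONE pPR) END.t pSCALX pSPHX PER.t PERX.t

end Pool.Agent.H1EI
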