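import Pool.Agent.H1EI.Stm

/-!
Project EI, stub CONT: continuity of parametric integrals over compact sets.
-/

set_option autoImplicit false

open MeasureTheory Set Metric
open H459R3.NS

namespace Pool.Agent.H1EI.CONT

theorem t : Pool.Agent.H1EI.CONT := by
  intro T f K hK hf
  rw [continuousOn_iff_continuous_domRestrict]
  have hlc : LocallyCompactSpace (Ioo (0 : ℝ) T) := isOpen_Ioo.locallyCompactSpace
  have h1 : Continuous (Function.uncurry (fun (t : Ioo (0 : ℝ) T) (x : V) => f t x)) := by
    have := hf.comp_continuous (f := fun z : (Ioo (0 : ℝ) T) × V => ((z.1 : ℝ), z.2)) (by fun_prop)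
      (fun z => ⟨z.1.2, mem_univ _⟩)
    exact this
  exact continuous_parametric_integral_of_continuous h1 hK

end Pool.Agent.H1EI.CONT
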