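import Pool.Agent.H1EI.Stm

/-!
DI: the differential inequality.
-/

set_option autoImplicit false

open MeasureTheory Set Metric
open scoped ContDiff
open H459R3.NS Pool.Agent.W268.NS Pool.Agent.Q67.VD
open W221.NS (nsq gsq adv)
open Pool.Agent.Q85.CL (SM DFO LEq LSl DSl WSl Sing Blow StmDecL StmDom)

namespace Pool.Agent.H1EI.DI

lemma dsq_nonneg (a x : V) : 0 ≤ dsq a x := Finset.sum_nonneg fun _ _ => sq_nonneg _

lemma dsq_out {a x : V} {r : ℝ} (hr : 0 < r) (hx : x ∉ closedBall a r) : r ^ 2 ≤ dsq a x := by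
  rw [mem_closedBall, dist_eq_norm, pi_norm_le_iff_of_nonneg hr.le] at hx
  push Not at hx
  obtain ⟨i, hi⟩ := hx
  rw [Real.norm_eq_abs, Pi.sub_apply] at hi
  calc r ^ 2 ≤ |x i - a i| ^ 2 := pow_le_pow_left₀ hr.le hi.le 2
    _ = (x i - a i) ^ 2 := sq_abs _
    _ ≤ dsq a x := Finset.single_le_sum (f := fun i => (x i - a i) ^ 2)
        (fun j _ => sq_nonneg _) (Finset.mem_univ i)

lemma dsq_cont (a : V) : Continuous (dsq a) := by unfold dsq; fun_prop

/-- integrability -/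
lemma integ {a : V} {r : ℝ} {f : V → ℝ} (hf : Continuous f)
    (h0 : ∀ x, x ∉ closedBall a r → f x = 0) : Integrable f :=
  hf.integrable_of_hasCompactSupport (HasCompactSupport.intro (isCompact_closedBall a r) h0)

/-- upper bound of an integral with a weight supported in the cube -/
lemma ub {a : V} {r c : ℝ} {k g : V → ℝ} (hk : Continuous k) (hg : Continuous g)
    (h0 : ∀ x, x ∉ closedBall a r → k x = 0) (hkc : ∀ x, k x ≤ c) (hg0 : ∀ x, 0 ≤ g x) :
    ∫ x, k x * g x ≤ c * ∫ x in closedBall a r, g x := by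
  have e : ∫ x, k x * g x = ∫ x in closedBall a r, k x * g x :=
    (setIntegral_eq_integral_of_forall_compl_eq_zero
      (fun x hx => by rw [h0 x hx, zero_mul])).symm
  rw [e, ← integral_const_mul]
  refine setIntegral_mono_on ?_ ?_ measurableSet_closedBall
    (fun x _ => mul_le_mul_of_nonneg_right (hkc x) (hg0 x))
  · exact (hk.mul hg).continuousOn.integrableOn_compact (isCompact_closedBall a r)
  · exact (continuous_const.mul hg).continuousOn.integrableOn_compact (isCompact_closedBall a r)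

lemma Ph_cont (τ : ℝ) : Continuous (Ph τ) := by unfold Ph; fun_prop

lemma et_cont {χ : ℝ → ℝ} (hχ : Cut χ) (r τ : ℝ) : Continuous (et χ r τ) := by
  unfold et
  exact (Ph_cont τ).mul (hχ.smooth.continuous.comp (continuous_id.div_const _))

lemma k2_cont {χ : ℝ → ℝ} (hχ : Cut χ) (r τ : ℝ) : Continuous (k2 χ r τ) := by
  have h1 : Continuous (deriv χ) := hχ.smooth.continuous_deriv (by simp)
  have h2 : Continuous (fun s : ℝ => deriv χ (s / r ^ 2)) := h1.comp (continuous_id.div_const _)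
  unfold k2
  exact (Ph_cont τ).mul ((continuous_const.mul h2).div_const _)

lemma kk_cont {χ : ℝ → ℝ} (hχ : Cut χ) (r τ : ℝ) : Continuous (kk χ r τ) := by
  unfold kk
  exact ((et_cont hχ r τ).div_const _).add (k2_cont hχ r τ)

lemma cc_cont {χ : ℝ → ℝ} (hχ : Cut χ) (r τ : ℝ) : Continuous (cc χ r τ) := by
  have h0 : ContDiff ℝ ∞ (deriv χ) := (contDiff_infty_iff_deriv.1 hχ.smooth).2
  have h1 : Continuous (deriv χ) := h0.continuous
  have h1' : Continuous (deriv (deriv χ)) := h0.continuous_deriv (by simp)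
  have h2 : Continuous (fun s : ℝ => deriv χ (s / r ^ 2)) := h1.comp (continuous_id.div_const _)
  have h3 : Continuous (fun s : ℝ => deriv (deriv χ) (s / r ^ 2)) :=
    h1'.comp (continuous_id.div_const _)
  unfold cc
  refine (Ph_cont τ).mul ((Continuous.add ?_ ?_).add ?_)
  · exact ((continuous_const.mul continuous_id).mul h2).div_const _
  · exact ((continuous_const.mul continuous_id).mul h3).div_const _
  · exact (continuous_const.mul h2).div_const _

lemma pd_cont {f : V → ℝ} (hf : ContDiff ℝ ∞ f) (j : Fin 3) : Continuous (pd j f) := by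
  unfold pd
  exact (hf.continuous_fderiv (by simp)).clm_apply continuous_const

/-- the algebra at the end -/
lemma alg {δ ε τ s r N M Z E G X Y W y C1 e' B₀ I2 : ℝ} (hδ : 0 < δ) (hδ1 : δ ≤ 1) (hε : 0 ≤ ε)
    (hr : 0 < r) (hs : 0 < s) (hsτ : s ≤ τ) (hsr : s ≤ r ^ 2) (hN : 0 ≤ N) (hy : 0 ≤ y)
    (hZ : 0 ≤ Z) (hG : 0 ≤ G) (hX0 : 0 ≤ X) (hY0 : 0 ≤ Y) (hB : 0 < B₀)
    (hX : X ≤ B₀ * (τ / r ^ 2) / r ^ 3 * N) (hY : Y ≤ B₀ * (τ / r ^ 2) / r ^ 3 * M)
    (hC : C1 ≤ B₀ * (τ / r ^ 2) / r ^ 3 * N) (hW : W ≤ B₀ * (√τ)⁻¹ ^ 3 * Z)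
    (he : e' = -2 * G + (-(1 / τ) * E + C1) + I2)
    (hI : I2 ≤ (2 - δ) * (E / (2 * τ) + X) + (4 - δ) * s * (G / (2 * τ) + Y) + ε * W
      + B₀ * (√τ)⁻¹ ^ 3 * y) :
    e' ≤ -(δ / 2) / τ * E - (δ / 2) * G + (4 * B₀ * (τ / r ^ 2) * (N / r ^ 3 + M / r)
      + 4 * B₀ * (√τ)⁻¹ ^ 3 * (ε * Z + y)) := by
  have hτ : 0 < τ := lt_of_lt_of_le hs hsτ
  have h1 : (2 - δ) * X ≤ 2 * (B₀ * (τ / r ^ 2) / r ^ 3 * N) := by
    calc (2 - δ) * X ≤ 2 * X := mul_le_mul_of_nonneg_right (by linarith) hX0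
      _ ≤ _ := by linarith
  have h2 : (4 - δ) * s * (G / (2 * τ)) ≤ (2 - δ / 2) * G := by
    have e1 : (4 - δ) * s * (G / (2 * τ)) = (2 - δ / 2) * G * (s / τ) := by
      field_simp
      ring
    have e2 : s / τ ≤ 1 := (div_le_one hτ).2 hsτ
    rw [e1]
    exact mul_le_of_le_one_right (mul_nonneg (by linarith) hG) e2
  have h3 : (4 - δ) * s * Y ≤ 4 * (B₀ * (τ / r ^ 2) * (M / r)) := by
    calc (4 - δ) * s * Y ≤ 4 * r ^ 2 * Y := by
          refine mul_le_mul_of_nonneg_right ?_ hY0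
          exact mul_le_mul (by linarith) hsr hs.le (by norm_num)
      _ ≤ 4 * r ^ 2 * (B₀ * (τ / r ^ 2) / r ^ 3 * M) := mul_le_mul_of_nonneg_left hY (by positivity)
      _ = 4 * (B₀ * (τ / r ^ 2) * (M / r)) := by field_simp
  have h4 : ε * W ≤ ε * (B₀ * (√τ)⁻¹ ^ 3 * Z) := mul_le_mul_of_nonneg_left hW hε
  have h6 : (2 - δ) * (E / (2 * τ)) - 1 / τ * E = -(δ / 2) / τ * E := by
    field_simp; ring
  have h7 : 0 ≤ B₀ * (τ / r ^ 2) / r ^ 3 * N := by positivity
  have h8 : B₀ * (τ / r ^ 2) / r ^ 3 * N = B₀ * (τ / r ^ 2) * (N / r ^ 3) := by ring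
  have h9 : 0 ≤ B₀ * (√τ)⁻¹ ^ 3 * (ε * Z + y) := by positivity
  rw [he]
  have h10 : I2 ≤ (2 - δ) * (E / (2 * τ)) + (2 - δ) * X + ((4 - δ) * s * (G / (2 * τ))
      + (4 - δ) * s * Y) + ε * W + B₀ * (√τ)⁻¹ ^ 3 * y := by linarith
  have h11 : -2 * G + (-(1 / τ) * E + C1) + I2 ≤
      -(δ / 2) / τ * E - (δ / 2) * G + 3 * (B₀ * (τ / r ^ 2) / r ^ 3 * N)
      + 4 * (B₀ * (τ / r ^ 2) * (M / r)) + B₀ * (√τ)⁻¹ ^ 3 * (ε * Z + y) := by
    linarith
  refine h11.trans ?_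
  rw [h8] at h7 ⊢
  linarith

theorem t (hKB : Pool.Agent.H1EI.KB) (hKS : Pool.Agent.H1EI.KS) (hKC : Pool.Agent.H1EI.KC)
    (hEN : Pool.Agent.H1EI.EN1) : Pool.Agent.H1EI.DI := by
  intro χ hχ
  obtain ⟨B₀, hB₀, hB⟩ := hKB χ hχ
  refine ⟨4 * B₀, by positivity, ?_⟩
  intro T E O u p hu δ ε w r a Yf hδ hδ1 hε hr hcomp hw hwr hrT hNo t ht
  have htT : t ∈ Ioo 0 T := ⟨by linarith [ht.1], ht.2⟩
  set τ : ℝ := T + w - t with hτ
  have hs : 0 < T - t := by linarith [ht.2]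
  have hsr : T - t ≤ r ^ 2 := by linarith [ht.1]
  have hsτ : T - t ≤ τ := by rw [hτ]; linarith
  have hτ0 : 0 < τ := lt_of_lt_of_le hs hsτ
  have hτ2 : τ ≤ 2 * r ^ 2 := by rw [hτ]; linarith
  obtain ⟨⟨hk1, hk2, hk3⟩, hk2n, hetn, hout⟩ := hKS χ hχ r τ hr hτ0
  obtain ⟨hKC1, hKC2⟩ := hKC χ hχ r a hr
  -- smoothness of the slices
  have hut : ContDiff ℝ ∞ (u t) := by
    rw [← contDiffOn_univ]
    exact hu.smooth_u.comp (contDiff_prodMk_right t).contDiffOn (fun x _ => ⟨htT, mem_univ _⟩)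
  have hpt : ContDiff ℝ ∞ (p t) := by
    rw [← contDiffOn_univ]
    exact hu.smooth_p.comp (contDiff_prodMk_right t).contDiffOn (fun x _ => ⟨htT, mem_univ _⟩)
  have huti : ∀ i, ContDiff ℝ ∞ (fun y => u t y i) := fun i => contDiff_pi.1 hut i
  have cn : Continuous (nsq (u t)) := by
    unfold nsq
    exact continuous_finsetSum _ fun i _ => (huti i).continuous.pow 2
  have cg : Continuous (gsq (u t)) := by
    unfold gsq
    exact continuous_finsetSum _ fun i _ => continuous_finsetSum _ fun j _ =>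
      (pd_cont (huti i) j).pow 2
  have cp : Continuous (p t) := hpt.continuous
  have nn : ∀ x, 0 ≤ nsq (u t) x := fun x => Finset.sum_nonneg fun _ _ => sq_nonneg _
  have gn : ∀ x, 0 ≤ gsq (u t) x := fun x =>
    Finset.sum_nonneg fun _ _ => Finset.sum_nonneg fun _ _ => sq_nonneg _
  -- the weights on the space
  have ce : Continuous (fun x => et χ r τ (dsq a x)) := (et_cont hχ r τ).comp (dsq_cont a)
  have ck2 : Continuous (fun x => k2 χ r τ (dsq a x)) := (k2_cont hχ r τ).comp (dsq_cont a)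
  have ckk : Continuous (fun x => kk χ r τ (dsq a x)) := (kk_cont hχ r τ).comp (dsq_cont a)
  have ccc : Continuous (fun x => cc χ r τ (dsq a x)) := (cc_cont hχ r τ).comp (dsq_cont a)
  have ze : ∀ x, x ∉ closedBall a r → et χ r τ (dsq a x) = 0 := fun x hx =>
    (hout _ (dsq_out hr hx)).1
  have zk2 : ∀ x, x ∉ closedBall a r → k2 χ r τ (dsq a x) = 0 := fun x hx =>
    (hout _ (dsq_out hr hx)).2.1
  have zc : ∀ x, x ∉ closedBall a r → cc χ r τ (dsq a x) = 0 := fun x hx =>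
    (hout _ (dsq_out hr hx)).2.2
  have zkk : ∀ x, x ∉ closedBall a r → kk χ r τ (dsq a x) = 0 := fun x hx =>
    hk3 _ (dsq_out hr hx)
  -- the derivative
  have hφ : ContDiffOn ℝ ∞ (fun z : ℝ × V => et χ r (T + w - z.1) (dsq a z.2))
      (Ioo 0 T ×ˢ univ) := by
    have h1 : ContDiffOn ℝ ∞ (fun z : ℝ × V => (T + w - z.1, z.2)) (Ioo 0 T ×ˢ univ) :=
      ((contDiff_const.sub contDiff_fst).prodMk contDiff_snd).contDiffOn
    refine hKC1.comp h1 ?_
    rintro ⟨s, x⟩ ⟨hs, _⟩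
    exact ⟨by simp only [mem_Ioi]; linarith [hs.2], mem_univ _⟩
  have hsupp : ∀ s ∈ Ioo 0 T, ∀ x, x ∉ closedBall a r →
      et χ r (T + w - s) (dsq a x) = 0 := by
    intro s hs x hx
    exact ((hKS χ hχ r (T + w - s) hr (by linarith [hs.2])).2.2.2 _ (dsq_out hr hx)).1
  have hder := hEN T O u p hu.toLEq (fun s x => et χ r (T + w - s) (dsq a x)) (closedBall a r)
    (isCompact_closedBall a r) hcomp hφ hsupp t htT
  refine ⟨_, hder, ?_⟩
  -- the terms
  have hpt1 : ∀ x, deriv (fun s => et χ r (T + w - s) (dsq a x)) t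
      + lap (fun y => et χ r (T + w - t) (dsq a y)) x =
      -(1 / τ) * et χ r τ (dsq a x) + cc χ r τ (dsq a x) := by
    intro x
    obtain ⟨_, d, hd, hd2⟩ := hKC2 τ hτ0 x
    have h1 : HasDerivAt (fun s : ℝ => T + w - s) (-1) t := by
      simpa using (hasDerivAt_id t).const_sub (T + w)
    have hd' : HasDerivAt (fun σ => et χ r σ (dsq a x)) d (T + w - t) := hd
    have h2 : HasDerivAt (fun s => et χ r (T + w - s) (dsq a x)) (d * (-1)) t :=
      HasDerivAt.comp (h₂ := fun σ => et χ r σ (dsq a x)) t hd' h1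
    rw [h2.deriv, ← hd2, ← hτ]
    ring
  have hI1 : (∫ y, nsq (u t) y * (deriv (fun s => et χ r (T + w - s) (dsq a y)) t
      + lap (fun y => et χ r (T + w - t) (dsq a y)) y)) =
      -(1 / τ) * (∫ y, nsq (u t) y * et χ r τ (dsq a y))
        + ∫ y, cc χ r τ (dsq a y) * nsq (u t) y := by
    rw [← integral_const_mul, ← integral_add]
    · refine integral_congr_ae (Filter.Eventually.of_forall fun y => ?_)
      simp only
      rw [hpt1 y]
      ring
    · exact integ (a := a) (r := r) (continuous_const.mul (cn.mul ce))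
        (fun x hx => by rw [ze x hx]; ring)
    · exact integ (a := a) (r := r) (ccc.mul cn)
        (fun x hx => by rw [zc x hx]; ring)
  have hI2 : (∫ y, (nsq (u t) y + 2 * p t y) *
      adv (u t) (fun x => et χ r (T + w - t) (dsq a x)) y) =
      ∫ x, kk χ r τ (dsq a x) * (inw a (u t) x * (nsq (u t) x + 2 * p t x)) := by
    refine integral_congr_ae (Filter.Eventually.of_forall fun y => ?_)
    simp only
    have h1 : adv (u t) (fun x => et χ r (T + w - t) (dsq a x)) y =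
        kk χ r τ (dsq a y) * inw a (u t) y := by
      unfold adv inw
      rw [mul_neg, Finset.mul_sum, ← Finset.sum_neg_distrib]
      refine Finset.sum_congr rfl fun i _ => ?_
      rw [← hτ, (hKC2 τ hτ0 y).1 i]
      ring
    rw [h1]; ring
  have hno := hNo.ineq t ht (kk χ r τ) (B₀ * (√τ)⁻¹ ^ 3) ⟨hk1, hk2, hk3⟩
    (fun s hs => (hB r τ s hr hτ0 hτ2 hs).2.2)
  set c : ℝ := ⨍ y in closedBall a r, p t y with hc
  -- splitting of the right side
  have cab : Continuous (fun x => |p t x - c|) := (cp.sub continuous_const).abs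
  have hJ : (∫ x, kk χ r τ (dsq a x) * ((2 - δ) * nsq (u t) x + (4 - δ) * (T - t) * gsq (u t) x
        + ε * |p t x - c|)) =
      (2 - δ) * ((∫ x, nsq (u t) x * et χ r τ (dsq a x)) / (2 * τ)
          + ∫ x, k2 χ r τ (dsq a x) * nsq (u t) x)
        + (4 - δ) * (T - t) * ((∫ x, gsq (u t) x * et χ r τ (dsq a x)) / (2 * τ)
          + ∫ x, k2 χ r τ (dsq a x) * gsq (u t) x)
        + ε * ∫ x, kk χ r τ (dsq a x) * |p t x - c| := by
    have i1 : Integrable (fun x => nsq (u t) x * et χ r τ (dsq a x)) :=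
      integ (a := a) (r := r) (cn.mul ce) (fun x hx => by rw [ze x hx]; ring)
    have i2 : Integrable (fun x => gsq (u t) x * et χ r τ (dsq a x)) :=
      integ (a := a) (r := r) (cg.mul ce) (fun x hx => by rw [ze x hx]; ring)
    have i3 : Integrable (fun x => k2 χ r τ (dsq a x) * nsq (u t) x) :=
      integ (a := a) (r := r) (ck2.mul cn) (fun x hx => by rw [zk2 x hx]; ring)
    have i4 : Integrable (fun x => k2 χ r τ (dsq a x) * gsq (u t) x) :=
      integ (a := a) (r := r) (ck2.mul cg) (fun x hx => by rw [zk2 x hx]; ring)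
    have i5 : Integrable (fun x => kk χ r τ (dsq a x) * |p t x - c|) :=
      integ (a := a) (r := r) (ckk.mul cab) (fun x hx => by rw [zkk x hx]; ring)
    have e1 : (∫ x, nsq (u t) x * et χ r τ (dsq a x)) / (2 * τ)
          + ∫ x, k2 χ r τ (dsq a x) * nsq (u t) x =
        ∫ x, (nsq (u t) x * et χ r τ (dsq a x) / (2 * τ) + k2 χ r τ (dsq a x) * nsq (u t) x) := by
      rw [integral_add (i1.div_const _) i3, integral_div]
    have e2 : (∫ x, gsq (u t) x * et χ r τ (dsq a x)) / (2 * τ)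
          + ∫ x, k2 χ r τ (dsq a x) * gsq (u t) x =
        ∫ x, (gsq (u t) x * et χ r τ (dsq a x) / (2 * τ) + k2 χ r τ (dsq a x) * gsq (u t) x) := by
      rw [integral_add (i2.div_const _) i4, integral_div]
    have j1 : Integrable (fun x => nsq (u t) x * et χ r τ (dsq a x) / (2 * τ)
        + k2 χ r τ (dsq a x) * nsq (u t) x) := (i1.div_const _).add i3
    have j2 : Integrable (fun x => gsq (u t) x * et χ r τ (dsq a x) / (2 * τ)
        + k2 χ r τ (dsq a x) * gsq (u t) x) := (i2.div_const _).add i4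
    have j3 : Integrable (fun x => (2 - δ) * (nsq (u t) x * et χ r τ (dsq a x) / (2 * τ)
        + k2 χ r τ (dsq a x) * nsq (u t) x) + (4 - δ) * (T - t) *
        (gsq (u t) x * et χ r τ (dsq a x) / (2 * τ) + k2 χ r τ (dsq a x) * gsq (u t) x)) :=
      (j1.const_mul _).add (j2.const_mul _)
    rw [e1, e2, ← integral_const_mul, ← integral_const_mul, ← integral_const_mul,
      ← integral_add (j1.const_mul _) (j2.const_mul _), ← integral_add j3 (i5.const_mul _)]
    refine integral_congr_ae (Filter.Eventually.of_forall fun x => ?_)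
    simp only [kk]
    ring
  have hKB1 : ∀ x, |cc χ r τ (dsq a x)| ≤ B₀ * (τ / r ^ 2) / r ^ 3 := fun x =>
    (hB r τ (dsq a x) hr hτ0 hτ2 (dsq_nonneg a x)).1
  have hKB2 : ∀ x, k2 χ r τ (dsq a x) ≤ B₀ * (τ / r ^ 2) / r ^ 3 := fun x =>
    (hB r τ (dsq a x) hr hτ0 hτ2 (dsq_nonneg a x)).2.1
  have hKB3 : ∀ s, 0 ≤ s → kk χ r τ s ≤ B₀ * (√τ)⁻¹ ^ 3 := fun s hs =>
    (hB r τ s hr hτ0 hτ2 hs).2.2
  have hX : ∫ x, k2 χ r τ (dsq a x) * nsq (u t) x ≤
      B₀ * (τ / r ^ 2) / r ^ 3 * ∫ x in closedBall a r, nsq (u t) x :=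
    ub ck2 cn zk2 hKB2 nn
  have hY : ∫ x, k2 χ r τ (dsq a x) * gsq (u t) x ≤
      B₀ * (τ / r ^ 2) / r ^ 3 * ∫ x in closedBall a r, gsq (u t) x :=
    ub ck2 cg zk2 hKB2 gn
  have hC : ∫ y, cc χ r τ (dsq a y) * nsq (u t) y ≤
      B₀ * (τ / r ^ 2) / r ^ 3 * ∫ x in closedBall a r, nsq (u t) x :=
    ub ccc cn zc (fun x => (le_abs_self _).trans (hKB1 x)) nn
  have hW : ∫ x, kk χ r τ (dsq a x) * |p t x - c| ≤ B₀ * (√τ)⁻¹ ^ 3 * osc a r (p t) :=
    ub ckk cab zkk (fun x => hKB3 _ (dsq_nonneg a x)) (fun x => abs_nonneg _)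
  refine alg (s := T - t) (X := ∫ x, k2 χ r τ (dsq a x) * nsq (u t) x)
    (Y := ∫ x, k2 χ r τ (dsq a x) * gsq (u t) x)
    (W := ∫ x, kk χ r τ (dsq a x) * |p t x - c|)
    (C1 := ∫ y, cc χ r τ (dsq a y) * nsq (u t) y)
    (I2 := ∫ x, kk χ r τ (dsq a x) * (inw a (u t) x * (nsq (u t) x + 2 * p t x)))
    hδ hδ1 hε hr hs hsτ hsr ?_ (hNo.nonneg t ht) ?_ ?_ ?_ ?_ hB₀ hX hY hC hW ?_ ?_
  · exact integral_nonneg fun x => nn x
  · exact integral_nonneg fun x => abs_nonneg _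
  · exact integral_nonneg fun x => mul_nonneg (gn x) (hetn _ (dsq_nonneg a x)).1
  · exact integral_nonneg fun x => mul_nonneg (hk2n _) (nn x)
  · exact integral_nonneg fun x => mul_nonneg (hk2n _) (gn x)
  · rw [hI1, hI2]
  · rw [hJ] at hno
    exact hno

end Pool.Agent.H1EI.DI
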