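import Pool.Agent.H1EI.Stm
import Pool.Agent.Q2.CL.LEL

/-!
Project EI (helper1), stub EN1 (helper79): the local energy identity with a test function which
depends on the time (adapted from `Pool.Agent.Q2.CL.leA`).
-/

set_option autoImplicit false

open MeasureTheory Set Metric Filter Topology
open scoped ContDiff
open H459R3.NS Pool.Agent.W268.NS Pool.Agent.Q67.VD Pool.Agent.W583.MD
open W221.NS (nsq gsq adv)
open Pool.Agent.Q85.CL (SM DFO LEq LSl DSl WSl Sing Blow StmDecL StmDom)

namespace Pool.Agent.H1EI.EN1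

open Pool.Agent.Q85.CC Pool.Agent.Q2.CL

theorem t : Pool.Agent.H1EI.EN1 := by
  intro T O u p hI φ K hK hKO hφs hφ0 t ht
  obtain ⟨R, hR⟩ : ∃ R : ℝ, K ⊆ closedBall (0 : V) R :=
    hK.isBounded.subset_closedBall 0
  have hφ : ContDiff ℝ ∞ (φ t) := slice hφs ht
  have hc : HasCompactSupport (φ t) := HasCompactSupport.intro hK (hφ0 t ht)
  have htsK : tsupport (φ t) ⊆ K := by
    refine closure_minimal ?_ hK.isClosed
    intro x hx
    by_contra h
    exact hx (hφ0 t ht x h)
  have hO : tsupport (φ t) ⊆ O := htsK.trans hKO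
  have hzt : ∀ z ∉ tsupport (φ t), φ t z = 0 := fun z hz => image_eq_zero_of_notMem_tsupport hz
  have hv : ContDiffOn ℝ ∞ (fun z : ℝ × V => u z.1 z.2) (Ioo 0 T ×ˢ univ) := hI.smooth_u
  have hvi : ∀ i, ContDiffOn ℝ ∞ (fun z : ℝ × V => u z.1 z.2 i) (Ioo 0 T ×ˢ univ) :=
    fun i => contDiffOn_pi.1 hv i
  have hq : ContDiff ℝ ∞ (p t) := slice hI.smooth_p ht
  have hw : ∀ i, ContDiff ℝ ∞ (fun y => u t y i) := fun i =>
    slice (F := fun t y => u t y i) (hvi i) ht
  have hn : Continuous (W221.NS.nsq (u t)) := by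
    unfold W221.NS.nsq
    exact continuous_finsetSum _ fun i _ => (hw i).continuous.pow 2
  have hg : Continuous (W221.NS.gsq (u t)) := by
    unfold W221.NS.gsq
    exact continuous_finsetSum _ fun i _ => continuous_finsetSum _ fun j _ =>
      (sm_pd (hw i) j).continuous.pow 2
  have hlap : Continuous (lap (φ t)) := by
    unfold lap
    exact continuous_finsetSum _ fun j _ => (sm_pd (sm_pd hφ j) j).continuous
  have hlc : HasCompactSupport (lap (φ t)) := by
    have h0 := cs_pd (cs_pd hc 0) 0
    have h1 := cs_pd (cs_pd hc 1) 1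
    have h2 := cs_pd (cs_pd hc 2) 2
    have e : lap (φ t) = pd 0 (pd 0 (φ t)) + pd 1 (pd 1 (φ t)) + pd 2 (pd 2 (φ t)) := by
      funext x
      unfold lap
      rw [Fin.sum_univ_three]
      rfl
    rw [e]
    exact (h0.add h1).add h2
  have hadv : Continuous (W221.NS.adv (u t) (φ t)) := by
    unfold W221.NS.adv
    exact continuous_finsetSum _ fun j _ => (hw j).continuous.mul (sm_pd hφ j).continuous
  have hac : HasCompactSupport (W221.NS.adv (u t) (φ t)) := by
    have h0 := (cs_pd hc 0).mul_left (f := fun x => u t x 0)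
    have h1 := (cs_pd hc 1).mul_left (f := fun x => u t x 1)
    have h2 := (cs_pd hc 2).mul_left (f := fun x => u t x 2)
    have e : W221.NS.adv (u t) (φ t) = (fun x => u t x 0) * pd 0 (φ t) +
        (fun x => u t x 1) * pd 1 (φ t) + (fun x => u t x 2) * pd 2 (φ t) := by
      funext x
      unfold W221.NS.adv
      rw [Fin.sum_univ_three]
      rfl
    rw [e]
    exact (h0.add h1).add h2
  -- the time derivative of the test function
  have hψ : ContDiff ℝ ∞ (fun y => deriv (fun s => φ s y) t) := sm_dtI hφs ht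
  have hψ0 : ∀ x, x ∉ K → deriv (fun s => φ s x) t = 0 := by
    intro x hx
    have h4 : (fun s => φ s x) =ᶠ[𝓝 t] fun _ => 0 := by
      filter_upwards [Ioo_mem_nhds ht.1 ht.2] with s hs
      exact hφ0 s hs x hx
    rw [h4.deriv_eq]
    exact deriv_const t 0
  have hψc : HasCompactSupport (fun y => deriv (fun s => φ s y) t) :=
    HasCompactSupport.intro hK hψ0
  -- the derivative in time
  have hF : ContDiffOn ℝ ∞ (fun z : ℝ × V => W221.NS.nsq (u z.1) z.2 * φ z.1 z.2)
      (Ioo 0 T ×ˢ univ) := by
    unfold W221.NS.nsq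
    exact (ContDiffOn.sum fun i _ => (hvi i).pow 2).mul hφs
  have h1 := Pool.Agent.Q225.CC.hd_intR (F := fun s z => W221.NS.nsq (u s) z * φ s z) (R := R) hF
    (fun s hs z hz => by rw [hφ0 s hs z (fun h => hz (hR h)), mul_zero]) ht
  refine h1.congr_deriv ?_
  -- the integrand
  have hD : ∀ x, deriv (fun s => W221.NS.nsq (u s) x * φ s x) t =
      (∑ i, 2 * u t x i * (∑ j, pd j (pd j (fun y => u t y i)) x - pd i (p t) x -
        ∑ j, u t x j * pd j (fun y => u t y i) x)) * φ t x
        + W221.NS.nsq (u t) x * deriv (fun s => φ s x) t := by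
    intro x
    by_cases hx : x ∈ K
    · have d1 : ∀ i, HasDerivAt (fun s => u s x i) (∑ j, pd j (pd j (fun y => u t y i)) x -
          pd i (p t) x - ∑ j, u t x j * pd j (fun y => u t y i) x) t := by
        intro i
        have d := hd_slice (F := fun t y => u t y i) (hvi i) ht x
        rw [← d.deriv] at d
        have m := hI.momentum t ht x (hKO hx) i
        have e : ∑ j, pd j (pd j (fun y => u t y i)) x - pd i (p t) x -
            ∑ j, u t x j * pd j (fun y => u t y i) x = deriv (fun s => u s x i) t := by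
          linarith
        rw [e]
        exact d
      have d3 : HasDerivAt (fun s => W221.NS.nsq (u s) x) (∑ i, 2 * u t x i *
          (∑ j, pd j (pd j (fun y => u t y i)) x - pd i (p t) x -
          ∑ j, u t x j * pd j (fun y => u t y i) x)) t := by
        unfold W221.NS.nsq
        refine HasDerivAt.fun_sum fun i _ => ?_
        refine ((d1 i).pow 2).congr_deriv ?_
        norm_num
      have d4 : HasDerivAt (fun s => φ s x) (deriv (fun s => φ s x) t) t := by
        have d := hd_slice (F := φ) hφs ht x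
        rw [← d.deriv] at d
        exact d
      exact (d3.mul d4).deriv
    · have h0 := hφ0 t ht x hx
      have h4 : (fun s => W221.NS.nsq (u s) x * φ s x) =ᶠ[𝓝 t] fun _ => 0 := by
        filter_upwards [Ioo_mem_nhds ht.1 ht.2] with s hs
        rw [hφ0 s hs x hx, mul_zero]
      rw [h4.deriv_eq, hψ0 x hx, h0]
      simp
  have hZ := Z_main (w := fun i y => u t y i) hw hq hφ hc
  have hloc : ∀ x ∉ tsupport (φ t), (φ t) =ᶠ[𝓝 x] fun _ => 0 := fun x hx =>
    notMem_tsupport_iff_eventuallyEq.mp hx
  have hpt : ∀ x, ∑ j, ((∑ i, (2 * pd j (fun y => u t y i * pd j (fun y => u t y i) y * φ t y) x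
      - pd j (fun y => u t y i * u t y i * pd j (φ t) y) x
      - pd j (fun y => u t y j * (u t y i * u t y i) * φ t y) x))
      - 2 * pd j (fun y => p t y * u t y j * φ t y) x) =
    (∑ i, 2 * u t x i * (∑ j, pd j (pd j (fun y => u t y i)) x - pd i (p t) x -
      ∑ j, u t x j * pd j (fun y => u t y i) x)) * φ t x
      - (-2 * ((∑ i, ∑ j, pd j (fun y => u t y i) x ^ 2) * φ t x) +
        (∑ i, u t x i ^ 2) * (∑ j, pd j (pd j (φ t)) x)
        + ((∑ i, u t x i ^ 2) + 2 * p t x) * ∑ j, u t x j * pd j (φ t) x) := by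
    intro x
    by_cases hx : x ∈ tsupport (φ t)
    · exact point (w := fun i y => u t y i) hw hq hφ x (hI.divfree t ht x (hO hx))
    · have h0 : (φ t) =ᶠ[𝓝 x] fun _ => 0 := hloc x hx
      have hp0 : ∀ j, pd j (φ t) =ᶠ[𝓝 x] fun _ => 0 := by
        intro j
        have h2 : fderiv ℝ (φ t) =ᶠ[𝓝 x] fderiv ℝ (fun _ : V => (0 : ℝ)) := h0.fderiv
        filter_upwards [h2] with y hy
        unfold pd
        rw [hy]
        simp
      have hp1 : ∀ j, pd j (pd j (φ t)) x = 0 := by
        intro j
        unfold pd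
        have h2 : fderiv ℝ (pd j (φ t)) x = fderiv ℝ (fun _ : V => (0 : ℝ)) x := (hp0 j).fderiv_eq
        have h3 : (fun x => (fderiv ℝ (φ t) x) (Pi.single j 1)) = pd j (φ t) := rfl
        rw [h3, h2]
        simp
      have hmul : ∀ (g : V → ℝ) (f : V → ℝ) (j : Fin 3), f =ᶠ[𝓝 x] (fun _ => 0) →
          pd j (fun y => g y * f y) x = 0 := by
        intro g f j hf
        have h2 : (fun y => g y * f y) =ᶠ[𝓝 x] fun _ => 0 := by
          filter_upwards [hf] with y hy
          rw [hy, mul_zero]
        unfold pd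
        rw [h2.fderiv_eq]
        simp
      have a1 : ∀ i j, pd j (fun y => u t y i * pd j (fun y => u t y i) y * φ t y) x = 0 :=
        fun i j => hmul (fun y => u t y i * pd j (fun y => u t y i) y) (φ t) j h0
      have a2 : ∀ i j, pd j (fun y => u t y i * u t y i * pd j (φ t) y) x = 0 :=
        fun i j => hmul (fun y => u t y i * u t y i) (pd j (φ t)) j (hp0 j)
      have a3 : ∀ i j, pd j (fun y => u t y j * (u t y i * u t y i) * φ t y) x = 0 :=
        fun i j => hmul (fun y => u t y j * (u t y i * u t y i)) (φ t) j h0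
      have a4 : ∀ j, pd j (fun y => p t y * u t y j * φ t y) x = 0 :=
        fun j => hmul (fun y => p t y * u t y j) (φ t) j h0
      have a5 : φ t x = 0 := h0.eq_of_nhds
      have a6 : ∀ j, pd j (φ t) x = 0 := fun j => (hp0 j).eq_of_nhds
      simp only [a1, a2, a3, a4, a5, a6, hp1]
      simp
  have hZ' : Z (fun x => deriv (fun s => W221.NS.nsq (u s) x * φ s x) t -
      (-2 * (W221.NS.gsq (u t) x * φ t x) +
        W221.NS.nsq (u t) x * (deriv (fun s => φ s x) t + lap (φ t) x) +
        (W221.NS.nsq (u t) x + 2 * p t x) * W221.NS.adv (u t) (φ t) x)) := by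
    have e : ∀ x, deriv (fun s => W221.NS.nsq (u s) x * φ s x) t -
        (-2 * (W221.NS.gsq (u t) x * φ t x) +
        W221.NS.nsq (u t) x * (deriv (fun s => φ s x) t + lap (φ t) x) +
        (W221.NS.nsq (u t) x + 2 * p t x) * W221.NS.adv (u t) (φ t) x) = _ := fun x => by
      refine Eq.trans ?_ (hpt x).symm
      rw [hD x]
      simp only [W221.NS.nsq, W221.NS.gsq, W221.NS.adv, lap]
      ring
    have e' := funext e
    rw [e']
    exact hZ
  have i1 : Integrable fun x => W221.NS.gsq (u t) x * φ t x :=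
    int_cs (hg.mul hφ.continuous) hc.mul_left
  have i2 : Integrable fun x => W221.NS.nsq (u t) x * (deriv (fun s => φ s x) t + lap (φ t) x) :=
    int_cs (hn.mul (hψ.continuous.add hlap)) (hψc.add hlc).mul_left
  have i3 : Integrable fun x => (W221.NS.nsq (u t) x + 2 * p t x) * W221.NS.adv (u t) (φ t) x :=
    int_cs ((hn.add (continuous_const.mul hq.continuous)).mul hadv) hac.mul_left
  have i4 : Integrable fun x => -2 * (W221.NS.gsq (u t) x * φ t x) +
      W221.NS.nsq (u t) x * (deriv (fun s => φ s x) t + lap (φ t) x) := (i1.const_mul (-2)).add i2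
  have i5 : Integrable fun x => -2 * (W221.NS.gsq (u t) x * φ t x) +
      W221.NS.nsq (u t) x * (deriv (fun s => φ s x) t + lap (φ t) x) +
      (W221.NS.nsq (u t) x + 2 * p t x) * W221.NS.adv (u t) (φ t) x := i4.add i3
  have h2 := integral_add hZ'.1 i5
  simp only [sub_add_cancel] at h2
  rw [hZ'.2, zero_add, integral_add i4 i3, integral_add (i1.const_mul (-2)) i2,
    integral_const_mul] at h2
  exact h2

end Pool.Agent.H1EI.EN1
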