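import Pool.Agent.H1EI.Stm
import Pool.Agent.W221.NS.Asm3
import Pool.Agent.W436.MH.OMEGA3

/-!
Project EI, stub END (helper33): a point with small energy and dissipation at one scale is not
singular.
-/

set_option autoImplicit false

open MeasureTheory Set Metric Filter Topology
open scoped ContDiff ENNReal
open H459R3.NS
open W221.NS (nsq gsq adv LSol3 OSolF Bd3)
open Pool.Agent.Q85.CL (LEq LSl)

namespace Pool.Agent.H1EI.END

/-- Cut-off functions for all cubes. -/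
theorem cut : ∃ B : ℝ, 0 ≤ B ∧ ∀ (a : V) (r : ℝ), 0 < r → ∃ ζ : V → ℝ, ContDiff ℝ ∞ ζ ∧
    HasCompactSupport ζ ∧ tsupport ζ ⊆ ball a r ∧ (∀ x, 0 ≤ ζ x ∧ ζ x ≤ 1) ∧
    (∀ x ∈ ball a (r / 2), ζ x = 1) ∧ ∀ (i : Fin 3) (x : V), |pd i ζ x| ≤ B / r := by
  obtain ⟨ζ₀, δ, hδ, hs, hc, hts, h01, h1, hsub⟩ := Pool.Agent.W349.MF.cutoff
    (isCompact_closedBall (0 : V) (1 / 2)) (isOpen_ball (x := (0 : V)) (ε := 1))
    (closedBall_subset_ball (by norm_num))
  obtain ⟨B, hB0, hB⟩ := Pool.Agent.W349.MF.pd_bd hs hc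
  refine ⟨B, hB0, fun a r hr => ?_⟩
  have hnorm : ∀ x : V, ‖r⁻¹ • (x - a)‖ = ‖x - a‖ / r := by
    intro x
    rw [norm_smul, norm_inv, Real.norm_eq_abs, abs_of_pos hr]
    ring
  have hφs : ContDiff ℝ ∞ (fun x : V => r⁻¹ • (x - a)) :=
    (contDiff_id.sub contDiff_const).const_smul _
  have hts' : tsupport (fun x : V => ζ₀ (r⁻¹ • (x - a))) ⊆ ball a r := by
    intro x hx
    have h2 : r⁻¹ • (x - a) ∈ tsupport ζ₀ :=
      tsupport_comp_subset_preimage ζ₀ (f := fun x : V => r⁻¹ • (x - a)) hφs.continuous hx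
    have h3 := hts h2
    rw [mem_ball_zero_iff, hnorm, div_lt_one hr] at h3
    rw [mem_ball_iff_norm]
    exact h3
  refine ⟨fun x => ζ₀ (r⁻¹ • (x - a)), hs.comp hφs, ?_, hts', fun x => h01 _, ?_, ?_⟩
  · refine HasCompactSupport.intro (isCompact_closedBall a r) fun x hx => ?_
    refine image_eq_zero_of_notMem_tsupport (f := fun x : V => ζ₀ (r⁻¹ • (x - a))) fun h => ?_
    exact hx (ball_subset_closedBall (hts' h))
  · intro x hx
    refine h1 _ (self_subset_thickening hδ _ ?_)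
    rw [mem_ball_iff_norm] at hx
    rw [mem_closedBall_zero_iff, hnorm, div_le_iff₀ hr]
    linarith
  · intro i x
    have h2 : HasFDerivAt ζ₀ (fderiv ℝ ζ₀ (r⁻¹ • (x - a))) (r⁻¹ • (x - a)) :=
      ((hs.differentiable (by norm_num)) _).hasFDerivAt
    have h3 : HasFDerivAt (fun x : V => r⁻¹ • (x - a)) (r⁻¹ • ContinuousLinearMap.id ℝ V) x :=
      ((hasFDerivAt_id x).sub_const a).const_smul r⁻¹
    have h4 := (h2.comp x h3).fderiv
    have h5 : pd i (fun x : V => ζ₀ (r⁻¹ • (x - a))) x = r⁻¹ * pd i ζ₀ (r⁻¹ • (x - a)) := by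
      unfold pd
      have h6 : fderiv ℝ (fun x : V => ζ₀ (r⁻¹ • (x - a))) x =
          (fderiv ℝ ζ₀ (r⁻¹ • (x - a))).comp (r⁻¹ • ContinuousLinearMap.id ℝ V) := h4
      rw [h6]
      simp
    rw [h5, abs_mul, abs_of_pos (inv_pos.2 hr)]
    calc r⁻¹ * |pd i ζ₀ (r⁻¹ • (x - a))| ≤ r⁻¹ * B :=
          mul_le_mul_of_nonneg_left (hB i _) (inv_pos.2 hr).le
      _ = B / r := by ring

section

variable {T E σ r : ℝ} {O : Set V} {u : ℝ → V → V} {p : ℝ → V → ℝ} {a : V}

/-- The shift in time. -/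
theorem osol (h : LSl T E O u p) (hr : 0 < r) (hrT : r ^ 2 ≤ T) (hb : closedBall a r ⊆ O)
    (hσ : 0 ≤ σ) (hen : ∀ t ∈ Ioo (T - r ^ 2) T, ∫ x in closedBall a r, nsq (u t) x ≤ σ * r) :
    OSolF 1 (r ^ 2) (√(σ * r)) 0 (ball a r) (fun t => u (T - r ^ 2 + t))
      (fun t => p (T - r ^ 2 + t)) (fun _ _ => 0) := by
  have ht' : ∀ t ∈ Ioo 0 (r ^ 2), T - r ^ 2 + t ∈ Ioo 0 T := fun t ht =>
    ⟨by linarith [ht.1], by linarith [ht.2]⟩
  have ht'' : ∀ t ∈ Ioo 0 (r ^ 2), T - r ^ 2 + t ∈ Ioo (T - r ^ 2) T := fun t ht =>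
    ⟨by linarith [ht.1], by linarith [ht.2]⟩
  have hbO : ball a r ⊆ O := ball_subset_closedBall.trans hb
  have hmap : MapsTo (fun z : ℝ × V => (T - r ^ 2 + z.1, z.2)) (Ioo 0 (r ^ 2) ×ˢ ball a r)
      (Ioo 0 T ×ˢ univ) := fun z hz => ⟨ht' z.1 hz.1, mem_univ _⟩
  have hsm : ContDiffOn ℝ ∞ (fun z : ℝ × V => (T - r ^ 2 + z.1, z.2))
      (Ioo 0 (r ^ 2) ×ˢ ball a r) :=
    ((contDiff_const.add contDiff_fst).prodMk contDiff_snd).contDiffOn
  refine
    { openO := isOpen_ball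
      smooth_u := h.smooth_u.comp hsm hmap
      smooth_p := h.smooth_p.comp hsm hmap
      divfree := fun t ht x hx => h.divfree _ (ht' t ht) x (hbO hx)
      momentum := fun t ht x hx i => ?_
      force := fun t ht x hx i => ?_
      en_int := fun t ht => (h.en_int _ (ht' t ht)).mono_set hbO
      en := fun t ht => ?_ }
  · have h1 := h.momentum _ (ht' t ht) x (hbO hx) i
    have h2 : deriv (fun s => u (T - r ^ 2 + s) x i) t = deriv (fun s => u s x i) (T - r ^ 2 + t) :=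
      deriv_comp_const_add (f := fun s => u s x i) (T - r ^ 2) t
    show deriv (fun s => u (T - r ^ 2 + s) x i) t + _ = _
    rw [h2, h1, one_mul]
    simp
  · have hz : ∀ j : Fin 3, pd j (fun _ : V => (0 : ℝ)) = fun _ => 0 := by
      intro j
      funext y
      unfold pd
      simp
    refine ⟨?_, fun j => ?_, fun j k => ?_, fun j k l => ?_⟩
    · simp
    · show |pd j (fun _ : V => (0 : ℝ)) x| ≤ 0
      rw [hz]
      simp
    · show |pd j (pd k (fun _ : V => (0 : ℝ))) x| ≤ 0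
      rw [hz, hz]
      simp
    · show |pd j (pd k (pd l (fun _ : V => (0 : ℝ)))) x| ≤ 0
      rw [hz, hz, hz]
      simp
  · rw [Real.sq_sqrt (by positivity)]
    refine le_trans ?_ (hen _ (ht'' t ht))
    refine setIntegral_mono_set ((h.en_int _ (ht' t ht)).mono_set hb) ?_ ?_
    · exact Eventually.of_forall fun x => Finset.sum_nonneg fun i _ => sq_nonneg _
    · exact ball_subset_closedBall.eventuallyLE

theorem slice (h : LSl T E O u p) {t : ℝ} (ht : t ∈ Ioo 0 T) : ContDiff ℝ ∞ (u t) := by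
  rw [contDiff_iff_contDiffAt]
  intro x
  have h1 : (Ioo 0 T ×ˢ (univ : Set V)) ∈ 𝓝 (t, x) :=
    (isOpen_Ioo.prod isOpen_univ).mem_nhds ⟨ht, mem_univ _⟩
  have h2 : ContDiffAt ℝ ∞ (fun y : V => (t, y)) x := contDiffAt_const.prodMk contDiffAt_id
  exact (h.smooth_u.contDiffAt h1).comp x h2

theorem gsq_cont (h : LSl T E O u p) {t : ℝ} (ht : t ∈ Ioo 0 T) : Continuous (gsq (u t)) := by
  unfold gsq
  exact continuous_finsetSum _ fun i _ => continuous_finsetSum _ fun j _ =>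
    (Pool.Agent.W349.MF.cont_pd (contDiff_pi.1 (slice h ht) i) j).pow 2

theorem gsq_nn (v : V → V) (x : V) : 0 ≤ gsq v x :=
  Finset.sum_nonneg fun i _ => Finset.sum_nonneg fun j _ => sq_nonneg _

/-- The dissipation. -/
theorem diss (h : LSl T E O u p) (hr : 0 < r) (hrT : r ^ 2 ≤ T)
    (hdi : IntegrableOn (fun t => ∫ x in closedBall a r, gsq (u t) x) (Ioo (T - r ^ 2) T))
    (hd : ∫ t in Ioo (T - r ^ 2) T, ∫ x in closedBall a r, gsq (u t) x ≤ σ * r) :
    ∫⁻ τ in Ioo 0 (r ^ 2), ∫⁻ y in closedBall a r, ENNReal.ofReal (gsq (u (T - r ^ 2 + τ)) y)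
      ≤ ENNReal.ofReal (σ * r) := by
  have e1 : ∫⁻ τ in Ioo 0 (r ^ 2), ∫⁻ y in closedBall a r,
      ENNReal.ofReal (gsq (u (T - r ^ 2 + τ)) y) =
      ∫⁻ t in Ioo (T - r ^ 2) T, ∫⁻ y in closedBall a r, ENNReal.ofReal (gsq (u t) y) := by
    have e2 := (measurePreserving_add_left (volume : Measure ℝ) (T - r ^ 2)).setLIntegral_comp_preimage_emb
      (measurableEmbedding_addLeft (T - r ^ 2))
      (fun t => ∫⁻ y in closedBall a r, ENNReal.ofReal (gsq (u t) y)) (Ioo (T - r ^ 2) T)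
    rw [← e2]
    have e3 : (fun x => T - r ^ 2 + x) ⁻¹' Ioo (T - r ^ 2) T = Ioo 0 (r ^ 2) := by
      ext x
      simp only [mem_preimage, mem_Ioo]
      constructor
      · rintro ⟨h1, h2⟩
        exact ⟨by linarith, by linarith⟩
      · rintro ⟨h1, h2⟩
        exact ⟨by linarith, by linarith⟩
    rw [e3]
  rw [e1]
  have e4 : ∫⁻ t in Ioo (T - r ^ 2) T, ∫⁻ y in closedBall a r, ENNReal.ofReal (gsq (u t) y) =
      ∫⁻ t in Ioo (T - r ^ 2) T, ENNReal.ofReal (∫ y in closedBall a r, gsq (u t) y) := by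
    refine setLIntegral_congr_fun measurableSet_Ioo fun t ht => ?_
    have ht' : t ∈ Ioo 0 T := ⟨by linarith [ht.1], ht.2⟩
    show ∫⁻ y in closedBall a r, ENNReal.ofReal (gsq (u t) y) =
      ENNReal.ofReal (∫ y in closedBall a r, gsq (u t) y)
    rw [ofReal_integral_eq_lintegral_ofReal]
    · exact (gsq_cont h ht').continuousOn.integrableOn_compact (isCompact_closedBall a r)
    · exact Eventually.of_forall fun x => gsq_nn _ _
  rw [e4, ← ofReal_integral_eq_lintegral_ofReal hdi]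
  · exact ENNReal.ofReal_le_ofReal hd
  · exact Eventually.of_forall fun t => integral_nonneg fun x => gsq_nn _ _

end

/-- **END.** -/
theorem t : Pool.Agent.H1EI.END := by
  obtain ⟨C, hC, hcount⟩ := W221.NS.B.p_count3
  obtain ⟨B, hB0, hcut⟩ := cut
  -- the constants
  obtain ⟨c, hc0, hc1, hc2⟩ : ∃ c : ℝ, 0 < c ∧ c ≤ 1 / 2 ∧ C * c ≤ 1 / 8 :=
    ⟨min (1 / 2) (1 / (8 * C)), by positivity, min_le_left _ _, by
      calc C * min (1 / 2) (1 / (8 * C)) ≤ C * (1 / (8 * C)) :=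
            mul_le_mul_of_nonneg_left (min_le_right _ _) hC.le
        _ = 1 / 8 := by field_simp⟩
  obtain ⟨σ, hσ, s1, s2, s3⟩ : ∃ σ : ℝ, 0 < σ ∧ C * σ < c ∧ C * (2 * B * √(σ * c)) ≤ 1 ∧
      C * √(σ * c) ≤ 1 / 8 := by
    have c1 : Continuous fun σ : ℝ => C * σ := by fun_prop
    have c2 : Continuous fun σ : ℝ => C * (2 * B * √(σ * c)) := by fun_prop
    have c3 : Continuous fun σ : ℝ => C * √(σ * c) := by fun_prop
    have l1 : ∀ᶠ σ : ℝ in 𝓝 0, C * σ < c := by
      have := c1.tendsto 0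
      simp only [mul_zero] at this
      exact this.eventually_lt_const hc0
    have l2 : ∀ᶠ σ : ℝ in 𝓝 0, C * (2 * B * √(σ * c)) < 1 := by
      have := c2.tendsto 0
      simp only [zero_mul, Real.sqrt_zero, mul_zero] at this
      exact this.eventually_lt_const one_pos
    have l3 : ∀ᶠ σ : ℝ in 𝓝 0, C * √(σ * c) < 1 / 8 := by
      have := c3.tendsto 0
      simp only [zero_mul, Real.sqrt_zero, mul_zero] at this
      exact this.eventually_lt_const (by norm_num)
    obtain ⟨s₀, hs₀, hs⟩ := Metric.eventually_nhds_iff.1 (l1.and (l2.and l3))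
    obtain ⟨m1, m2, m3⟩ := hs (show dist (s₀ / 2) 0 < s₀ by
      rw [Real.dist_eq, sub_zero, abs_of_pos (by positivity)]
      linarith)
    exact ⟨s₀ / 2, by positivity, m1, m2.le, m3.le⟩
  refine ⟨σ, hσ, fun T E O u p h a r hr hr1 hrT hb hse hsing => ?_⟩
  obtain ⟨ζ, hζ, hζc, hζs, h01, h1, hζB⟩ := hcut a r hr
  have hO := osol h hr hrT hb hσ.le hse.en
  have hL := Pool.Agent.W436.MH.cut_sol3 (Real.sqrt_nonneg _) hO hζ hζc hζs h01
    (isOpen_ball (x := a) (ε := r / 2)) (ball_subset_ball (by linarith)) h1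
    (div_nonneg hB0 hr.le) hζB
  have hr2 : 0 < r ^ 2 := by positivity
  -- the singular point
  have hS : W221.NS.Sing (r ^ 2) (fun t x => ζ x • u (T - r ^ 2 + t) x) a := by
    intro δ hδ M
    have hδ' : 0 < min (δ / 2) (min (r / 4) (r ^ 2)) := by positivity
    obtain ⟨t', ht', ht1, x, hx, hM⟩ := hsing M _ hδ'
    have g1 : min (δ / 2) (min (r / 4) (r ^ 2)) ≤ δ / 2 := min_le_left _ _
    have g2 : min (δ / 2) (min (r / 4) (r ^ 2)) ≤ r / 4 := (min_le_right _ _).trans (min_le_left _ _)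
    refine ⟨t' - (T - r ^ 2), ⟨by linarith, by linarith [ht'.2]⟩, x, ?_, ?_⟩
    · rw [mem_ball_iff_norm]
      linarith
    · have e1 : T - r ^ 2 + (t' - (T - r ^ 2)) = t' := by ring
      show M < ‖ζ x • u (T - r ^ 2 + (t' - (T - r ^ 2))) x‖
      rw [e1, h1 x (by rw [mem_ball_iff_norm]; linarith), one_smul]
      exact hM
  have e1 : √(σ * r) * √(c * r) = r * √(σ * c) := by
    rw [← Real.sqrt_mul (by positivity), show σ * r * (c * r) = r ^ 2 * (σ * c) by ring,
      Real.sqrt_mul (by positivity), Real.sqrt_sq hr.le]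
  have hcr : 2 * (c * r) ^ 2 < r ^ 2 := by
    have h3 : c ^ 2 ≤ (1 / 2) ^ 2 := pow_le_pow_left₀ hc0.le hc1 2
    have h4 : c ^ 2 * r ^ 2 ≤ (1 / 2) ^ 2 * r ^ 2 := mul_le_mul_of_nonneg_right h3 hr2.le
    have h5 : 2 * (c * r) ^ 2 = 2 * (c ^ 2 * r ^ 2) := by ring
    rw [h5]
    nlinarith
  have key := hcount (r ^ 2) (2 * (B / r) * √(σ * r)) (√(σ * r)) 0 (ball a (r / 2)) _ _
    (by positivity) (Real.sqrt_nonneg _) le_rfl hL (c * r) (by positivity) (by nlinarith)
    hcr (by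
      have e2 : C * (2 * (B / r) * √(σ * r)) * √(c * r) = C * (2 * B * √(σ * c)) := by
        calc C * (2 * (B / r) * √(σ * r)) * √(c * r) = C * (2 * (B / r) * (√(σ * r) * √(c * r))) := by
              ring
          _ = C * (2 * B * √(σ * c)) := by
              rw [e1]
              field_simp
      rw [e2]
      exact s2) (by simp) {a} (fun x hx => by
        rw [Finset.mem_singleton] at hx
        rw [hx]
        exact hS) (fun x hx => by
        rw [Finset.mem_singleton] at hx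
        rw [hx]
        refine ball_subset_ball ?_
        rw [e1]
        nlinarith) (fun x hx y hy hxy => by
        rw [Finset.mem_singleton] at hx hy
        exact absurd (hx.trans hy.symm) hxy)
  rw [Finset.card_singleton, Nat.cast_one, one_mul] at key
  -- the dissipation
  have hd := diss h hr hrT hse.dii hse.di
  have hg : ∀ τ, ∀ y ∈ ball a (r / 2), gsq (fun x => ζ x • u (T - r ^ 2 + τ) x) y =
      gsq (u (T - r ^ 2 + τ)) y := by
    intro τ y hy
    unfold gsq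
    refine Finset.sum_congr rfl fun i _ => Finset.sum_congr rfl fun j _ => ?_
    have h2 : (fun y => (ζ y • u (T - r ^ 2 + τ) y) i) =ᶠ[𝓝 y] fun y => u (T - r ^ 2 + τ) y i := by
      filter_upwards [isOpen_ball.mem_nhds hy] with z hz
      rw [h1 z hz, one_smul]
    rw [Pool.Agent.W349.MF.pd_congr' h2 j]
  have hle : ∫⁻ τ in Ioo (r ^ 2 - 2 * (c * r) ^ 2) (r ^ 2), ∫⁻ y in ball a (r / 2),
      ENNReal.ofReal (gsq ((fun t x => ζ x • u (T - r ^ 2 + t) x) τ) y) ≤
      ∫⁻ τ in Ioo 0 (r ^ 2), ∫⁻ y in closedBall a r,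
        ENNReal.ofReal (gsq (u (T - r ^ 2 + τ)) y) := by
    refine (lintegral_mono fun τ => ?_).trans (lintegral_mono_set (Ioo_subset_Ioo_left (by linarith)))
    have h3 : ∫⁻ y in ball a (r / 2), ENNReal.ofReal (gsq (fun x => ζ x • u (T - r ^ 2 + τ) x) y) =
        ∫⁻ y in ball a (r / 2), ENNReal.ofReal (gsq (u (T - r ^ 2 + τ)) y) :=
      setLIntegral_congr_fun isOpen_ball.measurableSet fun y hy => by
        simp only [hg τ y hy]
    show ∫⁻ y in ball a (r / 2), ENNReal.ofReal (gsq (fun x => ζ x • u (T - r ^ 2 + τ) x) y) ≤ _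
    rw [h3]
    exact lintegral_mono_set ((ball_subset_ball (by linarith)).trans ball_subset_closedBall)
  have hfin : ENNReal.ofReal (c * r) ≤ ENNReal.ofReal (C * (σ * r)) := by
    refine key.trans ?_
    rw [ENNReal.ofReal_mul hC.le]
    exact mul_le_mul_right (hle.trans hd) _
  rw [ENNReal.ofReal_le_ofReal_iff (by positivity)] at hfin
  nlinarith

end Pool.Agent.H1EI.END
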