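import Pool.Agent.H1EI.Stm
import Pool.Agent.W583.MD.EN

set_option autoImplicit false

open MeasureTheory Set Metric
open scoped ContDiff
open H459R3.NS Pool.Agent.W268.NS Pool.Agent.Q67.VD
open W221.NS (nsq gsq adv)
open Pool.Agent.Q85.CL (SM DFO LEq LSl DSl WSl Sing Blow StmDecL StmDom)

namespace Pool.Agent.H1EI.FLX

theorem smooth_dsq (a : V) : ContDiff ℝ ∞ (dsq a) := by
  unfold dsq
  exact ContDiff.sum fun i _ => ((contDiff_apply ℝ ℝ i).sub contDiff_const).pow 2

theorem hasFDerivAt_dsq (a x : V) :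
    HasFDerivAt (dsq a) (∑ i, (2 * (x i - a i)) • ContinuousLinearMap.proj (R := ℝ)
      (φ := fun _ : Fin 3 => ℝ) i) x := by
  unfold dsq
  refine HasFDerivAt.fun_sum fun i _ => ?_
  have h1 : HasFDerivAt (fun y : V => y i - a i)
      (ContinuousLinearMap.proj (R := ℝ) (φ := fun _ : Fin 3 => ℝ) i) x :=
    (ContinuousLinearMap.proj (R := ℝ) (φ := fun _ : Fin 3 => ℝ) i).hasFDerivAt.sub_const _
  refine (h1.pow 2).congr_fderiv ?_
  ext v
  simp

theorem dsq_nonneg (a x : V) : 0 ≤ dsq a x := Finset.sum_nonneg fun _ _ => sq_nonneg _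

theorem le_dsq {a x : V} {R : ℝ} (hR : 0 < R) (hx : x ∉ closedBall a R) : R ^ 2 ≤ dsq a x := by
  rw [mem_closedBall, not_le, dist_eq_norm] at hx
  have h1 : ∃ i, R < |x i - a i| := by
    by_contra hcon
    push Not at hcon
    have h2 : ‖x - a‖ ≤ R := (pi_norm_le_iff_of_nonneg hR.le).2 fun i => by
      rw [Pi.sub_apply, Real.norm_eq_abs]
      exact hcon i
    exact absurd hx (not_lt.2 h2)
  obtain ⟨i, hi⟩ := h1
  have h2 : R ^ 2 ≤ (x i - a i) ^ 2 := by
    rw [← sq_abs (x i - a i)]
    exact pow_le_pow_left₀ hR.le hi.le 2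
  refine h2.trans ?_
  unfold dsq
  exact Finset.single_le_sum (f := fun i => (x i - a i) ^ 2) (fun _ _ => sq_nonneg _)
    (Finset.mem_univ i)

theorem t : FLX := by
  intro O v a R k _ hv hd hR hRO hk
  have hkc : Continuous k := hk.smooth.continuous
  set K : ℝ → ℝ := fun s => ∫ y in (R ^ 2)..s, k y with hK
  have hKd : ∀ s, HasDerivAt K (k s) s := fun s =>
    intervalIntegral.integral_hasDerivAt_right (hkc.intervalIntegrable _ _)
      hkc.aestronglyMeasurable.stronglyMeasurableAtFilter hkc.continuousAt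
  have hKs : ContDiff ℝ ∞ K := by
    rw [contDiff_infty_iff_deriv]
    refine ⟨fun s => (hKd s).differentiableAt, ?_⟩
    have : deriv K = k := funext fun s => (hKd s).deriv
    rw [this]
    exact hk.smooth
  have hK0 : ∀ s, R ^ 2 ≤ s → K s = 0 := by
    intro s hs
    rw [hK]
    simp only
    rw [intervalIntegral.integral_congr (g := fun _ => (0 : ℝ)) fun y hy => ?_]
    · simp
    · rw [uIcc_of_le hs] at hy
      exact hk.supp y hy.1
  set φ : V → ℝ := fun x => K (dsq a x) with hφ
  have hφs : ContDiff ℝ ∞ φ := hKs.comp (smooth_dsq a)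
  have hφ0 : ∀ x, x ∉ closedBall a R → φ x = 0 := fun x hx => hK0 _ (le_dsq hR hx)
  have hφc : HasCompactSupport φ :=
    HasCompactSupport.of_support_subset_isCompact (isCompact_closedBall a R) fun z hz => by
      by_contra hcon
      exact hz (hφ0 z hcon)
  have hφp : ∀ i x, pd i φ x = k (dsq a x) * (2 * (x i - a i)) := by
    intro i x
    have h1 : HasFDerivAt φ _ x := (hKd (dsq a x)).comp_hasFDerivAt x (hasFDerivAt_dsq a x)
    unfold pd
    rw [h1.fderiv]
    simp [Pi.single_apply]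
  have hZ : ∀ i : Fin 3, W583.MD.Z (pd i (fun y => v y i * φ y)) := fun i =>
    W583.MD.Z_pd ((hv i).mul hφs) (hφc.mul_left) i
  have hS := (W583.MD.Z.sum hZ).2
  have hpt : ∀ x, ∑ i, pd i (fun y => v y i * φ y) x = -2 * (k (dsq a x) * inw a v x) := by
    intro x
    have h1 : ∀ i, pd i (fun y => v y i * φ y) x =
        v x i * (k (dsq a x) * (2 * (x i - a i))) + pd i (fun y => v y i) x * φ x := by
      intro i
      rw [W583.MD.pd_mul' (hv i) hφs i x, hφp]
    rw [Finset.sum_congr rfl fun i _ => h1 i, Finset.sum_add_distrib, ← Finset.sum_mul]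
    have h2 : (∑ i, pd i (fun y => v y i) x) * φ x = 0 := by
      by_cases hx : x ∈ closedBall a R
      · rw [hd x (hRO hx), zero_mul]
      · rw [hφ0 x hx, mul_zero]
    rw [h2, add_zero, inw, mul_neg, mul_neg, neg_mul, neg_neg, Finset.mul_sum, Finset.mul_sum]
    refine Finset.sum_congr rfl fun i _ => ?_
    ring
  simp only [hpt] at hS
  rw [integral_const_mul] at hS
  linarith

end Pool.Agent.H1EI.FLX
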