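import Pool.Agent.H1EI.Defs

/-!
Project EI (helper1): energy flows into the singular points of Navier-Stokes flows. Statements.

THE THEOREM. For every `δ ∈ (0, 1]` there is an absolute `ε > 0`: if `a` is a singular point at the
time `T` of a smooth solution (viscosity `ν`) then there are arbitrarily small `r` with

  `∫_{T - r²/ν}^T ∫_0^r (X(t, ρ))₊ dρ dt > ε ν² r³`,

`X = ∫_{|x-a|=ρ} -(x - a)·u (|u|² + 2 (p - c)) - ν ∫_{|x-a|=ρ} ((2 - δ) |u|² + (4 - δ) ν (T - t) |∇u|²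
+ ε |p - c|)`, `c = c(t)` the mean value of `p(t)` in the cube with the radius `r`. So there are
`t`, `ρ` with `X(t, ρ) > ε ν³`.

PROOF (`ν = 1`). Suppose that `≤` holds for all small `r`. Then for `k ≥ 0` the superposition
`∫ k(|x-a|²) ... dx` of the inequalities on the spheres gives `NoX` with `Y(t) = ∫_0^r X₊ dρ`,
`∫ Y ≤ ε r³`. Let `η = Φ χ`, `Φ = τ^{-1/2} e^{-s/(4τ)}`, `τ = T + w - t`, `s = |x - a|²`,
`χ = χ(s / r²)` a cut-off function, `w = (θ r)²`. Then `Φ_t + ΔΦ = -Φ / τ`, `∇η = -(x - a) k`,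
`k = -2 ∂ₛη = η/(2τ) + k₂ ≥ 0`. The local energy identity and `NoX` give for `E = ∫ η |u|²`,
`G = ∫ η |∇u|²`

  `E' ≤ -(δ/2) E / τ - (δ/2) G + (cut-off terms) + ε ∫ k |p - c| + sup k · Y(t)`,

so `τ^{-δ/2} E` is nearly nonincreasing, and the scaled energy and dissipation decay from the scale `r`
to the scale `θ r` by the factor `C θ^δ`, up to `ε`-terms. The scaled oscillation of the pressure
decays by the factor `C θ` up to the energy and dissipation. Iteration: they become small at a small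
scale, and then `a` is not singular.

Naming: prove `theorem Pool.Agent.H1EI.X.t : Pool.Agent.H1EI.X` (or with the stubs listed after
the word uses as hypotheses, in this order) in `Pool/Agent/H1EI/X.lean`.
-/

set_option autoImplicit false

open MeasureTheory Set Metric
open scoped ContDiff
open H459R3.NS Pool.Agent.W268.NS Pool.Agent.Q67.VD
open W221.NS (nsq gsq adv)
open Pool.Agent.Q85.CL (SM DFO LEq LSl DSl WSl Sing Blow StmDecL StmDom)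

namespace Pool.Agent.H1EI

/-! ### Pure analysis (Mathlib only) -/

/-- CHI. For example `χ s = Real.smoothTransition (4 / 3 * (1 - s))`; monotone: `smoothTransition x =
expNegInvGlue x / (expNegInvGlue x + expNegInvGlue (1 - x))`, `expNegInvGlue` is monotone. -/
def CHI : Prop := ∃ χ : ℝ → ℝ, Cut χ

/-- KB. Bounds of the kernel. `χ'` and `χ''` vanish outside `[1/4, 1]` and are bounded. For
`s ≥ r²/4`, `0 < τ ≤ 2 r²` and `y = r²/τ` one has `Ph τ s ≤ r⁻¹ √y e^{-y/16}` and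
`√y (1 + y) e^{-y/16} ≤ C / y`. -/
def KB : Prop := ∀ χ : ℝ → ℝ, Cut χ → ∃ B : ℝ, 0 < B ∧ ∀ r τ s : ℝ, 0 < r → 0 < τ → τ ≤ 2 * r ^ 2 →
  0 ≤ s →
    |cc χ r τ s| ≤ B * (τ / r ^ 2) / r ^ 3 ∧ k2 χ r τ s ≤ B * (τ / r ^ 2) / r ^ 3 ∧
    kk χ r τ s ≤ B * (√τ)⁻¹ ^ 3

/-- KS. Signs and supports. `χ' ≤ 0` as `χ` is antitone; `χ = χ' = χ'' = 0` on `[1, ∞)` (there the
derivatives are the limits from the right). -/
def KS : Prop := ∀ χ : ℝ → ℝ, Cut χ → ∀ r τ : ℝ, 0 < r → 0 < τ →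
  Wt r (kk χ r τ) ∧ (∀ s, 0 ≤ k2 χ r τ s) ∧ (∀ s, 0 ≤ s → 0 ≤ et χ r τ s ∧ et χ r τ s ≤ (√τ)⁻¹) ∧
  ∀ s, r ^ 2 ≤ s → et χ r τ s = 0 ∧ k2 χ r τ s = 0 ∧ cc χ r τ s = 0

/-- INT. Integration of the differential inequality. `F(t) = (T + w - t)^(-β) Ef(t)` has the
derivative `≤ (T + w - t)^(-β) (H - β Gf)`, so `F(t) - F(t₀) ≤ ∫_{t₀}^t (...)` (the function
`F - ∫ ...` has a nonpositive derivative, or use `MeasureTheory` / `image_le_of_...`). For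
`t ∈ (T - w, T)`: `w < T + w - t < 2 w`, and on `[T - w, t]` the weight is at least
`(2 w)^(-β)`. -/
def INT : Prop := ∀ (β T w t₀ A₁ B : ℝ) (Ef Gf H : ℝ → ℝ), 0 < β → 0 < w → t₀ < T - w →
  ContinuousOn Gf (Ico t₀ T) → ContinuousOn H (Ico t₀ T) →
  (∀ t ∈ Ico t₀ T, ∃ e' : ℝ, HasDerivAt Ef e' t ∧
    e' ≤ -β / (T + w - t) * Ef t - β * Gf t + H t) →
  (∀ t ∈ Ico t₀ T, 0 ≤ Ef t ∧ 0 ≤ Gf t) → Ef t₀ ≤ A₁ →
  (∀ t ∈ Ioo t₀ T, ∫ x in t₀..t, (T + w - x) ^ (-β) * H x ≤ B) →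
    ∀ t ∈ Ioo (T - w) T, Ef t + β * ∫ x in (T - w)..t, Gf x ≤
      (2 * w) ^ β * ((T + w - t₀) ^ (-β) * A₁ + B)

/-- HB (NEW VERSION 00:45: `Y` instead of `ε r`). The integral of the error terms, `w = (θ r)²`,
`τ = T + w - x ∈ [w, 2 r²]`. First part: `τ^(-β) τ / r² ≤ (2 r²)^(1-β) / r² ≤ 2 (r²)^(-β)`,
`∫ N ≤ A r · r²`, `∫ M ≤ D r`. Second part: `τ^(-β) ≤ w^(-β)`, `(√τ)⁻¹³ ≤ (θ r)^(-3)`,
`∫ (ε Z + Y) ≤ ε P r³ + ε r³`. -/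
def HB : Prop := ∀ B : ℝ, 0 < B → ∃ C : ℝ, 0 < C ∧ ∀ (β θ T r A D P ε : ℝ) (N M Z Y : ℝ → ℝ),
  0 < β → β ≤ 1 / 2 → 0 < θ → θ ≤ 1 / 4 → 0 < r → 0 ≤ ε →
  (∀ t ∈ Ioo (T - r ^ 2) T, 0 ≤ N t ∧ N t ≤ A * r ∧ 0 ≤ M t ∧ 0 ≤ Z t ∧ 0 ≤ Y t) →
  ContinuousOn N (Ioo (T - r ^ 2) T) → ContinuousOn M (Ioo (T - r ^ 2) T) →
  ContinuousOn Z (Ioo (T - r ^ 2) T) → ContinuousOn Y (Ioo (T - r ^ 2) T) →
  IntegrableOn M (Ioo (T - r ^ 2) T) → IntegrableOn Z (Ioo (T - r ^ 2) T) →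
  IntegrableOn Y (Ioo (T - r ^ 2) T) → ∫ t in Ioo (T - r ^ 2) T, M t ≤ D * r →
  ∫ t in Ioo (T - r ^ 2) T, Z t ≤ P * r ^ 3 → ∫ t in Ioo (T - r ^ 2) T, Y t ≤ ε * r ^ 3 →
  ∀ t ∈ Ioo (T - 3 / 4 * r ^ 2) T,
    ∫ x in (T - 3 / 4 * r ^ 2)..t, (T + (θ * r) ^ 2 - x) ^ (-β) *
      (B * ((T + (θ * r) ^ 2 - x) / r ^ 2) * (N x / r ^ 3 + M x / r)
        + B * (√(T + (θ * r) ^ 2 - x))⁻¹ ^ 3 * (ε * Z x + Y x)) ≤
      C * (r ^ 2) ^ (-β) * (A + D) + ε * C * (θ ^ 3)⁻¹ * ((θ * r) ^ 2) ^ (-β) * (P + 1)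

/-- ITER. `θ` with `C₁ θ^δ ≤ 1/4`, `C₃ θ ≤ 1/4`; `λ > 0` with `λ C₃ θ⁻³ ≤ 1/4`; `ε` with
`ε C₂ ≤ λ/4`, `ε C₂ ≤ σ/8`. Then `b = a + λ P` satisfies `b (n+1) ≤ b n / 2 + ε C₂`, so
`limsup b ≤ 2 ε C₂ < σ`. -/
def ITER : Prop := ∀ δ C₁ C₃ : ℝ, 0 < δ → 0 < C₁ → 0 < C₃ → ∃ θ : ℝ, 0 < θ ∧ θ ≤ 1 / 4 ∧
  ∀ C₂ σ : ℝ, 0 < C₂ → 0 < σ → ∃ ε : ℝ, 0 < ε ∧ ∀ a P : ℕ → ℝ, (∀ n, 0 ≤ a n) → (∀ n, 0 ≤ P n) →
    (∀ n, a (n + 1) ≤ C₁ * θ ^ δ * a n + ε * C₂ * (P n + 1)) →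
    (∀ n, P (n + 1) ≤ C₃ * θ * P n + C₃ * (θ ^ 3)⁻¹ * a n) → ∃ n, a n ≤ σ

/-- CONT. Continuity of parametric integrals over compact sets. -/
def CONT : Prop := ∀ (T : ℝ) (f : ℝ → V → ℝ) (K : Set V), IsCompact K →
  ContinuousOn (fun z : ℝ × V => f z.1 z.2) (Ioo 0 T ×ˢ univ) →
    ContinuousOn (fun t => ∫ x in K, f t x) (Ioo 0 T)

/-- POL. Polar coordinates (`Measure.toSphere`, `EuclideanSpace.volume_preserving_...`); first the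
integrability of both sides. -/
def POL : Prop := ∀ (a : V) (R : ℝ) (k : ℝ → ℝ) (f : V → ℝ) (Ω : Set V), 0 < R → IsOpen Ω →
  closedBall a R ⊆ Ω → Wt R k → ContinuousOn f Ω →
    IntegrableOn (fun ρ => k (ρ ^ 2) * sph a ρ f) (Ioi 0) ∧
    ∫ x, k (dsq a x) * f x = ∫ ρ in Ioi (0 : ℝ), k (ρ ^ 2) * sph a ρ f

/-! ### Calculus on the space `V` -/

/-- KC. The weight function: smoothness, gradient, heat equation. With `Φ = Ph τ s`, `s = dsq a x`,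
`f(s) = χ(s / r²)`: `Δ F(s) = 4 s F'' + 6 F'`, `∂ₛΦ = -Φ/(4τ)`, `-∂_τ Φ + ΔΦ = -Φ/τ`,
`2 ∇Φ·∇f + Φ Δf = cc`. -/
def KC : Prop := ∀ χ : ℝ → ℝ, Cut χ → ∀ (r : ℝ) (a : V), 0 < r →
  ContDiffOn ℝ ∞ (fun z : ℝ × V => et χ r z.1 (dsq a z.2)) (Ioi 0 ×ˢ univ) ∧
  ∀ τ : ℝ, 0 < τ → ∀ x : V,
    (∀ i, pd i (fun y => et χ r τ (dsq a y)) x = -(x i - a i) * kk χ r τ (dsq a x)) ∧
    ∃ d : ℝ, HasDerivAt (fun σ => et χ r σ (dsq a x)) d τ ∧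
      -d + lap (fun y => et χ r τ (dsq a y)) x
        = -(1 / τ) * et χ r τ (dsq a x) + cc χ r τ (dsq a x)

/-- FLX. No flux of a constant: `k(|x-a|²) (x - a) = ∇ K(|x-a|²)`, `K(s) = -(1/2) ∫_s^∞ k` has
compact support, integrate by parts (`∫ v · ∇φ = 0` for `φ` with compact support in `O`). -/
def FLX : Prop := ∀ (O : Set V) (v : V → V) (a : V) (R : ℝ) (k : ℝ → ℝ), IsOpen O → SM v →
  DFO O v → 0 < R → closedBall a R ⊆ O → Wt R k → ∫ x, k (dsq a x) * inw a v x = 0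

/-- PT. Decay of the oscillation of the pressure at one time. uses: `StmDecL` (proved:
`Pool.Agent.Q81.CL.decL`, file `Q81/CL/Dec.lean`).

Let `m` be the mean of `f` in the cube `closedBall a r`, `L = r / 4`; apply `StmDecL` to `f - m`
with `ρ = L`: there is a smooth `f₂` with `|f - m - f₂| ≤ C ∑ pot L (G i)` in `closedBall a L` and
`|∂ⱼ f₂| ≤ C (∑ far L L (G i) x + L⁻⁴ ∫_{closedBall 0 L} |f - m|(x + z) dz)`. Here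
`∫_{closedBall a L} pot L (G i) ≤ (∫_{closedBall 0 L} ‖z‖⁻² dz) ∫_{closedBall a r} |G i|
 = 24 L ∫ |G i|` and `far L L (G i) x ≤ 8 L⁻³ ∫_{closedBall a r} |G i|`. So in `closedBall a (θ r)`
`|f₂ - f₂(a)| ≤ 3 θ r sup |∂ f₂|`, and `osc a (θ r) f ≤ 2 ∫_{closedBall a (θ r)} |f - m - f₂(a)|`. -/
def PT : Prop := ∃ C : ℝ, 0 < C ∧ ∀ (r θ : ℝ) (a : V) (f : V → ℝ) (G : Fin 3 → V → ℝ), 0 < r →
  0 < θ → θ ≤ 1 / 4 → ContDiff ℝ ∞ f → (∀ i, ContDiff ℝ ∞ (G i)) →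
  (∀ x ∈ ball a r, lap f x = ∑ i, pd i (G i) x) →
    osc a (θ * r) f ≤ C * (θ ^ 4 * osc a r f + r * ∫ x in closedBall a r, ∑ i, |G i x|)

/-! ### Solutions -/

/-- LAPP. The equation of the pressure: divergence of the momentum equation. (Model: the second part
of `Pool.Agent.Q2.CL.lel`, file `Q2/CL/LEL.lean`.) -/
def LAPP : Prop := ∀ (T : ℝ) (O : Set V) (u : ℝ → V → V) (p : ℝ → V → ℝ), LEq T O u p →
  ∀ t ∈ Ioo 0 T, (∀ i, ContDiff ℝ ∞ (GG (u t) i)) ∧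
    ∀ x ∈ O, lap (p t) x = ∑ i, pd i (GG (u t) i) x

/-- EN1. The local energy identity with a test function which depends on the time. (Model: the first
part of `Pool.Agent.Q2.CL.lel`, file `Q2/CL/LEL.lean`.) -/
def EN1 : Prop := ∀ (T : ℝ) (O : Set V) (u : ℝ → V → V) (p : ℝ → V → ℝ), LEq T O u p →
  ∀ (φ : ℝ → V → ℝ) (K : Set V), IsCompact K → K ⊆ O →
  ContDiffOn ℝ ∞ (fun z : ℝ × V => φ z.1 z.2) (Ioo 0 T ×ˢ univ) →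
  (∀ t ∈ Ioo 0 T, ∀ x, x ∉ K → φ t x = 0) → ∀ t ∈ Ioo 0 T,
    HasDerivAt (fun s => ∫ y, nsq (u s) y * φ s y)
      (-2 * (∫ y, gsq (u t) y * φ t y)
        + (∫ y, nsq (u t) y * (deriv (fun s => φ s y) t + lap (φ t) y))
        + ∫ y, (nsq (u t) y + 2 * p t y) * adv (u t) (φ t) y) t

/-- DI (NEW VERSION 00:45: `NoX` at the scale `r`, `Y` instead of `ε r`). The differential inequality.
uses: `KB`, `KS`, `KC`, `EN1`.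

Put `τ = T + w - t ∈ (w, 2 r²)`, `φ s x = et χ r (T + w - s) (dsq a x)`, supported in the cube
`K = closedBall a r`. By `EN1` and `KC` (`adv (u t) φ = k inw`, `k = kk χ r τ (dsq a x)`), the
derivative is `-2 G - E/τ + ∫ nsq cc + ∫ k inw (nsq + 2 p)`. Apply `NoX` (with `Wt r k` and
`S = B (√τ)⁻¹³` from `KB`). As `k = et/(2τ) + k₂`:
`(2-δ) ∫ k nsq ≤ (1 - δ/2) E/τ + 2 ∫ k₂ nsq`; `(4-δ)(T-t) ∫ k gsq ≤ (2 - δ/2) G + 4 (T-t) ∫ k₂ gsq`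
(`T - t ≤ τ`), `T - t ≤ r²`; `∫ k |p - c| ≤ S · osc`; and the bounds `KB`. -/
def DI : Prop := ∀ χ : ℝ → ℝ, Cut χ → ∃ B : ℝ, 0 < B ∧ ∀ (T E : ℝ) (O : Set V) (u : ℝ → V → V)
  (p : ℝ → V → ℝ), LSl T E O u p → ∀ (δ ε w r : ℝ) (a : V) (Y : ℝ → ℝ), 0 < δ → δ ≤ 1 → 0 ≤ ε →
  0 < r → closedBall a r ⊆ O → 0 < w → w ≤ r ^ 2 → r ^ 2 ≤ T →
  NoX δ ε T r a u p Y → ∀ t ∈ Ioo (T - r ^ 2) T, ∃ e' : ℝ,
    HasDerivAt (fun s => ∫ x, nsq (u s) x * et χ r (T + w - s) (dsq a x)) e' t ∧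
    e' ≤ -(δ / 2) / (T + w - t) * (∫ x, nsq (u t) x * et χ r (T + w - t) (dsq a x))
      - (δ / 2) * (∫ x, gsq (u t) x * et χ r (T + w - t) (dsq a x))
      + (B * ((T + w - t) / r ^ 2) * ((∫ x in closedBall a r, nsq (u t) x) / r ^ 3
          + (∫ x in closedBall a r, gsq (u t) x) / r)
        + B * (√(T + w - t))⁻¹ ^ 3 * (ε * osc a r (p t) + Y t))

/-- INIT. Finite constants at every scale. `A = E / r`, `D`, `P` from the integrability in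
`(0, T) × O` (Fubini); `osc ≤ 2 ∫ |p|`. -/
def INIT : Prop := ∀ (T E : ℝ) (O : Set V) (u : ℝ → V → V) (p : ℝ → V → ℝ), LSl T E O u p →
  ∀ (a : V) (r : ℝ), 0 < r → r ^ 2 ≤ T → closedBall a r ⊆ O →
    ∃ A P : ℝ, 0 ≤ A ∧ 0 ≤ P ∧ Se T a r A A u ∧ Sp T a r P p

/-- ONE (NEW VERSION 00:45: `NoX`). Decay of energy and dissipation. uses: `CHI`, `KS`, `CONT`, `INT`,
`HB`, `DI`.

Take `w = (θ r)²`, `t₀ = T - (3/4) r²`, `β = δ/2`, `Ef`, `Gf` the integrals in `DI`, `N`, `M`, `Z` the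
integrals over `closedBall a r` and `osc a r (p t)`, all continuous in `t` (`CONT`). `HB` bounds the
error terms, `Ef t₀ ≤ τ₀^{-1/2} A r ≤ 2 A` as `τ₀ = (3/4) r² + w ≥ r²/2`, `INT` gives for
`t ∈ (T - w, T)`: `Ef t + β ∫_{T-w}^t Gf ≤ C θ^δ (A + D) + ε C θ^{-3} (P + 1)` (as
`w^β (r²)^(-β) = θ^δ`). For `x ∈ closedBall a (θ r)`: `dsq a x ≤ 3 (θ r)² ≤ r²/4` and
`w ≤ τ ≤ 2 w`, so `et ≥ (√2 θ r)⁻¹ e^{-3/4}`. For the dissipation let `t → T`. -/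
def ONE : Prop := ∀ δ : ℝ, 0 < δ → δ ≤ 1 → ∃ C₁ : ℝ, 0 < C₁ ∧ ∀ θ : ℝ, 0 < θ → θ ≤ 1 / 4 →
  ∃ C₂ : ℝ, 0 < C₂ ∧ ∀ (T E : ℝ) (O : Set V) (u : ℝ → V → V) (p : ℝ → V → ℝ), LSl T E O u p →
  ∀ (ε r A D P : ℝ) (a : V) (Y : ℝ → ℝ), 0 ≤ ε → 0 < r → closedBall a r ⊆ O → r ^ 2 ≤ T →
  NoX δ ε T r a u p Y → Se T a r A D u → Sp T a r P p →
    Se T a (θ * r) (C₁ * θ ^ δ * (A + D) + ε * C₂ * (P + 1))
      (C₁ * θ ^ δ * (A + D) + ε * C₂ * (P + 1)) u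

/-- PR. Decay of the pressure. uses: `CONT`, `LAPP`, `PT`.

`PT` at every time with `G i = GG (u t) i`, `∑ |G i| ≤ 3 √(nsq gsq)`,
`∫_{closedBall a r} √(nsq gsq) ≤ √(A r) √(∫ gsq)`, and
`∫_{T-r²}^T √(∫ gsq) dt ≤ r √(D r)`; so `∫ osc a (θ r) (p t) dt ≤ C (θ⁴ P r³ + r³ √(A D))`, divide by
`(θ r)³`. -/
def PR : Prop := ∃ C₃ : ℝ, 0 < C₃ ∧ ∀ θ : ℝ, 0 < θ → θ ≤ 1 / 4 → ∀ (T E : ℝ) (O : Set V)
  (u : ℝ → V → V) (p : ℝ → V → ℝ), LSl T E O u p → ∀ (r A D P : ℝ) (a : V), 0 < r →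
  r ^ 2 ≤ T → closedBall a r ⊆ O → Se T a r A D u → Sp T a r P p →
    Sp T a (θ * r) (C₃ * θ * P + C₃ * (θ ^ 3)⁻¹ * (A + D)) p

/-- LIM (NEW VERSION 00:45: `NoX` at all small scales). Small energy and dissipation at a small scale.
uses: `ITER`, `INIT`, `ONE`, `PR`.

`r₀ = min(r₁, 1)`, `rₙ = θⁿ r₀`, `Aₙ = Dₙ`, `Pₙ` the numbers given by the recursion
`A (n+1) = C₁ θ^δ (2 A n) + ε C₂ (P n + 1)`, `a n = 2 A n`. -/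
def LIM : Prop := ∀ δ σ : ℝ, 0 < δ → δ ≤ 1 → 0 < σ → ∃ ε : ℝ, 0 < ε ∧ ∀ (T E : ℝ) (O : Set V)
  (u : ℝ → V → V) (p : ℝ → V → ℝ), LSl T E O u p → ∀ (r₁ : ℝ) (a : V), 0 < r₁ → r₁ ^ 2 ≤ T →
  closedBall a r₁ ⊆ O → (∀ r : ℝ, 0 < r → r ≤ r₁ → ∃ Y : ℝ → ℝ, NoX δ ε T r a u p Y) →
    ∃ r : ℝ, 0 < r ∧ r ≤ r₁ ∧ r ≤ 1 ∧ r ^ 2 ≤ T ∧ Se T a r σ σ u

/-- END. uses: nothing (library: `W221.NS.p_count3 : S_COUNT3`, file `W221/NS/Asm3.lean`; model of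
the cut-off: `Pool.Agent.W436.MH.t_OMEGA3`).

Let `χ` be a smooth cut-off function, `χ = 1` in `ball a (r/2)`, supported in `ball a r`,
`|∇χ| ≤ C' / r`; `ũ t x = χ x • u (T - r² + t) x`, `p̃ t = p (T - r² + t)` on `(0, r²)`,
`O' = ball a (r/2)`. Then `LSol3 (r²) κ E' 0 O' ũ p̃` with `E' = √(σ r)`,
`κ = C'' √(σ / r)` (`div ũ = ∇χ·u`). Apply `S_COUNT3` (constant `C ≥ 1`) with the scale `c₀ r`,
`c₀ = 1/(8 C)`, `S = {a}`: `C κ √(c₀ r) ≤ 1`, `C (c₀ r + E' √(c₀ r)) ≤ r/2` if `σ` is small; the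
conclusion `c₀ r ≤ C ∫∫ gsq ≤ C σ r` is wrong if `σ < c₀ / C`. `Pool.Agent.Q85.CL.Sing` gives
`W221.NS.Sing`. -/
def END : Prop := ∃ σ : ℝ, 0 < σ ∧ ∀ (T E : ℝ) (O : Set V) (u : ℝ → V → V) (p : ℝ → V → ℝ),
  LSl T E O u p → ∀ (a : V) (r : ℝ), 0 < r → r ≤ 1 → r ^ 2 ≤ T → closedBall a r ⊆ O →
    Se T a r σ σ u → ¬ Sing T u a

/-! ### Reduction of the classes of solutions -/

/-- DOM2. As `StmDom` (proof: `Pool.Agent.Q284.CL.dom`, file `Q284/CL/Dom.lean`), with the pressure: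
the pressure in that proof is `ν⁻² p (t / ν)` times a cut-off function. -/
def DOM2 : Prop := ∀ (ν T E : ℝ) (Ω : Set V) (u : ℝ → V → V) (p : ℝ → V → ℝ), 0 < ν → 0 < T →
  DSl ν T E Ω u p → ∀ (a : V) (R : ℝ), 0 < R → closedBall a R ⊆ Ω →
    ∃ (E' : ℝ) (v : ℝ → V → V) (q : ℝ → V → ℝ), LSl (ν * T) E' (ball a R) v q ∧
      ∀ t ∈ Ioo 0 T, ∀ x ∈ ball a R, v (ν * t) x = ν⁻¹ • u t x ∧ q (ν * t) x = (ν⁻¹) ^ 2 * p t x

/-- SCALX. uses: `DOM2`. The scaling of the excess, for `r < R`: on the spheres (and in the cube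
`closedBall a r`) inside `ball a R` one has `v (ν t) = ν⁻¹ u t`, `q (ν t) = ν⁻² p t`,
`gsq (v (ν t)) = ν⁻² gsq (u t)` (open set), so the mean values satisfy `c' = ν⁻² c` and
`exc 1 δ ε (ν T - ν t) c' a (v (ν t)) (q (ν t)) ρ = ν⁻³ exc ν δ ε (T - t) c a (u t) (p t) ρ`; and
`∫⁻_{ν T - r²}^{ν T} f(s) ds = ν ∫⁻_{T - r²/ν}^T f(ν t) dt`. -/
def SCALX : Prop := ∀ (ν T E : ℝ) (Ω : Set V) (u : ℝ → V → V) (p : ℝ → V → ℝ), 0 < ν → 0 < T →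
  DSl ν T E Ω u p → ∀ (a : V) (R : ℝ), 0 < R → closedBall a R ⊆ Ω →
    ∃ (E' : ℝ) (v : ℝ → V → V) (q : ℝ → V → ℝ), LSl (ν * T) E' (ball a R) v q ∧
      (∀ δ ε r : ℝ, 0 < r → r < R → r ^ 2 ≤ ν * T → ExcLe ν δ ε T r a u p →
        ExcLe 1 δ ε (ν * T) r a v q) ∧ (Sing T u a → Sing (ν * T) v a)

/-- SC. Continuity of the integrals over spheres (the integrand `f t (a + ρ σ)` is continuous in
`(t, ρ, σ)`, the sphere is compact and its measure finite). -/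
def SC : Prop := ∀ (T : ℝ) (a : V) (f : ℝ → V → ℝ),
  ContinuousOn (fun z : ℝ × V => f z.1 z.2) (Ioo 0 T ×ˢ univ) →
    ContinuousOn (fun z : ℝ × ℝ => sph a z.2 (f z.1)) (Ioo 0 T ×ˢ univ)

/-- SPHX. From spheres to superpositions of spheres, `ν = 1`. uses: `POL`, `FLX`, `CONT`, `SC`.

`Y t = ∫ ρ in Ioo 0 r, exc ...` with `c(t)` the mean value of `p t` in the cube (continuous in `t`
by `CONT`); `exc` is continuous in `(t, ρ)` (`SC`), so `Y` is continuous and finite, its integral is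
at most `ε r³` (`ExcLe`), and it is integrable. `ineq`: by `FLX` the constant `c` has no flux, so
`∫ k inw (nsq + 2 p) = ∫ k inw (nsq + 2 (p - c)) = ∫_ρ k(ρ²) sph(...)` (`POL` with `Ω = univ`) and
`sph(...) ≤ sph(...) + exc`, `∫ k(ρ²) exc ≤ S Y` (`k(ρ²) = 0` for `ρ ≥ r`). -/
def SPHX : Prop := ∀ (T E : ℝ) (O : Set V) (u : ℝ → V → V) (p : ℝ → V → ℝ), LSl T E O u p →
  ∀ (δ ε r : ℝ) (a : V), 0 ≤ ε → 0 < r → r ^ 2 ≤ T → closedBall a r ⊆ O →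
  ExcLe 1 δ ε T r a u p → ∃ Y : ℝ → ℝ, NoX δ ε T r a u p Y

/-- PER. Periodic solutions: the normalised pressure of `Pool.Agent.Q85.CL.perD` (file
`Q85/CL/PerD.lean`) is `p` plus a function of the time. (Adapt that proof, or compare the momentum
equations: the gradients are equal in the ball.) -/
def PER : Prop := ∀ (ν T : ℝ) (u : ℝ → V → V) (p : ℝ → V → ℝ), 0 < ν → 0 < T → IsSol ν T u p →
  ∀ a : V, ∃ (E : ℝ) (p' : ℝ → V → ℝ), DSl ν T E (ball a (1 / 2)) u p' ∧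
    ∀ t ∈ Ioo 0 T, ∃ c : ℝ, ∀ x ∈ ball a (1 / 2), p' t x = p t x + c

/-- PERX. The excess does not change if a function of the time is added to the pressure (for
`0 < ρ < r < 1/2` the spheres and the cube `closedBall a r` are in `ball a (1/2)`, the mean value
changes by the same constant). -/
def PERX : Prop := ∀ (ν T : ℝ) (u : ℝ → V → V) (p p' : ℝ → V → ℝ), 0 < ν → IsSol ν T u p →
  ∀ a : V, (∀ t ∈ Ioo 0 T, ∃ c : ℝ, ∀ x ∈ ball a (1 / 2), p' t x = p t x + c) →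
  ∀ (δ ε r : ℝ), 0 < r → r < 1 / 2 → r ^ 2 ≤ ν * T → ExcLe ν δ ε T r a u p →
    ExcLe ν δ ε T r a u p'

/-- MAIN. uses: `LIM`, `END`, `SCALX`, `SPHX`. `ε` from `LIM` with `σ` from `END`. -/
def MAIN : Prop := ∀ δ : ℝ, 0 < δ → δ ≤ 1 → ∃ ε : ℝ, 0 < ε ∧ ∀ (ν T E : ℝ) (Ω : Set V)
  (u : ℝ → V → V) (p : ℝ → V → ℝ), 0 < ν → DSl ν T E Ω u p → ∀ a ∈ Ω, Sing T u a →
  ∀ r₀ : ℝ, 0 < r₀ → ∃ r : ℝ, 0 < r ∧ r < r₀ ∧ r ^ 2 ≤ ν * T ∧ closedBall a r ⊆ Ω ∧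
    ¬ ExcLe ν δ ε T r a u p

end Pool.Agent.H1EI
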