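import Mathlib
import Pool.Agent.H1EI.Stm

set_option autoImplicit false

open MeasureTheory Set Metric

namespace Pool.Agent.H1EI.HB

theorem t : Pool.Agent.H1EI.HB := by
  intro B hB
  refine ⟨B, hB, ?_⟩
  intro β θ T r A D P ε N M Z Y hβ hβ2 hθ hθ4 hr hε hNMZ hNc hMc hZc hYc hMi hZi hYi hMD hZP hYε t ht
  set w : ℝ := (θ * r) ^ 2 with hw
  set t0 : ℝ := T - 3 / 4 * r ^ 2 with ht0
  have hr2 : 0 < r ^ 2 := by positivity
  have hw0 : 0 < w := by positivity
  have hw16 : w ≤ r ^ 2 / 16 := by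
    rw [hw, mul_pow]
    nlinarith [mul_le_mul hθ4 hθ4 hθ.le (by norm_num)]
  have htt : t0 < t := ht.1
  have htT : t < T := ht.2
  have hsub : Icc t0 t ⊆ Ioo (T - r ^ 2) T := fun x hx => ⟨by
    have := hx.1
    rw [ht0] at this
    linarith, lt_of_le_of_lt hx.2 htT⟩
  have hsub2 : Ioc t0 t ⊆ Ioo (T - r ^ 2) T := Ioc_subset_Icc_self.trans hsub
  have hNc' := hNc.mono hsub
  have hMc' := hMc.mono hsub
  have hZc' := hZc.mono hsub
  have hYc' := hYc.mono hsub
  have hNI : IntervalIntegrable N volume t0 t := hNc'.intervalIntegrable_of_Icc htt.le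
  have hMI : IntervalIntegrable M volume t0 t := hMc'.intervalIntegrable_of_Icc htt.le
  have hZI : IntervalIntegrable Z volume t0 t := hZc'.intervalIntegrable_of_Icc htt.le
  have hYI : IntervalIntegrable Y volume t0 t := hYc'.intervalIntegrable_of_Icc htt.le
  have hτ : ∀ x ∈ Icc t0 t, w ≤ T + w - x ∧ T + w - x ≤ r ^ 2 := by
    intro x hx
    have h1 := hx.1
    have h2 := hx.2
    rw [ht0] at h1
    constructor <;> linarith
  -- bound of N
  have hN : ∫ x in t0..t, N x ≤ 3 / 4 * r ^ 2 * (A * r) := by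
    have h1 : ∫ x in t0..t, N x ≤ ∫ _ in t0..t, A * r :=
      intervalIntegral.integral_mono_on htt.le hNI intervalIntegrable_const
        fun x hx => (hNMZ x (hsub hx)).2.1
    rw [intervalIntegral.integral_const, smul_eq_mul] at h1
    have h2 : 0 ≤ A * r := by
      have := hNMZ t (hsub ⟨htt.le, le_rfl⟩)
      linarith [this.1, this.2.1]
    have h3 : t - t0 ≤ 3 / 4 * r ^ 2 := by rw [ht0]; linarith
    exact h1.trans (mul_le_mul_of_nonneg_right h3 h2)
  have hA : 0 ≤ A := by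
    have := hNMZ t (hsub ⟨htt.le, le_rfl⟩)
    have h2 : 0 ≤ A * r := by linarith [this.1, this.2.1]
    exact nonneg_of_mul_nonneg_left h2 hr
  have hMle : ∫ x in t0..t, M x ≤ D * r := by
    rw [intervalIntegral.integral_of_le htt.le]
    refine le_trans (setIntegral_mono_set hMi ?_ (Filter.Eventually.of_forall hsub2)) hMD
    exact (ae_restrict_iff' measurableSet_Ioo).2 (Filter.Eventually.of_forall fun x hx => (hNMZ x hx).2.2.1)
  have hZle : ∫ x in t0..t, Z x ≤ P * r ^ 3 := by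
    rw [intervalIntegral.integral_of_le htt.le]
    refine le_trans (setIntegral_mono_set hZi ?_ (Filter.Eventually.of_forall hsub2)) hZP
    exact (ae_restrict_iff' measurableSet_Ioo).2 (Filter.Eventually.of_forall fun x hx => (hNMZ x hx).2.2.2.1)
  have hYle : ∫ x in t0..t, Y x ≤ ε * r ^ 3 := by
    rw [intervalIntegral.integral_of_le htt.le]
    refine le_trans (setIntegral_mono_set hYi ?_ (Filter.Eventually.of_forall hsub2)) hYε
    exact (ae_restrict_iff' measurableSet_Ioo).2 (Filter.Eventually.of_forall fun x hx => (hNMZ x hx).2.2.2.2)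
  set c1 : ℝ := B * (r ^ 2) ^ (-β) with hc1
  set c2 : ℝ := B * ((θ * r)⁻¹) ^ 3 * w ^ (-β) with hc2
  have hc1n : 0 ≤ c1 := by positivity
  have hc2n : 0 ≤ c2 := by positivity
  have hgI1 : IntervalIntegrable (fun x => c1 * (N x / r ^ 3 + M x / r)) volume t0 t :=
    ((hNI.div_const _).add (hMI.div_const _)).const_mul _
  have hgI2 : IntervalIntegrable (fun x => c2 * (ε * Z x + Y x)) volume t0 t :=
    ((hZI.const_mul _).add hYI).const_mul _
  have hfc : ContinuousOn (fun x => (T + w - x) ^ (-β) *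
      (B * ((T + w - x) / r ^ 2) * (N x / r ^ 3 + M x / r)
        + B * (√(T + w - x))⁻¹ ^ 3 * (ε * Z x + Y x))) (Icc t0 t) := by
    have h1 : ContinuousOn (fun x : ℝ => T + w - x) (Icc t0 t) := by fun_prop
    have h2 : ContinuousOn (fun x : ℝ => (T + w - x) ^ (-β)) (Icc t0 t) :=
      h1.rpow_const fun x hx => Or.inl (by linarith [(hτ x hx).1])
    have h3 : ContinuousOn (fun x : ℝ => (√(T + w - x))⁻¹) (Icc t0 t) :=
      (h1.sqrt).inv₀ fun x hx => (Real.sqrt_pos.2 (by linarith [(hτ x hx).1])).ne'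
    exact h2.mul (((continuousOn_const.mul (h1.div_const _)).mul
      ((hNc'.div_const _).add (hMc'.div_const _))).add
      ((continuousOn_const.mul (h3.pow 3)).mul ((continuousOn_const.mul hZc').add hYc')))
  have hfI := hfc.intervalIntegrable_of_Icc (μ := volume) htt.le
  have hmono : ∀ x ∈ Icc t0 t, (T + w - x) ^ (-β) *
      (B * ((T + w - x) / r ^ 2) * (N x / r ^ 3 + M x / r)
        + B * (√(T + w - x))⁻¹ ^ 3 * (ε * Z x + Y x)) ≤
      c1 * (N x / r ^ 3 + M x / r) + c2 * (ε * Z x + Y x) := by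
    intro x hx
    obtain ⟨h1, h2⟩ := hτ x hx
    obtain ⟨h3, _, h4, h5, h5'⟩ := hNMZ x (hsub hx)
    set τ : ℝ := T + w - x with hτd
    have hτ0 : 0 < τ := by linarith
    have e1 : τ ^ (-β) * τ = τ ^ (1 - β) := by
      rw [← Real.rpow_add_one hτ0.ne']
      congr 1
      ring
    have e2 : (r ^ 2) ^ (-β) * r ^ 2 = (r ^ 2) ^ (1 - β) := by
      rw [← Real.rpow_add_one hr2.ne']
      congr 1
      ring
    have h6 : τ ^ (-β) * τ ≤ (r ^ 2) ^ (-β) * r ^ 2 := by
      rw [e1, e2]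
      exact Real.rpow_le_rpow hτ0.le h2 (by linarith)
    have h7 : τ ^ (-β) * (τ / r ^ 2) ≤ (r ^ 2) ^ (-β) := by
      rw [← mul_div_assoc, div_le_iff₀ hr2]
      exact h6
    have h8 : τ ^ (-β) ≤ w ^ (-β) := Real.rpow_le_rpow_of_nonpos hw0 h1 (by linarith)
    have h9 : (√τ)⁻¹ ≤ (θ * r)⁻¹ := by
      have h10 : θ * r ≤ √τ := Real.le_sqrt_of_sq_le h1
      exact inv_anti₀ (by positivity) h10
    have h11 : ((√τ)⁻¹) ^ 3 ≤ ((θ * r)⁻¹) ^ 3 := pow_le_pow_left₀ (by positivity) h9 3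
    have h12 : τ ^ (-β) * ((√τ)⁻¹) ^ 3 ≤ w ^ (-β) * ((θ * r)⁻¹) ^ 3 :=
      mul_le_mul h8 h11 (by positivity) (by positivity)
    have h13 : 0 ≤ N x / r ^ 3 + M x / r := by positivity
    have h14 : 0 ≤ ε * Z x + Y x := by positivity
    calc τ ^ (-β) * (B * (τ / r ^ 2) * (N x / r ^ 3 + M x / r)
        + B * (√τ)⁻¹ ^ 3 * (ε * Z x + Y x)) =
        B * (τ ^ (-β) * (τ / r ^ 2)) * (N x / r ^ 3 + M x / r) +
          B * (τ ^ (-β) * (√τ)⁻¹ ^ 3) * (ε * Z x + Y x) := by ring
      _ ≤ B * (r ^ 2) ^ (-β) * (N x / r ^ 3 + M x / r) +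
          B * (w ^ (-β) * ((θ * r)⁻¹) ^ 3) * (ε * Z x + Y x) := by gcongr
      _ = _ := by rw [hc1, hc2]; ring
  have main := intervalIntegral.integral_mono_on htt.le hfI (hgI1.add hgI2) hmono
  refine main.trans ?_
  rw [intervalIntegral.integral_add hgI1 hgI2, intervalIntegral.integral_const_mul,
    intervalIntegral.integral_const_mul, intervalIntegral.integral_add (hNI.div_const _) (hMI.div_const _),
    intervalIntegral.integral_add (hZI.const_mul _) hYI, intervalIntegral.integral_div,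
    intervalIntegral.integral_div, intervalIntegral.integral_const_mul]
  have k1 : (∫ x in t0..t, N x) / r ^ 3 + (∫ x in t0..t, M x) / r ≤ A + D := by
    have h1 : (∫ x in t0..t, N x) / r ^ 3 ≤ A := by
      rw [div_le_iff₀ (by positivity)]
      have : 3 / 4 * r ^ 2 * (A * r) ≤ A * r ^ 3 := by
        have h2 : 0 ≤ A * r ^ 3 := by positivity
        nlinarith
      linarith
    have h2 : (∫ x in t0..t, M x) / r ≤ D := by
      rw [div_le_iff₀ hr]
      exact hMle
    linarith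
  have k2 : ε * (∫ x in t0..t, Z x) + (∫ x in t0..t, Y x) ≤ ε * ((P + 1) * r ^ 3) := by
    have h4 := mul_le_mul_of_nonneg_left hZle hε
    linarith
  have k3 : c2 * (ε * ((P + 1) * r ^ 3)) = ε * B * (θ ^ 3)⁻¹ * w ^ (-β) * (P + 1) := by
    rw [hc2, mul_inv, mul_pow, inv_pow, inv_pow]
    field_simp
  calc _ ≤ c1 * (A + D) + c2 * (ε * ((P + 1) * r ^ 3)) :=
        add_le_add (mul_le_mul_of_nonneg_left k1 hc1n) (mul_le_mul_of_nonneg_left k2 hc2n)
    _ = _ := by rw [k3, hc1]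

end Pool.Agent.H1EI.HB
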