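import Pool.Agent.H1EI.Stm

set_option autoImplicit false

open MeasureTheory Set Metric intervalIntegral

namespace Pool.Agent.H1EI.INT

theorem t : Pool.Agent.H1EI.INT := by
  intro β T w t₀ A₁ B Ef Gf H hβ hw ht₀ hG hH hE hpos hA hB t ht
  obtain ⟨ht1, ht2⟩ := ht
  have ht0 : t₀ < t := ht₀.trans ht1
  have hsub : Icc t₀ t ⊆ Ico t₀ T := fun x hx => ⟨hx.1, hx.2.trans_lt ht2⟩
  -- the weight
  set W : ℝ → ℝ := fun x => (T + w - x) ^ (-β) with hW
  have hpb : ∀ x ∈ Icc t₀ t, 0 < T + w - x := fun x hx => by have := (hsub hx).2; linarith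
  have hWc : ContinuousOn W (Icc t₀ t) := by
    apply ContinuousOn.rpow_const
    · exact (continuousOn_const.sub continuousOn_id)
    · intro x hx
      left
      exact (hpb x hx).ne'
  have hWpos : ∀ x ∈ Icc t₀ t, 0 < W x := fun x hx => Real.rpow_pos_of_pos (hpb x hx) _
  have hGc : ContinuousOn Gf (Icc t₀ t) := hG.mono hsub
  have hHc : ContinuousOn H (Icc t₀ t) := hH.mono hsub
  have hEc : ContinuousOn Ef (Icc t₀ t) := by
    intro x hx
    obtain ⟨e', he, _⟩ := hE x (hsub hx)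
    exact he.continuousAt.continuousWithinAt
  set g : ℝ → ℝ := fun x => W x * (H x - β * Gf x) with hg
  have hgc : ContinuousOn g (Icc t₀ t) := hWc.mul (hHc.sub (continuousOn_const.mul hGc))
  have hgi : IntervalIntegrable g volume t₀ t := by
    apply ContinuousOn.intervalIntegrable
    rwa [uIcc_of_le ht0.le]
  -- the function
  set F : ℝ → ℝ := fun x => W x * Ef x - ∫ y in t₀..x, g y with hF
  have hFc : ContinuousOn F (Icc t₀ t) := by
    apply (hWc.mul hEc).sub
    have := intervalIntegral.continuousOn_primitive_interval' hgi (left_mem_uIcc)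
    rwa [uIcc_of_le ht0.le] at this
  have hder : ∀ x ∈ Ioo t₀ t, ∃ d : ℝ, HasDerivAt F d x ∧ d ≤ 0 := by
    intro x hx
    have hxI : x ∈ Icc t₀ t := Ioo_subset_Icc_self hx
    obtain ⟨e', he, hle⟩ := hE x (hsub hxI)
    have hp := hpb x hxI
    have h1 : HasDerivAt W ((-1) * (-β) * (T + w - x) ^ (-β - 1)) x := by
      have h2 : HasDerivAt (fun x => T + w - x) (-1) x := by
        simpa using (hasDerivAt_id x).const_sub (T + w)
      exact h2.rpow_const (Or.inl hp.ne')
    have h3 : HasDerivAt (fun x => ∫ y in t₀..x, g y) (g x) x := by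
      apply intervalIntegral.integral_hasDerivAt_right
      · apply hgi.mono_set
        rw [uIcc_of_le hx.1.le, uIcc_of_le ht0.le]
        exact Icc_subset_Icc le_rfl hx.2.le
      · exact (hgc.mono Ioo_subset_Icc_self).stronglyMeasurableAtFilter isOpen_Ioo x hx
      · exact (hgc x hxI).continuousAt (Icc_mem_nhds hx.1 hx.2)
    refine ⟨_, (h1.mul he).sub h3, ?_⟩
    have h4 : (T + w - x) ^ (-β - 1) = W x / (T + w - x) := by
      rw [Real.rpow_sub hp, Real.rpow_one]
    rw [h4]
    have h5 : W x * e' ≤ W x * (-β / (T + w - x) * Ef x - β * Gf x + H x) :=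
      mul_le_mul_of_nonneg_left hle (hWpos x hxI).le
    have h6 : (-1) * (-β) * (W x / (T + w - x)) * Ef x + W x * (-β / (T + w - x) * Ef x - β * Gf x + H x)
        = g x := by
      simp only [hg]
      ring
    linarith
  have hanti : AntitoneOn F (Icc t₀ t) := by
    apply antitoneOn_of_deriv_nonpos (convex_Icc t₀ t) hFc
    · rw [interior_Icc]
      intro x hx
      obtain ⟨d, hd, _⟩ := hder x hx
      exact hd.differentiableAt.differentiableWithinAt
    · rw [interior_Icc]
      intro x hx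
      obtain ⟨d, hd, hd0⟩ := hder x hx
      rw [hd.deriv]
      exact hd0
  have hF1 : F t ≤ F t₀ := hanti (left_mem_Icc.2 ht0.le) (right_mem_Icc.2 ht0.le) ht0.le
  have hF0 : F t₀ = W t₀ * Ef t₀ := by
    simp [hF]
  have hWi : IntervalIntegrable (fun x => W x * H x) volume t₀ t := by
    apply ContinuousOn.intervalIntegrable
    rw [uIcc_of_le ht0.le]
    exact hWc.mul hHc
  have hGi : IntervalIntegrable (fun x => W x * Gf x) volume t₀ t := by
    apply ContinuousOn.intervalIntegrable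
    rw [uIcc_of_le ht0.le]
    exact hWc.mul hGc
  have hsplit : ∫ y in t₀..t, g y = (∫ y in t₀..t, W y * H y) - β * ∫ y in t₀..t, W y * Gf y := by
    rw [← intervalIntegral.integral_const_mul, ← intervalIntegral.integral_sub hWi (hGi.const_mul β)]
    congr 1
    ext y
    simp only [hg]
    ring
  have hBt := hB t ⟨ht0, ht2⟩
  -- lower bound of the integral of `W * Gf`
  have hGi1 : IntervalIntegrable (fun x => W x * Gf x) volume t₀ (T - w) := by
    apply hGi.mono_set
    rw [uIcc_of_le ht₀.le, uIcc_of_le ht0.le]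
    exact Icc_subset_Icc le_rfl ht1.le
  have hGi2 : IntervalIntegrable (fun x => W x * Gf x) volume (T - w) t := by
    apply hGi.mono_set
    rw [uIcc_of_le ht1.le, uIcc_of_le ht0.le]
    exact Icc_subset_Icc ht₀.le le_rfl
  have hadd := intervalIntegral.integral_add_adjacent_intervals hGi1 hGi2
  have hn1 : 0 ≤ ∫ x in t₀..(T - w), W x * Gf x := by
    apply intervalIntegral.integral_nonneg ht₀.le
    intro x hx
    have hxI : x ∈ Icc t₀ t := ⟨hx.1, hx.2.trans ht1.le⟩
    exact mul_nonneg (hWpos x hxI).le (hpos x (hsub hxI)).2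
  have h2w : ∀ x ∈ Icc (T - w) t, (2 * w) ^ (-β) ≤ W x := by
    intro x hx
    have hxI : x ∈ Icc t₀ t := ⟨ht₀.le.trans hx.1, hx.2⟩
    apply Real.rpow_le_rpow_of_nonpos (hpb x hxI) _ (by linarith)
    linarith [hx.1]
  have hGfi : IntervalIntegrable Gf volume (T - w) t := by
    apply ContinuousOn.intervalIntegrable
    rw [uIcc_of_le ht1.le]
    exact hGc.mono (Icc_subset_Icc ht₀.le le_rfl)
  have hn2 : (2 * w) ^ (-β) * ∫ x in (T - w)..t, Gf x ≤ ∫ x in (T - w)..t, W x * Gf x := by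
    rw [← intervalIntegral.integral_const_mul]
    apply intervalIntegral.integral_mono_on ht1.le (hGfi.const_mul _) hGi2
    intro x hx
    have hxI : x ∈ Icc t₀ t := ⟨ht₀.le.trans hx.1, hx.2⟩
    exact mul_le_mul_of_nonneg_right (h2w x hx) (hpos x (hsub hxI)).2
  have hn3 : (2 * w) ^ (-β) * Ef t ≤ W t * Ef t :=
    mul_le_mul_of_nonneg_right (h2w t (right_mem_Icc.2 ht1.le)) (hpos t (hsub (right_mem_Icc.2 ht0.le))).1
  have hW0 : W t₀ * Ef t₀ ≤ W t₀ * A₁ :=
    mul_le_mul_of_nonneg_left hA (hWpos t₀ (left_mem_Icc.2 ht0.le)).le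
  have hkey : (2 * w) ^ (-β) * (Ef t + β * ∫ x in (T - w)..t, Gf x) ≤ W t₀ * A₁ + B := by
    have e1 : F t = W t * Ef t - ∫ y in t₀..t, g y := rfl
    have e2 : β * ((2 * w) ^ (-β) * ∫ x in (T - w)..t, Gf x) ≤ β * ∫ y in t₀..t, W y * Gf y :=
      mul_le_mul_of_nonneg_left (by linarith) hβ.le
    have e3 : (∫ y in t₀..t, W y * H y) ≤ B := hBt
    have e4 : (2 * w) ^ (-β) * (Ef t + β * ∫ x in (T - w)..t, Gf x)
        = (2 * w) ^ (-β) * Ef t + β * ((2 * w) ^ (-β) * ∫ x in (T - w)..t, Gf x) := by ring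
    rw [e4]
    linarith
  have hpw : (0 : ℝ) < (2 * w) ^ β := Real.rpow_pos_of_pos (by linarith) _
  have hinv : (2 * w) ^ β * (2 * w) ^ (-β) = 1 := by
    rw [← Real.rpow_add (by linarith)]
    simp
  calc Ef t + β * ∫ x in (T - w)..t, Gf x
      = (2 * w) ^ β * (2 * w) ^ (-β) * (Ef t + β * ∫ x in (T - w)..t, Gf x) := by rw [hinv, one_mul]
    _ = (2 * w) ^ β * ((2 * w) ^ (-β) * (Ef t + β * ∫ x in (T - w)..t, Gf x)) := by ring
    _ ≤ (2 * w) ^ β * ((T + w - t₀) ^ (-β) * A₁ + B) := mul_le_mul_of_nonneg_left hkey hpw.le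

end Pool.Agent.H1EI.INT
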