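import Pool.Agent.H1EI.Stm

/-! # Stub KB: bounds of the kernel -/

set_option autoImplicit false

open MeasureTheory Set Metric Filter Topology
open scoped ContDiff

namespace Pool.Agent.H1EI.KB

theorem e_bd {z : ℝ} (hz : 0 < z) : (2 * z ^ 2 + 10) * z ^ 3 * Real.exp (-(z ^ 2 / 16)) ≤ 55456 := by
  have hy : 0 ≤ z ^ 2 / 16 := by positivity
  have h1 := Real.pow_div_factorial_le_exp (z ^ 2 / 16) hy 1
  have h2 := Real.pow_div_factorial_le_exp (z ^ 2 / 16) hy 2
  have h3 := Real.pow_div_factorial_le_exp (z ^ 2 / 16) hy 3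
  have f1 : ((Nat.factorial 1 : ℕ) : ℝ) = 1 := by norm_num
  have f2 : ((Nat.factorial 2 : ℕ) : ℝ) = 2 := by norm_num [Nat.factorial]
  have f3 : ((Nat.factorial 3 : ℕ) : ℝ) = 6 := by norm_num [Nat.factorial]
  rw [f1] at h1; rw [f2] at h2; rw [f3] at h3
  have hz1 : z ≤ 1 + z ^ 2 := by nlinarith [sq_nonneg (z - 1)]
  have hz3 : z ^ 3 ≤ (1 + z ^ 2) * z ^ 2 := by
    have : z ^ 3 = z * z ^ 2 := by ring
    rw [this]
    exact mul_le_mul_of_nonneg_right hz1 (by positivity)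
  have h4 : (2 * z ^ 2 + 10) * z ^ 3 ≤ 55456 * Real.exp (z ^ 2 / 16) := by
    calc (2 * z ^ 2 + 10) * z ^ 3 ≤ (2 * z ^ 2 + 10) * ((1 + z ^ 2) * z ^ 2) :=
          mul_le_mul_of_nonneg_left hz3 (by positivity)
      _ = 49152 * ((z ^ 2 / 16) ^ 3 / 6) + 6144 * ((z ^ 2 / 16) ^ 2 / 2) + 160 * ((z ^ 2 / 16) ^ 1 / 1) := by ring
      _ ≤ 49152 * Real.exp (z ^ 2 / 16) + 6144 * Real.exp (z ^ 2 / 16) + 160 * Real.exp (z ^ 2 / 16) := by
          gcongr
      _ = 55456 * Real.exp (z ^ 2 / 16) := by ring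
  rw [Real.exp_neg, ← div_eq_mul_inv, div_le_iff₀ (Real.exp_pos _)]
  exact h4

theorem supp {χ : ℝ → ℝ} (hχ : Cut χ) {x : ℝ} (hx : x ∉ Icc (1 / 4 : ℝ) 1) :
    deriv χ x = 0 ∧ deriv (deriv χ) x = 0 := by
  have key : ∀ (O : Set ℝ) (c : ℝ), IsOpen O → (∀ y ∈ O, χ y = c) → ∀ y ∈ O,
      deriv χ y = 0 ∧ deriv (deriv χ) y = 0 := by
    intro O c hO hc
    have h1 : ∀ y ∈ O, deriv χ y = 0 := by
      intro y hy
      have : χ =ᶠ[𝓝 y] fun _ => c := by
        filter_upwards [hO.mem_nhds hy] with z hz using hc z hz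
      rw [this.deriv_eq, deriv_const]
    intro y hy
    refine ⟨h1 y hy, ?_⟩
    have : deriv χ =ᶠ[𝓝 y] fun _ => (0 : ℝ) := by
      filter_upwards [hO.mem_nhds hy] with z hz using h1 z hz
    rw [this.deriv_eq, deriv_const]
  rcases lt_or_ge x (1 / 4) with h | h
  · exact key (Iio (1 / 4)) 1 isOpen_Iio (fun y hy => hχ.one y (le_of_lt hy)) x h
  · have h1 : 1 < x := by
      by_contra h2
      exact hx ⟨h, not_lt.1 h2⟩
    exact key (Ioi 1) 0 isOpen_Ioi (fun y hy => hχ.zero y (le_of_lt hy)) x h1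

theorem bdd {χ : ℝ → ℝ} (hχ : Cut χ) : ∃ M : ℝ, 0 ≤ M ∧ ∀ x, |deriv χ x| ≤ M ∧ |deriv (deriv χ) x| ≤ M := by
  have hd1 : Continuous (deriv χ) := hχ.smooth.continuous_deriv (by simp)
  have hd2 : Continuous (deriv (deriv χ)) := by
    have : ContDiff ℝ ∞ (deriv χ) := (contDiff_infty_iff_deriv.1 hχ.smooth).2
    exact this.continuous_deriv (by simp)
  obtain ⟨M1, h1⟩ := isCompact_Icc.exists_bound_of_continuousOn (s := Icc (1 / 4 : ℝ) 1) hd1.continuousOn
  obtain ⟨M2, h2⟩ := isCompact_Icc.exists_bound_of_continuousOn (s := Icc (1 / 4 : ℝ) 1) hd2.continuousOn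
  refine ⟨max (max M1 M2) 0, le_max_right _ _, fun x => ?_⟩
  by_cases hx : x ∈ Icc (1 / 4 : ℝ) 1
  · have a1 := h1 x hx
    have a2 := h2 x hx
    rw [Real.norm_eq_abs] at a1 a2
    exact ⟨a1.trans ((le_max_left _ _).trans (le_max_left _ _)),
      a2.trans ((le_max_right _ _).trans (le_max_left _ _))⟩
  · obtain ⟨a1, a2⟩ := supp hχ hx
    rw [a1, a2, abs_zero]
    exact ⟨le_max_right _ _, le_max_right _ _⟩

theorem val {χ : ℝ → ℝ} (hχ : Cut χ) (x : ℝ) : 0 ≤ χ x ∧ χ x ≤ 1 := by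
  constructor
  · rcases le_total x 1 with h | h
    · rw [← hχ.zero 1 le_rfl]; exact hχ.anti h
    · rw [hχ.zero x h]
  · rcases le_total x (1 / 4) with h | h
    · rw [hχ.one x h]
    · rw [← hχ.one (1 / 4) le_rfl]; exact hχ.anti h

theorem t : Pool.Agent.H1EI.KB := by
  intro χ hχ
  obtain ⟨M, hM, hb⟩ := bdd hχ
  refine ⟨55456 * M + 4 * M + 1, by positivity, fun r τ s hr hτ hτr hs => ?_⟩
  set a := √τ with ha
  have ha0 : 0 < a := Real.sqrt_pos.2 hτ
  have haτ : a ^ 2 = τ := Real.sq_sqrt hτ.le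
  set σ := s / r ^ 2 with hσ
  have hP0 : 0 ≤ Ph τ s := by unfold Ph; positivity
  have hP1 : Ph τ s ≤ a⁻¹ := by
    unfold Ph
    rw [← ha]
    have : Real.exp (-s / (4 * τ)) ≤ 1 := by
      rw [Real.exp_le_one_iff]
      exact div_nonpos_of_nonpos_of_nonneg (by linarith) (by positivity)
    calc a⁻¹ * Real.exp (-s / (4 * τ)) ≤ a⁻¹ * 1 := mul_le_mul_of_nonneg_left this (by positivity)
      _ = a⁻¹ := mul_one _
  have hainv : a⁻¹ ^ 3 = a⁻¹ / τ := by
    rw [← haτ]; field_simp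
  -- the part with `et`
  have het : et χ r τ s / (2 * τ) ≤ a⁻¹ ^ 3 := by
    obtain ⟨v0, v1⟩ := val hχ σ
    have h1 : et χ r τ s ≤ a⁻¹ := by
      unfold et
      calc Ph τ s * χ (s / r ^ 2) ≤ Ph τ s * 1 := mul_le_mul_of_nonneg_left v1 hP0
        _ = Ph τ s := mul_one _
        _ ≤ a⁻¹ := hP1
    rw [hainv]
    calc et χ r τ s / (2 * τ) ≤ a⁻¹ / (2 * τ) := by gcongr
      _ ≤ a⁻¹ / τ := by
        apply div_le_div_of_nonneg_left (by positivity) hτ
        linarith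
  by_cases hx : σ ∈ Icc (1 / 4 : ℝ) 1
  · obtain ⟨b1, b2⟩ := hb σ
    have hs1 : r ^ 2 / 4 ≤ s := by
      have := hx.1
      rw [hσ, le_div_iff₀ (by positivity)] at this
      linarith
    have hs2 : s ≤ r ^ 2 := by
      have := hx.2
      rwa [hσ, div_le_one (by positivity)] at this
    set z := r / a with hz
    have hz0 : 0 < z := by positivity
    have hzτ : 1 / τ = z ^ 2 / r ^ 2 := by
      rw [hz, ← haτ]; field_simp
    set h := a⁻¹ * Real.exp (-(z ^ 2 / 16)) with hh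
    have hh0 : 0 ≤ h := by positivity
    have hPh : Ph τ s ≤ h := by
      unfold Ph
      rw [← ha, hh]
      apply mul_le_mul_of_nonneg_left _ (by positivity)
      apply Real.exp_le_exp.2
      rw [hz, div_pow, haτ, neg_div, neg_le_neg_iff, div_div, div_le_div_iff₀ (by positivity) (by positivity)]
      nlinarith
    have hE : (2 * z ^ 2 + 10) * h ≤ 55456 * (τ / r ^ 3) := by
      have h1 := e_bd hz0
      have h2 : (2 * z ^ 2 + 10) * h = ((2 * z ^ 2 + 10) * z ^ 3 * Real.exp (-(z ^ 2 / 16))) * (τ / r ^ 3) := by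
        rw [hh, ← haτ]
        have : z ^ 3 = r ^ 3 / a ^ 3 := by rw [hz, div_pow]
        rw [this]
        field_simp
      rw [h2]
      exact mul_le_mul_of_nonneg_right h1 (by positivity)
    have hmain : h * (M * ((2 * z ^ 2 + 10) / r ^ 2)) ≤ (55456 * M + 4 * M + 1) * (τ / r ^ 2) / r ^ 3 := by
      have h1 : h * (M * ((2 * z ^ 2 + 10) / r ^ 2)) = ((2 * z ^ 2 + 10) * h) * (M / r ^ 2) := by ring
      rw [h1]
      calc ((2 * z ^ 2 + 10) * h) * (M / r ^ 2) ≤ (55456 * (τ / r ^ 3)) * (M / r ^ 2) :=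
            mul_le_mul_of_nonneg_right hE (by positivity)
        _ = (55456 * M) * (τ / r ^ 2) / r ^ 3 := by ring
        _ ≤ (55456 * M + 4 * M + 1) * (τ / r ^ 2) / r ^ 3 := by
          gcongr
          linarith
    have hk2 : k2 χ r τ s ≤ Ph τ s * (2 * M / r ^ 2) := by
      unfold k2
      apply mul_le_mul_of_nonneg_left _ hP0
      apply div_le_div_of_nonneg_right _ (by positivity)
      have := (abs_le.1 b1).1
      rw [← hσ]
      linarith
    refine ⟨?_, ?_, ?_⟩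
    · unfold cc
      rw [abs_mul, abs_of_nonneg hP0]
      refine le_trans ?_ hmain
      refine mul_le_mul hPh ?_ (abs_nonneg _) hh0
      rw [← hσ]
      have t1 : |-2 * s * deriv χ σ / (r ^ 2 * τ)| ≤ 2 * M * (z ^ 2 / r ^ 2) := by
        rw [← hzτ, abs_div, abs_mul, abs_mul, abs_of_nonneg hs, abs_neg, abs_two,
          abs_of_pos (show 0 < r ^ 2 * τ by positivity), div_le_iff₀ (by positivity)]
        calc 2 * s * |deriv χ σ| ≤ 2 * r ^ 2 * M := by gcongr
          _ = 2 * M * (1 / τ) * (r ^ 2 * τ) := by field_simp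
      have t2 : |4 * s * deriv (deriv χ) σ / r ^ 4| ≤ 4 * M / r ^ 2 := by
        rw [abs_div, abs_mul, abs_mul, abs_of_nonneg hs, abs_of_pos (show (0 : ℝ) < 4 by norm_num),
          abs_of_pos (show 0 < r ^ 4 by positivity), div_le_div_iff₀ (by positivity) (by positivity)]
        calc 4 * s * |deriv (deriv χ) σ| * r ^ 2 ≤ 4 * r ^ 2 * M * r ^ 2 := by gcongr
          _ = 4 * M * r ^ 4 := by ring
      have t3 : |6 * deriv χ σ / r ^ 2| ≤ 6 * M / r ^ 2 := by
        rw [abs_div, abs_mul, abs_of_pos (show (0 : ℝ) < 6 by norm_num),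
          abs_of_pos (show 0 < r ^ 2 by positivity)]
        gcongr
      calc |-2 * s * deriv χ σ / (r ^ 2 * τ) + 4 * s * deriv (deriv χ) σ / r ^ 4 + 6 * deriv χ σ / r ^ 2|
          ≤ |-2 * s * deriv χ σ / (r ^ 2 * τ)| + |4 * s * deriv (deriv χ) σ / r ^ 4| + |6 * deriv χ σ / r ^ 2| :=
            abs_add_three _ _ _
        _ ≤ 2 * M * (z ^ 2 / r ^ 2) + 4 * M / r ^ 2 + 6 * M / r ^ 2 := by linarith
        _ = M * ((2 * z ^ 2 + 10) / r ^ 2) := by ring
    · refine le_trans (hk2.trans (mul_le_mul_of_nonneg_right hPh (by positivity))) (le_trans ?_ hmain)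
      apply mul_le_mul_of_nonneg_left _ hh0
      rw [← mul_div_assoc]
      apply div_le_div_of_nonneg_right _ (by positivity)
      nlinarith [mul_nonneg hM (sq_nonneg z)]
    · unfold kk
      have h1 : k2 χ r τ s ≤ 4 * M * a⁻¹ ^ 3 := by
        refine hk2.trans ?_
        rw [hainv]
        calc Ph τ s * (2 * M / r ^ 2) ≤ a⁻¹ * (4 * M / τ) := by
              apply mul_le_mul hP1 _ (by positivity) (by positivity)
              rw [div_le_div_iff₀ (by positivity) hτ]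
              nlinarith
          _ = 4 * M * (a⁻¹ / τ) := by ring
      have h2 : 0 ≤ 55456 * M * a⁻¹ ^ 3 := by positivity
      nlinarith [het]
  · obtain ⟨d1, d2⟩ := supp hχ hx
    have c0 : cc χ r τ s = 0 := by
      unfold cc
      rw [← hσ, d1, d2]; ring
    have k0 : k2 χ r τ s = 0 := by
      unfold k2
      rw [← hσ, d1]; ring
    rw [c0, k0, abs_zero]
    refine ⟨by positivity, by positivity, ?_⟩
    unfold kk
    rw [k0, add_zero]
    refine het.trans ?_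
    have h3 : 0 ≤ a⁻¹ ^ 3 := by positivity
    nlinarith [mul_nonneg hM h3]

end Pool.Agent.H1EI.KB
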