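import Pool.Agent.H1EI.Stm

/-!
Project EI, stub KC (helper54): the weight function, its gradient, and the heat equation.
-/

set_option autoImplicit false

open MeasureTheory Set Metric
open scoped ContDiff
open H459R3.NS Pool.Agent.W268.NS Pool.Agent.Q67.VD
open W221.NS (nsq gsq adv)

namespace Pool.Agent.H1EI.KC

/-- the derivative of `dsq` -/
theorem dsq_deriv (a x : V) :
    HasFDerivAt (fun y => dsq a y)
      (∑ i, (2 * (x i - a i)) • (ContinuousLinearMap.proj i : V →L[ℝ] ℝ)) x := by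
  unfold dsq
  apply HasFDerivAt.fun_sum
  intro i _
  have h1 : HasFDerivAt (fun y : V => y i - a i) (ContinuousLinearMap.proj i : V →L[ℝ] ℝ) x := by
    exact (ContinuousLinearMap.proj (R := ℝ) (φ := fun _ : Fin 3 => ℝ) i).hasFDerivAt.sub_const (a i)
  have h2 := h1.pow 2
  simpa [mul_comm] using h2

theorem dsq_pd (a x : V) (i : Fin 3) :
    (∑ j, (2 * (x j - a j)) • (ContinuousLinearMap.proj j : V →L[ℝ] ℝ)) (Pi.single i 1)
      = 2 * (x i - a i) := by
  rw [ContinuousLinearMap.sum_apply, Finset.sum_eq_single i]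
  · simp
  · intro j _ hj
    simp [Pi.single_eq_of_ne hj]
  · simp

/-- the partial derivatives of a function of `dsq` -/
theorem pd_comp (a x : V) (i : Fin 3) {F : ℝ → ℝ} {F' : ℝ} (hF : HasDerivAt F F' (dsq a x)) :
    HasFDerivAt (fun y => F (dsq a y))
      (F' • (∑ j, (2 * (x j - a j)) • (ContinuousLinearMap.proj j : V →L[ℝ] ℝ))) x ∧
    pd i (fun y => F (dsq a y)) x = F' * (2 * (x i - a i)) := by
  have h := hF.comp_hasFDerivAt x (dsq_deriv a x)
  refine ⟨h, ?_⟩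
  unfold pd
  have h' : HasFDerivAt (fun y => F (dsq a y))
      (F' • (∑ j, (2 * (x j - a j)) • (ContinuousLinearMap.proj j : V →L[ℝ] ℝ))) x := h
  rw [h'.fderiv, ContinuousLinearMap.smul_apply, dsq_pd, smul_eq_mul]

theorem Ph_deriv (τ s : ℝ) : HasDerivAt (fun s => Ph τ s) (-(Ph τ s) / (4 * τ)) s := by
  unfold Ph
  have h1 : HasDerivAt (fun s : ℝ => -s / (4 * τ)) (-1 / (4 * τ)) s :=
    ((hasDerivAt_id s).neg).div_const (4 * τ)
  have h2 := (h1.exp).const_mul ((√τ)⁻¹)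
  refine h2.congr_deriv ?_
  ring

theorem chi_deriv {χ : ℝ → ℝ} (hχ : ContDiff ℝ ∞ χ) (r s : ℝ) :
    HasDerivAt (fun s => χ (s / r ^ 2)) (deriv χ (s / r ^ 2) / r ^ 2) s := by
  have h1 : HasDerivAt χ (deriv χ (s / r ^ 2)) (s / r ^ 2) :=
    (hχ.differentiable (by simp)).differentiableAt.hasDerivAt
  have h2 : HasDerivAt (fun s : ℝ => s / r ^ 2) (1 / r ^ 2) s := (hasDerivAt_id s).div_const _
  have h3 := h1.comp s h2
  refine h3.congr_deriv ?_
  ring

theorem chi'_deriv {χ : ℝ → ℝ} (hχ : ContDiff ℝ ∞ χ) (r s : ℝ) :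
    HasDerivAt (fun s => deriv χ (s / r ^ 2)) (deriv (deriv χ) (s / r ^ 2) / r ^ 2) s := by
  have h0 : ContDiff ℝ ∞ (deriv χ) := by
    exact (contDiff_infty_iff_deriv.1 hχ).2
  exact chi_deriv h0 r s

theorem et_deriv {χ : ℝ → ℝ} (hχ : ContDiff ℝ ∞ χ) (r τ s : ℝ) (hr : 0 < r) (hτ : 0 < τ) :
    HasDerivAt (fun s => et χ r τ s) (-(kk χ r τ s) / 2) s := by
  unfold et
  have h := (Ph_deriv τ s).mul (chi_deriv hχ r s)
  refine h.congr_deriv ?_
  unfold kk k2 et
  field_simp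
  ring

theorem kk_deriv {χ : ℝ → ℝ} (hχ : ContDiff ℝ ∞ χ) (r τ s : ℝ) (hr : 0 < r) (hτ : 0 < τ) :
    HasDerivAt (fun s => kk χ r τ s)
      (Ph τ s * (-χ (s / r ^ 2) / (8 * τ ^ 2) + deriv χ (s / r ^ 2) / (τ * r ^ 2)
        - 2 * deriv (deriv χ) (s / r ^ 2) / r ^ 4)) s := by
  have h1 := (et_deriv hχ r τ s hr hτ).div_const (2 * τ)
  have h2 := (Ph_deriv τ s).mul (((chi'_deriv hχ r s).const_mul (-2)).div_const (r ^ 2))
  have h3 := h1.add h2
  have h4 : (fun s => kk χ r τ s) = ((fun x => et χ r τ x / (2 * τ)) +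
      ((fun s => Ph τ s) * fun x => -2 * deriv χ (x / r ^ 2) / r ^ 2)) := by
    funext s
    simp only [Pi.add_apply, Pi.mul_apply]
    rfl
  rw [h4]
  refine h3.congr_deriv ?_
  unfold kk k2 et
  field_simp
  ring

theorem Ph_tau (τ s : ℝ) (hτ : 0 < τ) :
    HasDerivAt (fun τ => Ph τ s) (Ph τ s * (-1 / (2 * τ) + s / (4 * τ ^ 2))) τ := by
  unfold Ph
  have hs : √τ ≠ 0 := (Real.sqrt_pos.2 hτ).ne'
  have h1 : HasDerivAt (fun τ : ℝ => (√τ)⁻¹) (-(1 / (2 * √τ)) / (√τ) ^ 2) τ :=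
    (Real.hasDerivAt_sqrt hτ.ne').inv hs
  have h2 : HasDerivAt (fun τ : ℝ => -s / (4 * τ)) (s / (4 * τ ^ 2)) τ := by
    have h3 : HasDerivAt (fun τ : ℝ => 4 * τ) (4 * 1) τ := (hasDerivAt_id τ).const_mul 4
    have h4 := (hasDerivAt_const τ (-s)).div h3 (by positivity)
    refine h4.congr_deriv ?_
    field_simp
    ring
  have h5 := h1.mul h2.exp
  refine h5.congr_deriv ?_
  have hsq : √τ ^ 2 = τ := Real.sq_sqrt hτ.le
  have e1 : -(1 / (2 * √τ)) / √τ ^ 2 = (√τ)⁻¹ * (-1 / (2 * τ)) := by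
    rw [hsq]
    field_simp
  rw [e1]
  ring

theorem _root_.Pool.Agent.H1EI.KC.t : Pool.Agent.H1EI.KC := by
  intro χ hc r a hr
  have hχ := hc.smooth
  refine ⟨?_, ?_⟩
  · unfold et Ph
    have hd : ContDiff ℝ ∞ (fun z : ℝ × V => dsq a z.2) := by
      unfold dsq
      fun_prop
    have h1 : ContDiffOn ℝ ∞ (fun z : ℝ × V => (√z.1)⁻¹) (Ioi 0 ×ˢ univ) := by
      apply ContDiffOn.inv
      · apply ContDiffOn.sqrt
        · exact contDiff_fst.contDiffOn
        · rintro z ⟨hz, -⟩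
          exact ne_of_gt hz
      · rintro z ⟨hz, -⟩
        exact (Real.sqrt_pos.2 hz).ne'
    have h2 : ContDiffOn ℝ ∞ (fun z : ℝ × V => Real.exp (-dsq a z.2 / (4 * z.1)))
        (Ioi 0 ×ˢ univ) := by
      apply ContDiffOn.exp
      apply ContDiffOn.div
      · exact hd.neg.contDiffOn
      · exact (contDiff_const.mul contDiff_fst).contDiffOn
      · rintro z ⟨hz, -⟩
        have : (0 : ℝ) < z.1 := hz
        positivity
    have h3 : ContDiff ℝ ∞ (fun z : ℝ × V => χ (dsq a z.2 / r ^ 2)) :=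
      hχ.comp (hd.div_const _)
    exact (h1.mul h2).mul h3.contDiffOn
  · intro τ hτ x
    have hg : ∀ (y : V) (i : Fin 3), pd i (fun y => et χ r τ (dsq a y)) y
        = -(y i - a i) * kk χ r τ (dsq a y) := by
      intro y i
      rw [(pd_comp a y i (et_deriv hχ r τ (dsq a y) hr hτ)).2]
      ring
    refine ⟨hg x, (Ph τ (dsq a x) * (-1 / (2 * τ) + dsq a x / (4 * τ ^ 2)))
      * χ (dsq a x / r ^ 2), (Ph_tau τ (dsq a x) hτ).mul_const _, ?_⟩
    have hl : ∀ i : Fin 3, pd i (pd i (fun y => et χ r τ (dsq a y))) x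
        = -kk χ r τ (dsq a x) - 2 * (x i - a i) ^ 2 *
          (Ph τ (dsq a x) * (-χ (dsq a x / r ^ 2) / (8 * τ ^ 2)
            + deriv χ (dsq a x / r ^ 2) / (τ * r ^ 2)
            - 2 * deriv (deriv χ) (dsq a x / r ^ 2) / r ^ 4)) := by
      intro i
      have e : pd i (fun y => et χ r τ (dsq a y))
          = fun y => -(y i - a i) * kk χ r τ (dsq a y) := by
        funext y
        exact hg y i
      rw [e]
      have h1 : HasFDerivAt (fun y : V => -(y i - a i))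
          (-(ContinuousLinearMap.proj i : V →L[ℝ] ℝ)) x :=
        ((ContinuousLinearMap.proj (R := ℝ) (φ := fun _ : Fin 3 => ℝ) i).hasFDerivAt.sub_const
          (a i)).neg
      have h2 := (pd_comp a x i (kk_deriv hχ r τ (dsq a x) hr hτ)).1
      have h3 := (h1.mul h2).fderiv
      have h3' := congrArg (fun L : V →L[ℝ] ℝ => L (Pi.single i 1)) h3
      refine Eq.trans h3' ?_
      simp only [ContinuousLinearMap.add_apply, ContinuousLinearMap.smul_apply, smul_eq_mul,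
        ContinuousLinearMap.neg_apply, ContinuousLinearMap.proj_apply, Pi.single_eq_same]
      rw [dsq_pd]
      ring
    have hs : ∑ i, (x i - a i) ^ 2 = dsq a x := rfl
    unfold lap
    rw [Finset.sum_congr rfl (fun i _ => hl i), Finset.sum_sub_distrib, ← Finset.sum_mul,
      ← Finset.mul_sum, hs]
    simp only [Finset.sum_const, Finset.card_univ, Fintype.card_fin, nsmul_eq_mul]
    unfold kk k2 et cc
    field_simp
    ring

end Pool.Agent.H1EI.KC
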