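import Pool.Agent.H1EI.Stm

/-!
Project EI: signs and supports of the weight functions.
-/

set_option autoImplicit false

open MeasureTheory Set Metric
open scoped ContDiff

namespace Pool.Agent.H1EI.KS

open Pool.Agent.H1EI

theorem deriv_zero {f : ℝ → ℝ} (hf : Differentiable ℝ f) (h : ∀ s, 1 ≤ s → f s = 0) :
    ∀ s, 1 ≤ s → deriv f s = 0 := by
  intro s hs
  have h1 : HasDerivWithinAt f (deriv f s) (Ici s) s := (hf s).hasDerivAt.hasDerivWithinAt
  have h2 : HasDerivWithinAt f 0 (Ici s) s := by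
    refine (hasDerivWithinAt_const s (Ici s) (0 : ℝ)).congr ?_ ?_
    · intro y hy
      exact h y (hs.trans hy)
    · exact h s hs
  exact (uniqueDiffWithinAt_Ici s).eq_deriv _ h1 h2

theorem cut_nonneg {χ : ℝ → ℝ} (h : Cut χ) (s : ℝ) : 0 ≤ χ s := by
  rw [← h.zero (max s 1) (le_max_right _ _)]
  exact h.anti (le_max_left _ _)

theorem cut_le_one {χ : ℝ → ℝ} (h : Cut χ) (s : ℝ) : χ s ≤ 1 := by
  rw [← h.one (min s (1 / 4)) (min_le_right _ _)]
  exact h.anti (min_le_left _ _)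

theorem Ph_nonneg (τ s : ℝ) : 0 ≤ Ph τ s := by
  unfold Ph
  positivity

theorem t : Pool.Agent.H1EI.KS := by
  intro χ hχ r τ hr hτ
  have hd : Differentiable ℝ χ := hχ.smooth.differentiable (by simp)
  have hs1 : ContDiff ℝ ∞ (deriv χ) := (contDiff_infty_iff_deriv.1 hχ.smooth).2
  have hd1 : Differentiable ℝ (deriv χ) := hs1.differentiable (by simp)
  have z1 := deriv_zero hd hχ.zero
  have z2 := deriv_zero hd1 z1
  have hr2 : 0 < r ^ 2 := by positivity
  have hone : ∀ s, r ^ 2 ≤ s → 1 ≤ s / r ^ 2 := by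
    intro s hs
    rwa [le_div_iff₀ hr2, one_mul]
  have hk2 : ∀ s, 0 ≤ k2 χ r τ s := by
    intro s
    unfold k2
    have h1 : deriv χ (s / r ^ 2) ≤ 0 := hχ.anti.deriv_nonpos
    have h2 := Ph_nonneg τ s
    refine mul_nonneg h2 (div_nonneg ?_ hr2.le)
    linarith
  have het : ∀ s, 0 ≤ et χ r τ s := by
    intro s
    unfold et
    exact mul_nonneg (Ph_nonneg _ _) (cut_nonneg hχ _)
  have hz : ∀ s, r ^ 2 ≤ s → et χ r τ s = 0 ∧ k2 χ r τ s = 0 ∧ cc χ r τ s = 0 := by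
    intro s hs
    have h1 := hone s hs
    unfold et k2 cc
    rw [hχ.zero _ h1, z1 _ h1, z2 _ h1]
    refine ⟨by ring, by ring, by ring⟩
  have hPh : ContDiff ℝ ∞ (fun s => Ph τ s) := by
    unfold Ph
    fun_prop
  have hdiv : ContDiff ℝ ∞ (fun s : ℝ => s / r ^ 2) := by fun_prop
  refine ⟨⟨?_, ?_, ?_⟩, hk2, ?_, hz⟩
  · have h1 : ContDiff ℝ ∞ (fun s => et χ r τ s) := by
      unfold et
      exact hPh.mul (hχ.smooth.comp hdiv)
    have h2 : ContDiff ℝ ∞ (fun s => k2 χ r τ s) := by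
      unfold k2
      exact hPh.mul ((contDiff_const.mul (hs1.comp hdiv)).div_const _)
    exact (h1.div_const _).add h2
  · intro s
    unfold kk
    exact add_nonneg (div_nonneg (het s) (by positivity)) (hk2 s)
  · intro s hs
    obtain ⟨h1, h2, -⟩ := hz s hs
    unfold kk
    rw [h1, h2]
    ring
  · intro s hs
    refine ⟨het s, ?_⟩
    unfold et
    have h1 : Ph τ s ≤ (√τ)⁻¹ := by
      unfold Ph
      have h2 : Real.exp (-s / (4 * τ)) ≤ 1 := by
        apply Real.exp_le_one_iff.2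
        apply div_nonpos_of_nonpos_of_nonneg
        · linarith
        · positivity
      have h3 : 0 ≤ (√τ)⁻¹ := by positivity
      calc (√τ)⁻¹ * Real.exp (-s / (4 * τ)) ≤ (√τ)⁻¹ * 1 := mul_le_mul_of_nonneg_left h2 h3
        _ = (√τ)⁻¹ := mul_one _
    calc Ph τ s * χ (s / r ^ 2) ≤ Ph τ s * 1 :=
          mul_le_mul_of_nonneg_left (cut_le_one hχ _) (Ph_nonneg _ _)
      _ = Ph τ s := mul_one _
      _ ≤ (√τ)⁻¹ := h1

end Pool.Agent.H1EI.KS
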