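import Pool.Agent.H1EI.Stm
import Pool.Agent.Q2.CL.LEL

/-!
Project EI, stub LAPP (helper60): the equation of the pressure (adapted from `Pool.Agent.Q2.CL.bernA`).
-/

set_option autoImplicit false

open MeasureTheory Set Metric Filter Topology
open scoped ContDiff
open H459R3.NS Pool.Agent.W268.NS Pool.Agent.Q67.VD Pool.Agent.W583.MD

namespace Pool.Agent.H1EI.LAPP

open Pool.Agent.Q85.CC Pool.Agent.Q85.CL Pool.Agent.Q2.CL

theorem t : Pool.Agent.H1EI.LAPP := by
  intro T O u p hI t ht
  have hvi : ∀ i, ContDiffOn ℝ ∞ (fun z : ℝ × V => u z.1 z.2 i) (Ioo 0 T ×ˢ univ) :=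
    fun i => contDiffOn_pi.1 hI.smooth_u i
  have hq : ContDiff ℝ ∞ (p t) := slice hI.smooth_p ht
  have hw : SM (u t) := fun i => slice (F := fun t y => u t y i) (hvi i) ht
  have hGG : ∀ i, GG (u t) i = fun y => (0 : ℝ) - cv (u t) i y := by
    intro i
    funext y
    unfold GG cv
    ring
  refine ⟨fun i => ?_, fun x hx => ?_⟩
  · rw [hGG i]
    exact contDiff_const.sub (sm_cv hw i)
  have hdt : ∀ i, ContDiff ℝ ∞ (fun y => deriv (fun s => u s y i) t) := fun i =>
    sm_dtI (f := fun t y => u t y i) (hvi i) ht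
  have hdd : ∑ i, pd i (fun y => deriv (fun s => u s y i) t) x = 0 := by
    have h2 : ∀ i, HasDerivAt (fun s => pd i (fun y => u s y i) x)
        (pd i (fun y => deriv (fun s => u s y i) t) x) t := fun i =>
      dt_pdI (f := fun s y => u s y i) (hvi i) ht i x
    have h3 : HasDerivAt (fun s => ∑ i, pd i (fun y => u s y i) x)
        (∑ i, pd i (fun y => deriv (fun s => u s y i) t) x) t :=
      HasDerivAt.fun_sum fun i _ => h2 i
    rw [← h3.deriv]
    have h4 : (fun s => ∑ i, pd i (fun y => u s y i) x) =ᶠ[𝓝 t] fun _ => 0 := by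
      filter_upwards [Ioo_mem_nhds ht.1 ht.2] with s hs
      exact hI.divfree s hs x hx
    rw [h4.deriv_eq]
    exact deriv_const t 0
  have hP : ∀ i, pd i (pd i (p t)) x = pd i (lap (fun y => u t y i)) x
      - pd i (fun y => deriv (fun s => u s y i) t) x - pd i (cv (u t) i) x := by
    intro i
    have a1 : pd i (p t) =ᶠ[𝓝 x] fun y => (lap (fun y => u t y i) y -
        deriv (fun s => u s y i) t) - cv (u t) i y := by
      filter_upwards [hI.openO.mem_nhds hx] with y hy
      have m := hI.momentum t ht y hy i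
      unfold lap cv
      linarith
    rw [pd_congr a1 i, pd_sub_s ((sm_lap (hw i)).sub (hdt i)) (sm_cv hw i),
      pd_sub_s (sm_lap (hw i)) (hdt i)]
  have hlp : lap (p t) x = -∑ i, pd i (cv (u t) i) x := by
    have e : lap (p t) x = ∑ i, pd i (pd i (p t)) x := rfl
    rw [e, Finset.sum_congr rfl fun i _ => hP i, Finset.sum_sub_distrib, Finset.sum_sub_distrib,
      div_lapS hw hI.openO (hI.divfree t ht) hx, hdd]
    ring
  have hG : ∀ i, pd i (GG (u t) i) x = -pd i (cv (u t) i) x := by
    intro i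
    rw [hGG i, pd_sub_s contDiff_const (sm_cv hw i), pd_zero, zero_sub]
  rw [hlp, Finset.sum_congr rfl fun i _ => hG i, Finset.sum_neg_distrib]

end Pool.Agent.H1EI.LAPP
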