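import Pool.Agent.H1EI.Stm

/-!
Project EI, stub ONE: decay of energy and dissipation. By helper92.
-/

set_option autoImplicit false

open MeasureTheory Set Metric Filter Topology
open scoped ContDiff
open H459R3.NS Pool.Agent.W268.NS Pool.Agent.Q67.VD
open W221.NS (nsq gsq adv)
open Pool.Agent.Q85.CL (SM DFO LEq LSl DSl WSl Sing Blow StmDecL StmDom)

namespace Pool.Agent.H1EI.ONE

open Pool.Agent.H1EI

/-! ### Joint continuity -/

theorem pd_jc {T : ℝ} {F : ℝ → V → ℝ}
    (hF : ContDiffOn ℝ ∞ (fun z : ℝ × V => F z.1 z.2) (Ioo 0 T ×ˢ univ)) (j : Fin 3) :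
    ContinuousOn (fun z : ℝ × V => pd j (F z.1) z.2) (Ioo 0 T ×ˢ univ) := by
  have ho : IsOpen (Ioo 0 T ×ˢ (univ : Set V)) := isOpen_Ioo.prod isOpen_univ
  have h1 := hF.continuousOn_fderiv_of_isOpen ho (by norm_num)
  have h2 : ContinuousOn (fun z : ℝ × V => fderiv ℝ (fun z : ℝ × V => F z.1 z.2) z
      ((0 : ℝ), (Pi.single j 1 : V))) (Ioo 0 T ×ˢ univ) := h1.clm_apply continuousOn_const
  refine h2.congr fun z hz => ?_
  have h3 : HasFDerivAt (fun z : ℝ × V => F z.1 z.2)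
      (fderiv ℝ (fun z : ℝ × V => F z.1 z.2) z) z :=
    ((hF.contDiffAt (ho.mem_nhds hz)).differentiableAt (by norm_num)).hasFDerivAt
  have h4 : HasFDerivAt (fun y : V => F z.1 y)
      ((fderiv ℝ (fun z : ℝ × V => F z.1 z.2) z).comp (ContinuousLinearMap.inr ℝ ℝ V)) z.2 :=
    HasFDerivAt.comp (g := fun z : ℝ × V => F z.1 z.2) (f := fun y : V => (z.1, y)) z.2 h3
      (hasFDerivAt_prodMk_right z.1 z.2)
  unfold pd
  rw [h4.fderiv]
  simp

section sol

variable {T : ℝ} {O : Set V} {u : ℝ → V → V} {p : ℝ → V → ℝ}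

theorem ui (h : LEq T O u p) (i : Fin 3) :
    ContDiffOn ℝ ∞ (fun z : ℝ × V => u z.1 z.2 i) (Ioo 0 T ×ˢ univ) :=
  contDiffOn_pi.1 h.smooth_u i

theorem nsq_jc (h : LEq T O u p) :
    ContinuousOn (fun z : ℝ × V => nsq (u z.1) z.2) (Ioo 0 T ×ˢ univ) := by
  unfold W221.NS.nsq
  exact continuousOn_finsetSum _ fun i _ => (ui h i).continuousOn.pow 2

theorem gsq_jc (h : LEq T O u p) :
    ContinuousOn (fun z : ℝ × V => gsq (u z.1) z.2) (Ioo 0 T ×ˢ univ) := by
  unfold W221.NS.gsq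
  exact continuousOn_finsetSum _ fun i _ => continuousOn_finsetSum _ fun j _ =>
    (pd_jc (F := fun t y => u t y i) (ui h i) j).pow 2

theorem slice_c {f : ℝ → V → ℝ} (hf : ContinuousOn (fun z : ℝ × V => f z.1 z.2) (Ioo 0 T ×ˢ univ))
    {t : ℝ} (ht : t ∈ Ioo 0 T) : Continuous (f t) := by
  rw [← continuousOn_univ]
  exact hf.comp (f := fun x : V => (t, x)) (by fun_prop) fun x _ => ⟨ht, mem_univ _⟩

theorem osc_c (hCONT : CONT) (h : LEq T O u p) (a : V) (r : ℝ) :
    ContinuousOn (fun t => osc a r (p t)) (Ioo 0 T) := by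
  have hp : ContinuousOn (fun z : ℝ × V => p z.1 z.2) (Ioo 0 T ×ˢ univ) := h.smooth_p.continuousOn
  have h1 := hCONT T p (closedBall a r) (isCompact_closedBall a r) hp
  have h2 : ContinuousOn (fun t => ⨍ y in closedBall a r, p t y) (Ioo 0 T) := by
    have e : (fun t => ⨍ y in closedBall a r, p t y) = fun t =>
        (volume.real (closedBall a r))⁻¹ * ∫ y in closedBall a r, p t y := by
      funext t
      rw [setAverage_eq, smul_eq_mul]
    rw [e]
    exact continuousOn_const.mul h1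
  unfold osc
  refine hCONT T (fun t x => |p t x - ⨍ y in closedBall a r, p t y|) (closedBall a r)
    (isCompact_closedBall a r) ?_
  refine (hp.sub ?_).abs
  exact h2.comp continuousOn_fst fun z hz => hz.1

end sol

/-! ### The kernel -/

theorem nsq_nn (v : V → V) (x : V) : 0 ≤ nsq v x := by
  unfold W221.NS.nsq
  exact Finset.sum_nonneg fun i _ => sq_nonneg _

theorem gsq_nn (v : V → V) (x : V) : 0 ≤ gsq v x := by
  unfold W221.NS.gsq
  exact Finset.sum_nonneg fun i _ => Finset.sum_nonneg fun j _ => sq_nonneg _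

theorem dsq_nn (a x : V) : 0 ≤ dsq a x := Finset.sum_nonneg fun i _ => sq_nonneg _

theorem dsq_c (a : V) : Continuous (dsq a) := by
  unfold dsq
  fun_prop

theorem dsq_out {a x : V} {r : ℝ} (hr : 0 < r) (hx : x ∉ closedBall a r) : r ^ 2 ≤ dsq a x := by
  rw [mem_closedBall, dist_pi_le_iff hr.le] at hx
  push Not at hx
  obtain ⟨i, hi⟩ := hx
  rw [Real.dist_eq] at hi
  have h1 : r ^ 2 ≤ (x i - a i) ^ 2 := by
    rw [← sq_abs (x i - a i)]
    exact pow_le_pow_left₀ hr.le hi.le 2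
  exact h1.trans (Finset.single_le_sum (f := fun i => (x i - a i) ^ 2)
    (fun i _ => sq_nonneg _) (Finset.mem_univ i))

theorem dsq_in {a x : V} {r : ℝ} (hr : 0 ≤ r) (hx : x ∈ closedBall a r) :
    dsq a x ≤ 3 * r ^ 2 := by
  rw [mem_closedBall, dist_pi_le_iff hr] at hx
  have h1 : ∀ i, (x i - a i) ^ 2 ≤ r ^ 2 := by
    intro i
    have := hx i
    rw [Real.dist_eq] at this
    rw [← sq_abs (x i - a i)]
    exact pow_le_pow_left₀ (abs_nonneg _) this 2
  unfold dsq
  rw [Fin.sum_univ_three]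
  linarith [h1 0, h1 1, h1 2]

theorem et_c {χ : ℝ → ℝ} (hχ : Cut χ) (r τ : ℝ) (a : V) :
    Continuous fun x => et χ r τ (dsq a x) := by
  unfold et Ph
  have h1 := dsq_c a
  exact (continuous_const.mul (Real.continuous_exp.comp (h1.neg.div_const _))).mul
    (hχ.smooth.continuous.comp (h1.div_const _))

theorem et_jc {χ : ℝ → ℝ} (hχ : Cut χ) (r w : ℝ) (hw : 0 < w) (T : ℝ) (a : V) :
    ContinuousOn (fun z : ℝ × V => et χ r (T + w - z.1) (dsq a z.2)) (Ioo 0 T ×ˢ univ) := by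
  have h1 : Continuous fun z : ℝ × V => dsq a z.2 := (dsq_c a).comp continuous_snd
  have h2 : Continuous fun z : ℝ × V => T + w - z.1 := by fun_prop
  have hpos : ∀ z ∈ (Ioo 0 T ×ˢ (univ : Set V)), 0 < T + w - z.1 := by
    intro z hz
    have := hz.1.2
    linarith
  unfold et Ph
  refine ContinuousOn.mul (ContinuousOn.mul ?_ ?_) ?_
  · refine ContinuousOn.inv₀ (h2.sqrt.continuousOn) fun z hz => ?_
    exact (Real.sqrt_pos.2 (hpos z hz)).ne'
  · refine Real.continuous_exp.comp_continuousOn ?_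
    refine ContinuousOn.div h1.neg.continuousOn (by fun_prop) fun z hz => ?_
    have := hpos z hz
    positivity
  · exact (hχ.smooth.continuous.comp (h1.div_const _)).continuousOn

/-- the lower bound of the weight -/
theorem et_low {χ : ℝ → ℝ} (hχ : Cut χ) {r θ τ : ℝ} (hr : 0 < r) (hθ : 0 < θ) (hθ4 : θ ≤ 1 / 4)
    (h1 : (θ * r) ^ 2 < τ) (h2 : τ < 2 * (θ * r) ^ 2) {a x : V} (hx : x ∈ closedBall a (θ * r)) :
    Real.exp (-1) / 2 / (θ * r) ≤ et χ r τ (dsq a x) := by
  have hθr : 0 < θ * r := mul_pos hθ hr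
  have hτ : 0 < τ := lt_trans (by positivity) h1
  have hs := dsq_in hθr.le hx
  have hs0 := dsq_nn a x
  have hχ1 : χ (dsq a x / r ^ 2) = 1 := by
    apply hχ.one
    rw [div_le_iff₀ (by positivity)]
    have : θ ^ 2 ≤ (1 / 4) ^ 2 := pow_le_pow_left₀ hθ.le hθ4 2
    nlinarith [sq_nonneg r]
  unfold et Ph
  rw [hχ1, mul_one]
  have h3 : Real.exp (-1) ≤ Real.exp (-dsq a x / (4 * τ)) := by
    apply Real.exp_le_exp.2
    rw [le_div_iff₀ (by positivity)]
    nlinarith
  have h4 : √τ ≤ 2 * (θ * r) := by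
    apply Real.sqrt_le_iff.2
    refine ⟨by positivity, ?_⟩
    nlinarith [sq_nonneg (θ * r)]
  have h5 : (2 * (θ * r))⁻¹ ≤ (√τ)⁻¹ := inv_anti₀ (Real.sqrt_pos.2 hτ) h4
  calc Real.exp (-1) / 2 / (θ * r) = (2 * (θ * r))⁻¹ * Real.exp (-1) := by field_simp
    _ ≤ (√τ)⁻¹ * Real.exp (-dsq a x / (4 * τ)) :=
        mul_le_mul h5 h3 (Real.exp_pos _).le (by positivity)

section wint

variable {a : V} {r : ℝ} {v e : V → ℝ}

theorem wi (hv : Continuous v) (he : Continuous e) (hz : ∀ x ∉ closedBall a r, e x = 0) :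
    Integrable fun x => v x * e x :=
  (hv.mul he).integrable_of_hasCompactSupport
    (HasCompactSupport.intro (isCompact_closedBall a r) fun x hx => by
      show v x * e x = 0
      rw [hz x hx, mul_zero])

theorem w_eq (hz : ∀ x ∉ closedBall a r, e x = 0) :
    ∫ x, v x * e x = ∫ x in closedBall a r, v x * e x :=
  (setIntegral_eq_integral_of_forall_compl_eq_zero fun x hx => by rw [hz x hx, mul_zero]).symm

theorem w_up (hv : Continuous v) (hv0 : ∀ x, 0 ≤ v x) (he : Continuous e)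
    (hz : ∀ x ∉ closedBall a r, e x = 0) {m : ℝ} (hm : ∀ x, e x ≤ m) :
    ∫ x, v x * e x ≤ m * ∫ x in closedBall a r, v x := by
  rw [w_eq hz, ← integral_const_mul]
  refine setIntegral_mono ((hv.mul he).continuousOn.integrableOn_compact (isCompact_closedBall a r))
    ((hv.continuousOn.integrableOn_compact (isCompact_closedBall a r)).const_mul m) fun x => ?_
  show v x * e x ≤ m * v x
  rw [mul_comm m]
  exact mul_le_mul_of_nonneg_left (hm x) (hv0 x)

theorem w_low (hv : Continuous v) (hv0 : ∀ x, 0 ≤ v x) (he : Continuous e) (he0 : ∀ x, 0 ≤ e x)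
    (hz : ∀ x ∉ closedBall a r, e x = 0) {ρ m : ℝ} (hm : ∀ x ∈ closedBall a ρ, m ≤ e x) :
    m * ∫ x in closedBall a ρ, v x ≤ ∫ x, v x * e x := by
  have h1 : ∫ x in closedBall a ρ, v x * e x ≤ ∫ x, v x * e x :=
    setIntegral_le_integral (wi hv he hz)
      (Eventually.of_forall fun x => mul_nonneg (hv0 x) (he0 x))
  refine le_trans ?_ h1
  rw [← integral_const_mul]
  refine setIntegral_mono_on ((hv.continuousOn.integrableOn_compact
    (isCompact_closedBall a ρ)).const_mul m)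
    ((hv.mul he).continuousOn.integrableOn_compact (isCompact_closedBall a ρ))
    isClosed_closedBall.measurableSet fun x hx => ?_
  show m * v x ≤ v x * e x
  rw [mul_comm m]
  exact mul_le_mul_of_nonneg_left (hm x hx) (hv0 x)

end wint

/-- the limit of the integrals -/
theorem lim_int {g : ℝ → ℝ} {s T X : ℝ} (hs : s < T) (hg : IntegrableOn g (Ioo s T))
    (h : ∀ t ∈ Ioo s T, ∫ x in s..t, g x ≤ X) : ∫ x in Ioo s T, g x ≤ X := by
  have hg' : IntegrableOn g (uIcc s T) := by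
    rw [uIcc_of_le hs.le]
    rwa [integrableOn_Icc_iff_integrableOn_Ioo]
  have hc := intervalIntegral.continuousOn_primitive_interval (μ := volume) hg'
  rw [uIcc_of_le hs.le] at hc
  have h1 : Tendsto (fun t => ∫ x in s..t, g x) (𝓝[Ioo s T] T) (𝓝 (∫ x in s..T, g x)) :=
    (hc T (right_mem_Icc.2 hs.le)).mono_left (nhdsWithin_mono _ Ioo_subset_Icc_self)
  have : NeBot (𝓝[Ioo s T] T) := right_nhdsWithin_Ioo_neBot hs
  have h2 := le_of_tendsto h1 (eventually_nhdsWithin_of_forall h)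
  rwa [intervalIntegral.integral_of_le hs.le, integral_Ioc_eq_integral_Ioo] at h2

theorem t (hCHI : CHI) (hKS : KS) (hCONT : CONT) (hINT : INT) (hHB : HB) (hDI : DI) :
    Pool.Agent.H1EI.ONE := by
  intro δ hδ hδ1
  obtain ⟨χ, hχ⟩ := hCHI
  obtain ⟨B, hB, hdi⟩ := hDI χ hχ
  obtain ⟨C, hC, hhb⟩ := hHB B hB
  obtain ⟨β, hβ⟩ : ∃ β, β = δ / 2 := ⟨_, rfl⟩
  have hβ0 : 0 < β := by rw [hβ]; linarith
  have hβ1 : β ≤ 1 / 2 := by rw [hβ]; linarith
  obtain ⟨κ, hκ⟩ : ∃ κ, κ = Real.exp (-1) / 2 := ⟨_, rfl⟩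
  have hκ0 : 0 < κ := by rw [hκ]; positivity
  refine ⟨(8 + 2 * C) / (β * κ), by positivity, ?_⟩
  intro θ hθ hθ4
  refine ⟨2 * C * (θ ^ 3)⁻¹ / (β * κ), by positivity, ?_⟩
  intro T E O u p hL ε r A D P a Y hε hr hrO hrT hNX hSe hSp
  have hLE : LEq T O u p := hL.toLEq
  have hθr : 0 < θ * r := mul_pos hθ hr
  obtain ⟨w, hw⟩ : ∃ w, w = (θ * r) ^ 2 := ⟨_, rfl⟩
  have hw0 : 0 < w := by rw [hw]; positivity
  have hwr : w ≤ r ^ 2 / 16 := by
    rw [hw, mul_pow]
    have : θ ^ 2 ≤ (1 / 4) ^ 2 := pow_le_pow_left₀ hθ.le hθ4 2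
    nlinarith [sq_nonneg r]
  have hr2 : 0 < r ^ 2 := by positivity
  obtain ⟨t₀, ht₀⟩ : ∃ t₀, t₀ = T - 3 / 4 * r ^ 2 := ⟨_, rfl⟩
  have hsub : Ioo (T - r ^ 2) T ⊆ Ioo 0 T := fun t ht => ⟨by linarith [ht.1], ht.2⟩
  have hsub0 : Ico t₀ T ⊆ Ioo (T - r ^ 2) T := fun t ht => ⟨by
    have := ht.1
    rw [ht₀] at this
    linarith, ht.2⟩
  -- continuity
  have cnsq := nsq_jc hLE
  have cgsq := gsq_jc hLE
  have sN : ∀ t ∈ Ioo 0 T, Continuous (nsq (u t)) := fun t ht =>
    slice_c (f := fun t x => nsq (u t) x) cnsq ht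
  have sG : ∀ t ∈ Ioo 0 T, Continuous (gsq (u t)) := fun t ht =>
    slice_c (f := fun t x => gsq (u t) x) cgsq ht
  have cN : ContinuousOn (fun t => ∫ x in closedBall a r, nsq (u t) x) (Ioo 0 T) :=
    hCONT T (fun t x => nsq (u t) x) (closedBall a r) (isCompact_closedBall a r) cnsq
  have cM : ContinuousOn (fun t => ∫ x in closedBall a r, gsq (u t) x) (Ioo 0 T) :=
    hCONT T (fun t x => gsq (u t) x) (closedBall a r) (isCompact_closedBall a r) cgsq
  have cZ := osc_c hCONT hLE a r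
  have cg' : ContinuousOn (fun t => ∫ x in closedBall a (θ * r), gsq (u t) x) (Ioo 0 T) :=
    hCONT T (fun t x => gsq (u t) x) (closedBall a (θ * r)) (isCompact_closedBall a (θ * r)) cgsq
  have cet := et_jc hχ r w hw0 T a
  have zout : ∀ τ : ℝ, 0 < τ → ∀ x ∉ closedBall a r, et χ r τ (dsq a x) = 0 := fun τ hτ x hx =>
    ((hKS χ hχ r τ hr hτ).2.2.2 _ (dsq_out hr hx)).1
  have cGf : ContinuousOn (fun t => ∫ x, gsq (u t) x * et χ r (T + w - t) (dsq a x)) (Ioo 0 T) := by
    have h1 := hCONT T (fun t x => gsq (u t) x * et χ r (T + w - t) (dsq a x)) (closedBall a r)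
      (isCompact_closedBall a r) (cgsq.mul cet)
    refine h1.congr fun t ht => ?_
    exact w_eq (zout _ (by linarith [ht.2]))
  -- signs
  have nN : ∀ t, 0 ≤ ∫ x in closedBall a r, nsq (u t) x := fun t =>
    setIntegral_nonneg isClosed_closedBall.measurableSet fun x _ => nsq_nn _ _
  have nM : ∀ t, 0 ≤ ∫ x in closedBall a r, gsq (u t) x := fun t =>
    setIntegral_nonneg isClosed_closedBall.measurableSet fun x _ => gsq_nn _ _
  have nZ : ∀ t, 0 ≤ osc a r (p t) := fun t =>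
    setIntegral_nonneg isClosed_closedBall.measurableSet fun x _ => abs_nonneg _
  have nEf : ∀ t ∈ Ioo 0 T, 0 ≤ ∫ x, nsq (u t) x * et χ r (T + w - t) (dsq a x) := by
    intro t ht
    refine integral_nonneg fun x => mul_nonneg (nsq_nn _ _) ?_
    exact ((hKS χ hχ r (T + w - t) hr (by linarith [ht.2])).2.2.1 _ (dsq_nn a x)).1
  have nGf : ∀ t ∈ Ioo 0 T, 0 ≤ ∫ x, gsq (u t) x * et χ r (T + w - t) (dsq a x) := by
    intro t ht
    refine integral_nonneg fun x => mul_nonneg (gsq_nn _ _) ?_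
    exact ((hKS χ hχ r (T + w - t) hr (by linarith [ht.2])).2.2.1 _ (dsq_nn a x)).1
  have hT0 : 0 < t₀ := by rw [ht₀]; linarith
  have ht₀T : t₀ < T := by rw [ht₀]; linarith
  have htm : t₀ ∈ Ioo (T - r ^ 2) T := hsub0 ⟨le_rfl, ht₀T⟩
  have hA : 0 ≤ A := by
    have h1 := (nN t₀).trans (hSe.en t₀ htm)
    exact nonneg_of_mul_nonneg_left h1 hr
  have hD : 0 ≤ D := by
    have h1 : 0 ≤ ∫ t in Ioo (T - r ^ 2) T, ∫ x in closedBall a r, gsq (u t) x :=
      setIntegral_nonneg measurableSet_Ioo fun t _ => nM t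
    exact nonneg_of_mul_nonneg_left (h1.trans hSe.di) hr
  have hP : 0 ≤ P := by
    have h1 : 0 ≤ ∫ t in Ioo (T - r ^ 2) T, osc a r (p t) :=
      setIntegral_nonneg measurableSet_Ioo fun t _ => nZ t
    exact nonneg_of_mul_nonneg_left (h1.trans hSp.pr) (by positivity)
  -- the error terms
  have hhb' := hhb β θ T r A D P ε (fun t => ∫ x in closedBall a r, nsq (u t) x)
    (fun t => ∫ x in closedBall a r, gsq (u t) x) (fun t => osc a r (p t)) Y hβ0 hβ1 hθ hθ4 hr hε
    (fun t ht => ⟨nN t, hSe.en t ht, nM t, nZ t, hNX.nonneg t ht⟩) (cN.mono hsub) (cM.mono hsub)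
    (cZ.mono hsub) hNX.cont hSe.dii hSp.pri hNX.int hSe.di hSp.pr hNX.le
  -- the initial value
  have hE0 : ∫ x, nsq (u t₀) x * et χ r (T + w - t₀) (dsq a x) ≤ 2 * A := by
    have hτ : 0 < T + w - t₀ := by linarith
    have h1 := w_up (sN t₀ (hsub htm)) (nsq_nn (u t₀)) (et_c hχ r (T + w - t₀) a)
      (zout _ hτ) (m := (√(T + w - t₀))⁻¹)
      (fun x => ((hKS χ hχ r (T + w - t₀) hr hτ).2.2.1 _ (dsq_nn a x)).2)
    have h2 : (√(T + w - t₀))⁻¹ ≤ 2 / r := by
      rw [inv_le_comm₀ (Real.sqrt_pos.2 hτ) (by positivity), inv_div]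
      apply Real.le_sqrt_of_sq_le
      rw [ht₀]
      nlinarith
    calc _ ≤ (√(T + w - t₀))⁻¹ * ∫ x in closedBall a r, nsq (u t₀) x := h1
      _ ≤ 2 / r * (A * r) := mul_le_mul h2 (hSe.en t₀ htm) (nN t₀) (by positivity)
      _ = 2 * A := by field_simp
  -- the differential inequality, integrated
  have hposτ : ∀ t ∈ Ico t₀ T, 0 < T + w - t := fun t ht => by linarith [ht.2]
  have cIco : Ico t₀ T ⊆ Ioo 0 T := fun t ht => ⟨hT0.trans_le ht.1, ht.2⟩
  have cτ : ContinuousOn (fun t : ℝ => T + w - t) (Ico t₀ T) := by fun_prop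
  have cH : ContinuousOn (fun t => B * ((T + w - t) / r ^ 2) *
      ((∫ x in closedBall a r, nsq (u t) x) / r ^ 3 + (∫ x in closedBall a r, gsq (u t) x) / r)
      + B * (√(T + w - t))⁻¹ ^ 3 * (ε * osc a r (p t) + Y t)) (Ico t₀ T) := by
    refine ContinuousOn.add ?_ ?_
    · refine ContinuousOn.mul (continuousOn_const.mul (cτ.div_const _)) ?_
      exact ((cN.mono cIco).div_const _).add ((cM.mono cIco).div_const _)
    · refine ContinuousOn.mul (continuousOn_const.mul ?_)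
        ((continuousOn_const.mul (cZ.mono cIco)).add (hNX.cont.mono hsub0))
      refine ContinuousOn.pow (ContinuousOn.inv₀ cτ.sqrt fun t ht => ?_) 3
      exact (Real.sqrt_pos.2 (hposτ t ht)).ne'
  obtain ⟨B', hB'⟩ : ∃ B', B' = C * (r ^ 2) ^ (-β) * (A + D) +
      ε * C * (θ ^ 3)⁻¹ * ((θ * r) ^ 2) ^ (-β) * (P + 1) := ⟨_, rfl⟩
  have hint := hINT β T w t₀ (2 * A) B'
    (fun s => ∫ x, nsq (u s) x * et χ r (T + w - s) (dsq a x))
    (fun s => ∫ x, gsq (u s) x * et χ r (T + w - s) (dsq a x))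
    (fun t => B * ((T + w - t) / r ^ 2) *
      ((∫ x in closedBall a r, nsq (u t) x) / r ^ 3 + (∫ x in closedBall a r, gsq (u t) x) / r)
      + B * (√(T + w - t))⁻¹ ^ 3 * (ε * osc a r (p t) + Y t))
    hβ0 hw0 (by rw [ht₀]; linarith) (cGf.mono cIco) cH
    (fun t ht => by
      have := hdi T E O u p hL δ ε w r a Y hδ hδ1 hε hr hrO hw0 (by linarith) hrT hNX
        t (hsub0 ht)
      rw [← hβ] at this
      exact this)
    (fun t ht => ⟨nEf t (cIco ht), nGf t (cIco ht)⟩) hE0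
    (fun t ht => by
      have := hhb' t (by rw [← ht₀]; exact ht)
      rw [← ht₀, ← hw] at this
      rw [hB', ← hw]
      exact this)
  -- the constant
  obtain ⟨YY, hYY⟩ : ∃ YY, YY = (8 + 2 * C) * θ ^ δ * (A + D) + 2 * C * (θ ^ 3)⁻¹ * ε * (P + 1) :=
    ⟨_, rfl⟩
  have hconst : (2 * w) ^ β * ((T + w - t₀) ^ (-β) * (2 * A) + B') ≤ YY := by
    have k1 : (2 * w) ^ β ≤ 2 * w ^ β := by
      rw [Real.mul_rpow (by norm_num) hw0.le]
      refine mul_le_mul_of_nonneg_right ?_ (by positivity)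
      calc (2 : ℝ) ^ β ≤ 2 ^ (1 : ℝ) := Real.rpow_le_rpow_of_exponent_le (by norm_num) (by linarith)
        _ = 2 := Real.rpow_one 2
    have k2 : (T + w - t₀) ^ (-β) ≤ 2 * (r ^ 2) ^ (-β) := by
      have e1 : (r ^ 2 / 4) ^ (-β) = 4 ^ β * (r ^ 2) ^ (-β) := by
        rw [Real.div_rpow hr2.le (by norm_num), Real.rpow_neg (by norm_num : (0 : ℝ) ≤ 4),
          div_inv_eq_mul, mul_comm]
      have e2 : (4 : ℝ) ^ β ≤ 2 := by
        calc (4 : ℝ) ^ β ≤ 4 ^ (1 / 2 : ℝ) := Real.rpow_le_rpow_of_exponent_le (by norm_num) hβ1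
          _ = 2 := by
            rw [← Real.sqrt_eq_rpow]
            rw [show (4 : ℝ) = 2 ^ 2 by norm_num]
            exact Real.sqrt_sq (by norm_num)
      calc (T + w - t₀) ^ (-β) ≤ (r ^ 2 / 4) ^ (-β) := by
            refine Real.rpow_le_rpow_of_nonpos (by positivity) ?_ (by linarith)
            rw [ht₀]
            linarith
        _ = 4 ^ β * (r ^ 2) ^ (-β) := e1
        _ ≤ 2 * (r ^ 2) ^ (-β) := mul_le_mul_of_nonneg_right e2 (by positivity)
    have k3 : w ^ β * (r ^ 2) ^ (-β) = θ ^ δ := by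
      rw [hw, mul_pow, Real.mul_rpow (by positivity) hr2.le, mul_assoc, ← Real.rpow_add hr2,
        add_neg_cancel, Real.rpow_zero, mul_one, ← Real.rpow_natCast, ← Real.rpow_mul hθ.le, hβ]
      congr 1
      push_cast
      ring
    have k4 : w ^ β * ((θ * r) ^ 2) ^ (-β) = 1 := by
      rw [← hw, ← Real.rpow_add hw0, add_neg_cancel, Real.rpow_zero]
    have k5 : 0 ≤ B' := by rw [hB']; positivity
    have hwb : 0 ≤ w ^ β := by positivity
    calc (2 * w) ^ β * ((T + w - t₀) ^ (-β) * (2 * A) + B')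
        ≤ (2 * w ^ β) * (2 * (r ^ 2) ^ (-β) * (2 * A) + B') := by
          refine mul_le_mul k1 ?_ ?_ (by positivity)
          · have := mul_le_mul_of_nonneg_right k2 (by linarith : 0 ≤ 2 * A)
            linarith
          · have : 0 ≤ (T + w - t₀) ^ (-β) := Real.rpow_nonneg (by linarith) _
            positivity
      _ = 8 * (w ^ β * (r ^ 2) ^ (-β)) * A + 2 * C * (w ^ β * (r ^ 2) ^ (-β)) * (A + D) +
          2 * C * (θ ^ 3)⁻¹ * ε * (w ^ β * ((θ * r) ^ 2) ^ (-β)) * (P + 1) := by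
          rw [hB']
          ring
      _ ≤ YY := by
          rw [k3, k4, hYY]
          have : 0 ≤ θ ^ δ * D := by positivity
          nlinarith
  have hmain : ∀ t ∈ Ioo (T - w) T,
      (∫ x, nsq (u t) x * et χ r (T + w - t) (dsq a x)) ≤ YY ∧
      β * ∫ s in (T - w)..t, (∫ x, gsq (u s) x * et χ r (T + w - s) (dsq a x)) ≤ YY := by
    intro t ht
    have h1 := (hint t ht).trans hconst
    have htT : t ∈ Ioo 0 T := ⟨by linarith [ht.1], ht.2⟩
    have h2 := nEf t htT
    have h3 : 0 ≤ ∫ s in (T - w)..t, (∫ x, gsq (u s) x * et χ r (T + w - s) (dsq a x)) := by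
      refine intervalIntegral.integral_nonneg ht.1.le fun s hs => nGf s ⟨?_, ?_⟩
      · linarith [hs.1]
      · linarith [hs.2, ht.2]
    have h4 : 0 ≤ β * ∫ s in (T - w)..t, (∫ x, gsq (u s) x * et χ r (T + w - s) (dsq a x)) :=
      mul_nonneg hβ0.le h3
    constructor <;> linarith
  have hlow : ∀ t ∈ Ioo (T - w) T, ∀ x ∈ closedBall a (θ * r),
      κ / (θ * r) ≤ et χ r (T + w - t) (dsq a x) := by
    intro t ht x hx
    rw [hκ]
    exact et_low hχ hr hθ hθ4 (by rw [← hw]; linarith [ht.2]) (by rw [← hw]; linarith [ht.1]) hx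
  have hIoo : Ioo (T - w) T ⊆ Ioo 0 T := fun t ht => ⟨by linarith [ht.1], ht.2⟩
  have hIoo' : Ioo (T - w) T ⊆ Ioo (T - r ^ 2) T := fun t ht => ⟨by linarith [ht.1], ht.2⟩
  -- the bound X
  have hX : (8 + 2 * C) / (β * κ) * θ ^ δ * (A + D) +
      ε * (2 * C * (θ ^ 3)⁻¹ / (β * κ)) * (P + 1) = YY / (β * κ) := by
    rw [hYY]
    field_simp
  rw [hX]
  have hY0 : 0 ≤ YY := by rw [hYY]; positivity
  have hYκ : YY / κ ≤ YY / (β * κ) := by
    refine div_le_div_of_nonneg_left hY0 (by positivity) ?_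
    nlinarith
  refine ⟨?_, ?_, ?_⟩
  · intro t ht
    rw [← hw] at ht
    have htT := hIoo ht
    have h1 := w_low (sN t htT) (nsq_nn (u t)) (et_c hχ r (T + w - t) a)
      (fun x => ((hKS χ hχ r (T + w - t) hr (by linarith [ht.2])).2.2.1 _ (dsq_nn a x)).1)
      (zout _ (by linarith [ht.2])) (hlow t ht)
    have h2 := h1.trans (hmain t ht).1
    have h3 : ∫ x in closedBall a (θ * r), nsq (u t) x ≤ YY / κ * (θ * r) := by
      rw [div_mul_eq_mul_div, le_div_iff₀ hκ0]
      rw [div_mul_eq_mul_div, div_le_iff₀ hθr] at h2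
      linarith
    exact h3.trans (mul_le_mul_of_nonneg_right hYκ hθr.le)
  · rw [← hw]
    have h1 : IntegrableOn (fun t => ∫ x in closedBall a r, gsq (u t) x) (Ioo (T - w) T) :=
      hSe.dii.mono_set hIoo'
    refine Integrable.mono' h1 ((cg'.mono hIoo).aestronglyMeasurable measurableSet_Ioo) ?_
    refine (ae_restrict_iff' measurableSet_Ioo).2 (Eventually.of_forall fun t ht => ?_)
    have h2 : 0 ≤ ∫ x in closedBall a (θ * r), gsq (u t) x :=
      setIntegral_nonneg isClosed_closedBall.measurableSet fun x _ => gsq_nn _ _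
    rw [Real.norm_eq_abs, abs_of_nonneg h2]
    refine setIntegral_mono_set ((sG t (hIoo ht)).continuousOn.integrableOn_compact
      (isCompact_closedBall a r)) (Eventually.of_forall fun x => gsq_nn _ _) ?_
    refine (closedBall_subset_closedBall ?_).eventuallyLE
    nlinarith
  · rw [← hw]
    have hI : IntegrableOn (fun t => ∫ x in closedBall a (θ * r), gsq (u t) x) (Ioo (T - w) T) := by
      have h1 : IntegrableOn (fun t => ∫ x in closedBall a r, gsq (u t) x) (Ioo (T - w) T) :=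
        hSe.dii.mono_set hIoo'
      refine Integrable.mono' h1 ((cg'.mono hIoo).aestronglyMeasurable measurableSet_Ioo) ?_
      refine (ae_restrict_iff' measurableSet_Ioo).2 (Eventually.of_forall fun t ht => ?_)
      have h2 : 0 ≤ ∫ x in closedBall a (θ * r), gsq (u t) x :=
        setIntegral_nonneg isClosed_closedBall.measurableSet fun x _ => gsq_nn _ _
      rw [Real.norm_eq_abs, abs_of_nonneg h2]
      refine setIntegral_mono_set ((sG t (hIoo ht)).continuousOn.integrableOn_compact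
        (isCompact_closedBall a r)) (Eventually.of_forall fun x => gsq_nn _ _) ?_
      refine (closedBall_subset_closedBall ?_).eventuallyLE
      nlinarith
    refine lim_int (by linarith) hI fun t ht => ?_
    have hsubI : Icc (T - w) t ⊆ Ioo 0 T := fun s hs => ⟨by linarith [hs.1], by linarith [hs.2, ht.2]⟩
    have h1 : ∫ s in (T - w)..t, κ / (θ * r) * ∫ x in closedBall a (θ * r), gsq (u s) x ≤
        ∫ s in (T - w)..t, (∫ x, gsq (u s) x * et χ r (T + w - s) (dsq a x)) := by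
      refine intervalIntegral.integral_mono_on_of_le_Ioo ht.1.le ?_ ?_ fun s hs => ?_
      · exact (continuousOn_const.mul ((cg'.mono hsubI))).intervalIntegrable_of_Icc ht.1.le
      · exact (cGf.mono hsubI).intervalIntegrable_of_Icc ht.1.le
      · have hsI : s ∈ Ioo (T - w) T := ⟨hs.1, hs.2.trans ht.2⟩
        exact w_low (sG s (hIoo hsI)) (gsq_nn (u s)) (et_c hχ r (T + w - s) a)
          (fun x => ((hKS χ hχ r (T + w - s) hr (by linarith [hsI.2])).2.2.1 _ (dsq_nn a x)).1)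
          (zout _ (by linarith [hsI.2])) (hlow s hsI)
    rw [intervalIntegral.integral_const_mul] at h1
    have h2 := (hmain t ht).2
    have h3 : β * (κ / (θ * r) * ∫ s in (T - w)..t, ∫ x in closedBall a (θ * r), gsq (u s) x) ≤ YY :=
      (mul_le_mul_of_nonneg_left h1 hβ0.le).trans h2
    rw [div_mul_eq_mul_div, le_div_iff₀ (by positivity)]
    have h4 : β * (κ / (θ * r) * ∫ s in (T - w)..t, ∫ x in closedBall a (θ * r), gsq (u s) x) =
        ((∫ s in (T - w)..t, ∫ x in closedBall a (θ * r), gsq (u s) x) * (β * κ)) / (θ * r) := by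
      field_simp
    rw [h4, div_le_iff₀ hθr] at h3
    exact h3

end Pool.Agent.H1EI.ONE
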