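import Pool.Agent.H1EI.Stm

/-! Project EI (helper1), stub PERX: the excess does not depend on the normalisation of the pressure
(helper92). -/

set_option autoImplicit false

open MeasureTheory Set Metric
open scoped ContDiff
open H459R3.NS Pool.Agent.W268.NS Pool.Agent.Q67.VD
open W221.NS (nsq gsq adv)
open Pool.Agent.Q85.CL (SM DFO LEq LSl DSl WSl Sing Blow StmDecL StmDom)

namespace Pool.Agent.H1EI.PERX

lemma pt_mem {a : V} {ρ r : ℝ} (hρ : 0 < ρ) (hρr : ρ < r)
    (σ : sphere (0 : EuclideanSpace ℝ (Fin 3)) 1) : (fun i => a i + ρ * σ.1 i) ∈ ball a r := by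
  rw [mem_ball, dist_pi_lt_iff (hρ.trans hρr)]
  intro i
  rw [Real.dist_eq, add_sub_cancel_left, abs_mul, abs_of_pos hρ]
  have h1 : ‖σ.1 i‖ ≤ ‖σ.1‖ := PiLp.norm_apply_le σ.1 i
  have h2 : ‖σ.1‖ = 1 := by simp
  rw [h2, Real.norm_eq_abs] at h1
  calc ρ * |σ.1 i| ≤ ρ * 1 := mul_le_mul_of_nonneg_left h1 hρ.le
    _ < r := by linarith

lemma sph_congr {a : V} {ρ r : ℝ} (hρ : 0 < ρ) (hρr : ρ < r) {f g : V → ℝ}
    (h : ∀ x ∈ ball a r, f x = g x) : sph a ρ f = sph a ρ g := by
  unfold sph
  congr 1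
  exact integral_congr_ae (Filter.Eventually.of_forall fun σ => h _ (pt_mem hρ hρr σ))

theorem t : Pool.Agent.H1EI.PERX := by
  intro ν T u p p' hν hS a hp δ ε r hr hr2 hrT hX
  have hrT' : r ^ 2 / ν ≤ T := by
    rw [div_le_iff₀ hν]
    linarith
  unfold ExcLe at hX ⊢
  refine le_of_eq_of_le ?_ hX
  refine setLIntegral_congr_fun measurableSet_Ioo fun t ht => ?_
  refine setLIntegral_congr_fun measurableSet_Ioo fun ρ hρ => ?_
  have ht' : t ∈ Ioo 0 T := ⟨by linarith [ht.1], ht.2⟩
  have ht2 : t ∈ Ico 0 T := ⟨ht'.1.le, ht'.2⟩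
  obtain ⟨c0, hc0⟩ := hp t ht'
  have hemb : ContDiff ℝ ∞ (fun y : V => ((t, y) : ℝ × V)) := contDiff_const.prodMk contDiff_id
  have hpc : Continuous (p t) :=
    (hS.smooth_p.comp_contDiff hemb (fun y => ⟨ht2, mem_univ _⟩)).continuous
  have hi : IntegrableOn (p t) (closedBall a r) :=
    hpc.continuousOn.integrableOn_compact (isCompact_closedBall a r)
  have hm0 : volume (closedBall a r) ≠ 0 := (measure_closedBall_pos volume a hr).ne'
  have hm1 : volume (closedBall a r) ≠ ⊤ := (isCompact_closedBall a r).measure_lt_top.ne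
  have hmean : ⨍ y in closedBall a r, p' t y = (⨍ y in closedBall a r, p t y) + c0 := by
    have e1 : ∫ y in closedBall a r, p' t y = ∫ y in closedBall a r, (p t y + c0) := by
      refine setIntegral_congr_fun isClosed_closedBall.measurableSet fun x hx => ?_
      exact hc0 x (closedBall_subset_ball hr2 hx)
    rw [setAverage_eq, setAverage_eq, e1, integral_add hi (integrableOn_const hm1),
      setIntegral_const, smul_add, smul_smul]
    congr 1
    have : (volume.real (closedBall a r)) ≠ 0 := by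
      rw [measureReal_def]
      exact (ENNReal.toReal_pos hm0 hm1).ne'
    rw [inv_mul_cancel₀ this, one_smul]
  congr 1
  have hball : ∀ x ∈ ball a r, p' t x = p t x + c0 := fun x hx =>
    hc0 x (ball_subset_ball hr2.le hx)
  unfold exc
  rw [hmean]
  rw [sph_congr (f := fun x => inw a (u t) x * (nsq (u t) x + 2 * (p' t x -
        ((⨍ y in closedBall a r, p t y) + c0))))
      (g := fun x => inw a (u t) x * (nsq (u t) x + 2 * (p t x - ⨍ y in closedBall a r, p t y)))
      hρ.1 hρ.2 fun x hx => by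
        simp only [hball x hx]
        ring,
    sph_congr (f := fun x => (2 - δ) * nsq (u t) x + (4 - δ) * (ν * (T - t)) * gsq (u t) x +
        ε * |p' t x - ((⨍ y in closedBall a r, p t y) + c0)|)
      (g := fun x => (2 - δ) * nsq (u t) x + (4 - δ) * (ν * (T - t)) * gsq (u t) x +
        ε * |p t x - ⨍ y in closedBall a r, p t y|)
      hρ.1 hρ.2 fun x hx => by
        simp only [hball x hx]
        congr 3
        ring]

end Pool.Agent.H1EI.PERX
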