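import Pool.Agent.H1EI.Stm

/-! Project EI (helper1), stub POL: polar coordinates (helper12). -/

set_option autoImplicit false

open MeasureTheory Set Metric
open scoped ContDiff

namespace Pool.Agent.H1EI.POL

abbrev E3 := EuclideanSpace ℝ (Fin 3)

/-- polar coordinates for continuous functions with compact support -/
theorem polar (g : E3 → ℝ) (hg : Integrable g) :
    IntegrableOn (fun ρ : ℝ => ρ ^ 2 * ∫ σ : sphere (0 : E3) 1, g (ρ • σ.1) ∂(volume : Measure E3).toSphere) (Ioi 0) ∧
    ∫ x, g x = ∫ ρ in Ioi (0 : ℝ), ρ ^ 2 * ∫ σ : sphere (0 : E3) 1, g (ρ • σ.1) ∂(volume : Measure E3).toSphere := by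
  have hdim : Module.finrank ℝ E3 - 1 = 2 := by simp
  have hmp := (volume : Measure E3).measurePreserving_homeomorphUnitSphereProd
  rw [hdim] at hmp
  have hemb := (homeomorphUnitSphereProd E3).measurableEmbedding
  have hcomp : (fun x : ({0}ᶜ : Set E3) => g x) =
      (fun p : sphere (0 : E3) 1 × Ioi (0 : ℝ) => g (p.2.1 • p.1.1)) ∘ (homeomorphUnitSphereProd E3) := by
    funext x
    have hx : ‖(x : E3)‖ ≠ 0 := norm_ne_zero_iff.2 x.2
    simp only [Function.comp_apply, homeomorphUnitSphereProd_apply_fst_coe, homeomorphUnitSphereProd_apply_snd_coe]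
    rw [smul_smul, mul_inv_cancel₀ hx, one_smul]
  have h1 : Integrable (fun x : ({0}ᶜ : Set E3) => g x) ((volume : Measure E3).comap (↑)) := by
    have h2 := (integrableOn_iff_comap_subtypeVal (μ := (volume : Measure E3)) (f := g)
      (measurableSet_singleton (0 : E3)).compl).1 hg.integrableOn
    exact h2
  have h3 : Integrable (fun p : sphere (0 : E3) 1 × Ioi (0 : ℝ) => g (p.2.1 • p.1.1))
      ((volume : Measure E3).toSphere.prod (Measure.volumeIoiPow 2)) := by
    rw [← hmp.integrable_comp_emb hemb, ← hcomp]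
    exact h1
  have h4 := h3.integral_prod_right
  have e1 : ∫ x, g x = ∫ x : ({0}ᶜ : Set E3), g x ∂((volume : Measure E3).comap (↑)) := by
    rw [integral_subtype_comap (measurableSet_singleton _).compl (fun x => g x), restrict_compl_singleton]
  have e2 : ∫ x : ({0}ᶜ : Set E3), g x ∂((volume : Measure E3).comap (↑)) =
      ∫ p : sphere (0 : E3) 1 × Ioi (0 : ℝ), g (p.2.1 • p.1.1) ∂((volume : Measure E3).toSphere.prod (Measure.volumeIoiPow 2)) := by
    rw [hcomp]
    exact hmp.integral_comp hemb (fun p : sphere (0 : E3) 1 × Ioi (0 : ℝ) => g (p.2.1 • p.1.1))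
  have e3 := integral_prod_symm _ h3
  obtain ⟨F, hF⟩ : ∃ F : ℝ → ℝ, F = fun ρ => ∫ σ : sphere (0 : E3) 1, g (ρ • σ.1) ∂(volume : Measure E3).toSphere := ⟨_, rfl⟩
  have h4' : Integrable (fun r : Ioi (0 : ℝ) => F r) (Measure.volumeIoiPow 2) := by
    rw [hF]
    exact h4
  have e3' : ∫ p : sphere (0 : E3) 1 × Ioi (0 : ℝ), g (p.2.1 • p.1.1) ∂((volume : Measure E3).toSphere.prod (Measure.volumeIoiPow 2))
      = ∫ r : Ioi (0 : ℝ), F r ∂(Measure.volumeIoiPow 2) := by
    rw [e3, hF]
  have hgoal : (fun ρ : ℝ => ρ ^ 2 * ∫ σ : sphere (0 : E3) 1, g (ρ • σ.1) ∂(volume : Measure E3).toSphere) =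
      fun ρ => ρ ^ 2 * F ρ := by rw [hF]
  rw [hgoal, e1, e2, e3']
  constructor
  · rw [integrableOn_iff_comap_subtypeVal measurableSet_Ioi]
    rw [Measure.volumeIoiPow, integrable_withDensity_iff_integrable_smul'] at h4'
    · refine (integrable_congr ?_).1 h4'
      refine .of_forall ?_
      rintro ⟨x, hx : 0 < x⟩
      simp (disch := positivity) [ENNReal.toReal_ofReal]
    · fun_prop
    · simp
  · simp only [Measure.volumeIoiPow, ENNReal.ofReal]
    rw [integral_withDensity_eq_integral_smul,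
      integral_subtype_comap measurableSet_Ioi fun a ↦ Real.toNNReal (a ^ 2) • F a]
    · refine setIntegral_congr_fun measurableSet_Ioi fun x hx => ?_
      rw [NNReal.smul_def, Real.coe_toNNReal _ (pow_nonneg hx.out.le _), smul_eq_mul]
    · exact (measurable_subtype_coe.pow_const _).real_toNNReal

/-- the function on the Euclidean space -/
noncomputable def gg (a : Fin 3 → ℝ) (k : ℝ → ℝ) (f : (Fin 3 → ℝ) → ℝ) (y : E3) : ℝ := k (‖y‖ ^ 2) * f (fun i => a i + y i)

theorem gg_int (a : Fin 3 → ℝ) (R : ℝ) (k : ℝ → ℝ) (f : (Fin 3 → ℝ) → ℝ) (Ω : Set (Fin 3 → ℝ)) (hR : 0 < R) (hO : IsOpen Ω)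
    (hsub : closedBall a R ⊆ Ω) (hk : Continuous k) (hk0 : ∀ s, R ^ 2 ≤ s → k s = 0) (hf : ContinuousOn f Ω) :
    Integrable (gg a k f) := by
  have hcoord : ∀ (y : E3) (i : Fin 3), |y i| ≤ ‖y‖ := by
    intro y i
    have := PiLp.norm_apply_le y i
    rwa [Real.norm_eq_abs] at this
  have hin : ∀ y : E3, ‖y‖ ≤ R → (fun i => a i + y i) ∈ Ω := by
    intro y hy
    apply hsub
    rw [mem_closedBall, dist_pi_le_iff hR.le]
    intro i
    rw [Real.dist_eq, add_sub_cancel_left]
    exact (hcoord y i).trans hy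
  have hc1 : Continuous (fun y : E3 => (fun i => a i + y i : Fin 3 → ℝ)) := by fun_prop
  have hc2 : Continuous (fun y : E3 => k (‖y‖ ^ 2)) := hk.comp (continuous_norm.pow 2)
  have hc : Continuous (gg a k f) := by
    rw [continuous_iff_continuousAt]
    intro y
    by_cases hy : (fun i => a i + y i) ∈ Ω
    · have h1 : ContinuousAt f (fun i => a i + y i) := hf.continuousAt (hO.mem_nhds hy)
      have h2 : ContinuousAt (fun y : E3 => f (fun i => a i + y i)) y :=
        ContinuousAt.comp (f := fun y : E3 => (fun i => a i + y i : Fin 3 → ℝ)) (g := f) h1 hc1.continuousAt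
      exact hc2.continuousAt.mul h2
    · have h1 : R < ‖y‖ := by
        by_contra hcon
        push Not at hcon
        exact hy (hin y hcon)
      have h2 : gg a k f =ᶠ[nhds y] fun _ => 0 := by
        have h3 : ∀ᶠ y' in nhds y, R < ‖y'‖ := (continuous_norm.tendsto y).eventually (lt_mem_nhds h1)
        filter_upwards [h3] with y' hy'
        unfold gg
        rw [hk0 _ (pow_le_pow_left₀ hR.le hy'.le 2), zero_mul]
      exact (continuousAt_const).congr h2.symm
  have hsupp : HasCompactSupport (gg a k f) := by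
    apply HasCompactSupport.of_support_subset_isCompact (isCompact_closedBall (0 : E3) R)
    intro y hy
    rw [mem_closedBall_zero_iff]
    by_contra hcon
    push Not at hcon
    apply hy
    unfold gg
    rw [hk0 _ (pow_le_pow_left₀ hR.le hcon.le 2), zero_mul]
  exact hc.integrable_of_hasCompactSupport hsupp

theorem t : Pool.Agent.H1EI.POL := by
  intro a R k f Ω hR hO hsub hk hf
  have hgi := gg_int a R k f Ω hR hO hsub hk.smooth.continuous hk.supp hf
  obtain ⟨h1, h2⟩ := polar (gg a k f) hgi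
  have hsph : ∀ ρ ∈ Ioi (0 : ℝ), ρ ^ 2 * ∫ σ : sphere (0 : E3) 1, gg a k f (ρ • σ.1) ∂(volume : Measure E3).toSphere =
      k (ρ ^ 2) * sph a ρ f := by
    intro ρ hρ
    have hρ0 : 0 < ρ := hρ
    have h3 : ∀ σ : sphere (0 : E3) 1, gg a k f (ρ • σ.1) = k (ρ ^ 2) * f (fun i => a i + ρ * σ.1 i) := by
      intro σ
      have h4 : ‖(σ.1 : E3)‖ = 1 := by
        have := σ.2
        rwa [mem_sphere_zero_iff_norm] at this
      unfold gg
      rw [norm_smul, h4, mul_one, Real.norm_eq_abs, sq_abs]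
      congr 1
    simp_rw [h3]
    rw [integral_const_mul]
    unfold sph
    ring
  have hL : ∫ x, k (dsq a x) * f x = ∫ y : E3, gg a k f y := by
    have h5 : ∫ x, k (dsq a x) * f x = ∫ x, k (dsq a (a + x)) * f (a + x) :=
      (integral_add_left_eq_self (fun x => k (dsq a x) * f x) a).symm
    have h6 := (EuclideanSpace.volume_preserving_symm_measurableEquiv_toLp (Fin 3)).integral_comp'
      (fun x : Fin 3 → ℝ => k (dsq a (a + x)) * f (a + x))
    rw [h5, ← h6]
    refine integral_congr_ae (.of_forall fun y => ?_)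
    have h7 : dsq a (a + ((MeasurableEquiv.toLp 2 (Fin 3 → ℝ)).symm y)) = ‖y‖ ^ 2 := by
      unfold dsq
      rw [EuclideanSpace.norm_sq_eq]
      refine Finset.sum_congr rfl fun i _ => ?_
      rw [Pi.add_apply, add_sub_cancel_left, Real.norm_eq_abs, sq_abs]
      rfl
    simp only
    rw [h7]
    rfl
  refine ⟨?_, ?_⟩
  · exact (integrableOn_congr_fun hsph measurableSet_Ioi).1 h1
  · rw [hL, h2]
    exact setIntegral_congr_fun measurableSet_Ioi hsph

end Pool.Agent.H1EI.POL
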