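import Pool.Agent.H1EI.Stm

/-!
Project EI: decay of the oscillation of the pressure (stub PR). Author: helper27.
-/

set_option autoImplicit false

open MeasureTheory Set Metric
open scoped ContDiff
open H459R3.NS Pool.Agent.W268.NS Pool.Agent.Q67.VD
open W221.NS (nsq gsq adv)
open Pool.Agent.Q85.CL (SM DFO LEq LSl DSl WSl Sing Blow StmDecL StmDom)

namespace Pool.Agent.H1EI.PR

lemma cont_pd {f : V → ℝ} (hf : ContDiff ℝ ∞ f) (j : Fin 3) : Continuous (pd j f) := by
  unfold pd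
  exact (hf.continuous_fderiv (by simp)).clm_apply continuous_const

lemma slice {T t : ℝ} (ht : t ∈ Ioo 0 T) {E : Type*} [NormedAddCommGroup E] [NormedSpace ℝ E]
    {f : ℝ → V → E} (h : ContDiffOn ℝ ∞ (fun z : ℝ × V => f z.1 z.2) (Ioo 0 T ×ˢ univ)) :
    ContDiff ℝ ∞ (f t) := by
  rw [← contDiffOn_univ]
  exact h.comp (s := univ) (f := fun x : V => (t, x)) (contDiff_prodMk_right t).contDiffOn
    (fun x _ => ⟨ht, mem_univ _⟩)

lemma cont_nsq {v : V → V} (hv : ContDiff ℝ ∞ v) : Continuous (nsq v) := by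
  unfold W221.NS.nsq
  have h := contDiff_pi.1 hv
  exact continuous_finsetSum _ fun i _ => (h i).continuous.pow 2

lemma cont_gsq {v : V → V} (hv : ContDiff ℝ ∞ v) : Continuous (gsq v) := by
  unfold W221.NS.gsq
  have h := contDiff_pi.1 hv
  exact continuous_finsetSum _ fun i _ => continuous_finsetSum _ fun j _ =>
    (cont_pd (h i) j).pow 2

lemma cont_GG {v : V → V} (hv : ContDiff ℝ ∞ v) (i : Fin 3) : Continuous (GG v i) := by
  unfold GG
  have h := contDiff_pi.1 hv
  exact (continuous_finsetSum _ fun j _ => (h j).continuous.mul (cont_pd (h i) j)).neg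

lemma GG_le (v : V → V) {r : ℝ} (hr : 0 < r) (x : V) :
    r * ∑ i, |GG v i x| ≤ 3 / 2 * (nsq v x + r ^ 2 * gsq v x) := by
  have key : ∀ i : Fin 3, r * |GG v i x| ≤
      1 / 2 * (nsq v x + r ^ 2 * ∑ j, pd j (fun y => v y i) x ^ 2) := by
    intro i
    unfold GG W221.NS.nsq
    rw [abs_neg]
    have h1 := Finset.abs_sum_le_sum_abs (fun j => v x j * pd j (fun y => v y i) x) Finset.univ
    have h2 : ∀ j : Fin 3, r * |v x j * pd j (fun y => v y i) x| ≤
        1 / 2 * (v x j ^ 2 + r ^ 2 * pd j (fun y => v y i) x ^ 2) := by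
      intro j
      rw [abs_mul]
      nlinarith [sq_nonneg (|v x j| - r * |pd j (fun y => v y i) x|), sq_abs (v x j),
        sq_abs (pd j (fun y => v y i) x)]
    calc r * |∑ j, v x j * pd j (fun y => v y i) x|
        ≤ r * ∑ j, |v x j * pd j (fun y => v y i) x| := mul_le_mul_of_nonneg_left h1 hr.le
      _ = ∑ j, r * |v x j * pd j (fun y => v y i) x| := Finset.mul_sum _ _ _
      _ ≤ ∑ j, 1 / 2 * (v x j ^ 2 + r ^ 2 * pd j (fun y => v y i) x ^ 2) :=
          Finset.sum_le_sum fun j _ => h2 j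
      _ = 1 / 2 * (∑ j, v x j ^ 2 + r ^ 2 * ∑ j, pd j (fun y => v y i) x ^ 2) := by
          rw [← Finset.mul_sum, Finset.sum_add_distrib, ← Finset.mul_sum]
  have hn : 0 ≤ gsq v x := by unfold W221.NS.gsq; positivity
  calc r * ∑ i, |GG v i x| = ∑ i, r * |GG v i x| := Finset.mul_sum _ _ _
    _ ≤ ∑ i, 1 / 2 * (nsq v x + r ^ 2 * ∑ j, pd j (fun y => v y i) x ^ 2) :=
        Finset.sum_le_sum fun i _ => key i
    _ = 1 / 2 * (3 * nsq v x + r ^ 2 * gsq v x) := by
        rw [← Finset.mul_sum, Finset.sum_add_distrib, ← Finset.mul_sum]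
        simp [W221.NS.gsq]
    _ ≤ 3 / 2 * (nsq v x + r ^ 2 * gsq v x) := by nlinarith [mul_nonneg (sq_nonneg r) hn]

lemma int_GG {v : V → V} (hv : ContDiff ℝ ∞ v) {r : ℝ} (hr : 0 < r) (a : V) :
    r * ∫ x in closedBall a r, ∑ i, |GG v i x| ≤
      3 / 2 * ((∫ x in closedBall a r, nsq v x) + r ^ 2 * ∫ x in closedBall a r, gsq v x) := by
  have hK : IsCompact (closedBall a r) := isCompact_closedBall a r
  have i1 : IntegrableOn (fun x => ∑ i, |GG v i x|) (closedBall a r) :=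
    (continuous_finsetSum _ fun i _ => (cont_GG hv i).abs).continuousOn.integrableOn_compact hK
  have i2 : IntegrableOn (nsq v) (closedBall a r) :=
    (cont_nsq hv).continuousOn.integrableOn_compact hK
  have i3 : IntegrableOn (gsq v) (closedBall a r) :=
    (cont_gsq hv).continuousOn.integrableOn_compact hK
  calc r * ∫ x in closedBall a r, ∑ i, |GG v i x|
      = ∫ x in closedBall a r, r * ∑ i, |GG v i x| := (integral_const_mul _ _).symm
    _ ≤ ∫ x in closedBall a r, 3 / 2 * (nsq v x + r ^ 2 * gsq v x) := by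
        refine integral_mono (i1.const_mul r) ((i2.add (i3.const_mul (r ^ 2))).const_mul (3 / 2)) ?_
        intro x
        exact GG_le v hr x
    _ = _ := by
        rw [integral_const_mul, integral_add i2 (i3.const_mul (r ^ 2)), integral_const_mul]

lemma osc_nonneg (a : V) (r : ℝ) (f : V → ℝ) : 0 ≤ osc a r f := by
  unfold osc
  exact integral_nonneg fun x => abs_nonneg _

lemma cont_osc (h1 : CONT) {T : ℝ} {p : ℝ → V → ℝ}
    (hp : ContinuousOn (fun z : ℝ × V => p z.1 z.2) (Ioo 0 T ×ˢ univ)) (a : V) (r : ℝ) :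
    ContinuousOn (fun t => osc a r (p t)) (Ioo 0 T) := by
  have hK : IsCompact (closedBall a r) := isCompact_closedBall a r
  have hm : ContinuousOn (fun t => ⨍ y in closedBall a r, p t y) (Ioo 0 T) := by
    have h := h1 T p _ hK hp
    have h' : ContinuousOn (fun t => (volume.real (closedBall a r))⁻¹ *
        ∫ y in closedBall a r, p t y) (Ioo 0 T) := continuousOn_const.mul h
    refine h'.congr fun t _ => ?_
    show (⨍ y in closedBall a r, p t y) = _
    rw [setAverage_eq, smul_eq_mul]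
  refine h1 T (fun t x => |p t x - ⨍ y in closedBall a r, p t y|) _ hK ?_
  exact (hp.sub (hm.comp continuousOn_fst (fun z hz => hz.1))).abs

theorem t (h1 : CONT) (h2 : LAPP) (h3 : PT) : Pool.Agent.H1EI.PR := by
  obtain ⟨C, hC, hPT⟩ := h3
  refine ⟨2 * C, by positivity, ?_⟩
  intro θ hθ hθ4 T E O u p hs r A D P a hr hrT hO hse hsp
  have hpc : ContinuousOn (fun z : ℝ × V => p z.1 z.2) (Ioo 0 T ×ˢ univ) :=
    hs.smooth_p.continuousOn
  have hr2 : 0 < r ^ 2 := by positivity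
  have hθr : (θ * r) ^ 2 ≤ r ^ 2 := by
    rw [mul_pow]
    have : θ ^ 2 ≤ 1 := by nlinarith
    nlinarith
  have hθr0 : 0 < (θ * r) ^ 2 := by positivity
  have hJI : Ioo (T - (θ * r) ^ 2) T ⊆ Ioo (T - r ^ 2) T := Ioo_subset_Ioo_left (by linarith)
  have hI0 : Ioo (T - r ^ 2) T ⊆ Ioo 0 T := Ioo_subset_Ioo_left (by linarith)
  have hne : (T - r ^ 2 / 2) ∈ Ioo (T - r ^ 2) T := ⟨by linarith, by linarith⟩
  -- signs
  have hA : 0 ≤ A := by
    have h := hse.en _ hne
    have h' : 0 ≤ ∫ x in closedBall a r, nsq (u (T - r ^ 2 / 2)) x :=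
      integral_nonneg fun x => by unfold W221.NS.nsq; positivity
    by_contra hneg
    push Not at hneg
    nlinarith [mul_neg_of_neg_of_pos hneg hr]
  have hgn : ∀ t, 0 ≤ ∫ x in closedBall a r, gsq (u t) x := fun t =>
    integral_nonneg fun x => by unfold W221.NS.gsq; positivity
  have hD : 0 ≤ D := by
    have h' : 0 ≤ ∫ t in Ioo (T - r ^ 2) T, ∫ x in closedBall a r, gsq (u t) x :=
      integral_nonneg fun t => hgn t
    by_contra hneg
    push Not at hneg
    nlinarith [mul_neg_of_neg_of_pos hneg hr, hse.di]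
  have hr3 : 0 < r ^ 3 := by positivity
  have hP : 0 ≤ P := by
    have h' : 0 ≤ ∫ t in Ioo (T - r ^ 2) T, osc a r (p t) :=
      integral_nonneg fun t => osc_nonneg a r _
    by_contra hneg
    push Not at hneg
    nlinarith [mul_neg_of_neg_of_pos hneg hr3, hsp.pr]
  -- the pointwise bound
  have hpt : ∀ t ∈ Ioo (T - r ^ 2) T, osc a (θ * r) (p t) ≤
      C * (θ ^ 4 * osc a r (p t) + 3 / 2 * (A * r + r ^ 2 * ∫ x in closedBall a r, gsq (u t) x)) := by
    intro t ht
    have ht0 := hI0 ht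
    have hu : ContDiff ℝ ∞ (u t) := slice ht0 hs.smooth_u
    have hp : ContDiff ℝ ∞ (p t) := slice ht0 hs.smooth_p
    obtain ⟨hG, hl⟩ := h2 T O u p hs.toLEq t ht0
    have h := hPT r θ a (p t) (GG (u t)) hr hθ hθ4 hp hG
      (fun x hx => hl x (hO (ball_subset_closedBall hx)))
    refine h.trans (mul_le_mul_of_nonneg_left ?_ hC.le)
    have h4 := int_GG hu hr a
    have h5 := hse.en t ht
    linarith
  have vol : volume.real (Ioo (T - (θ * r) ^ 2) T) = (θ * r) ^ 2 := by
    rw [Real.volume_real_Ioo_of_le (by linarith)]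
    ring
  have j1 : IntegrableOn (fun t => osc a r (p t)) (Ioo (T - (θ * r) ^ 2) T) :=
    hsp.pri.mono_set hJI
  have j2 : IntegrableOn (fun t => ∫ x in closedBall a r, gsq (u t) x)
      (Ioo (T - (θ * r) ^ 2) T) := hse.dii.mono_set hJI
  have j3 : IntegrableOn (fun _ : ℝ => A * r) (Ioo (T - (θ * r) ^ 2) T) :=
    integrableOn_const (by simp)
  have j4 : IntegrableOn (fun t => C * (θ ^ 4 * osc a r (p t) + 3 / 2 * (A * r + r ^ 2 *
      ∫ x in closedBall a r, gsq (u t) x))) (Ioo (T - (θ * r) ^ 2) T) :=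
    ((j1.const_mul (θ ^ 4)).add ((j3.add (j2.const_mul (r ^ 2))).const_mul (3 / 2))).const_mul C
  have hpri : IntegrableOn (fun t => osc a (θ * r) (p t)) (Ioo (T - (θ * r) ^ 2) T) := by
    refine Integrable.mono' j4 ?_ ?_
    · exact ((cont_osc h1 hpc a (θ * r)).mono (hJI.trans hI0)).aestronglyMeasurable
        measurableSet_Ioo
    · refine (ae_restrict_iff' measurableSet_Ioo).2 (Filter.Eventually.of_forall fun t ht => ?_)
      rw [Real.norm_of_nonneg (osc_nonneg _ _ _)]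
      exact hpt t (hJI ht)
  refine ⟨hpri, ?_⟩
  have k1 : ∫ t in Ioo (T - (θ * r) ^ 2) T, osc a r (p t) ≤ P * r ^ 3 :=
    (setIntegral_mono_set hsp.pri (Filter.Eventually.of_forall fun t => osc_nonneg a r _)
      hJI.eventuallyLE).trans hsp.pr
  have k2 : ∫ t in Ioo (T - (θ * r) ^ 2) T, ∫ x in closedBall a r, gsq (u t) x ≤ D * r :=
    (setIntegral_mono_set hse.dii (Filter.Eventually.of_forall fun t => hgn t)
      hJI.eventuallyLE).trans hse.di
  have k3 : ∫ t in Ioo (T - (θ * r) ^ 2) T, osc a (θ * r) (p t) ≤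
      C * (θ ^ 4 * (P * r ^ 3) + 3 / 2 * (A * r * (θ * r) ^ 2 + r ^ 2 * (D * r))) := by
    calc ∫ t in Ioo (T - (θ * r) ^ 2) T, osc a (θ * r) (p t)
        ≤ ∫ t in Ioo (T - (θ * r) ^ 2) T, C * (θ ^ 4 * osc a r (p t) + 3 / 2 * (A * r + r ^ 2 *
          ∫ x in closedBall a r, gsq (u t) x)) :=
          setIntegral_mono_on hpri j4 measurableSet_Ioo fun t ht => hpt t (hJI ht)
      _ = C * (θ ^ 4 * (∫ t in Ioo (T - (θ * r) ^ 2) T, osc a r (p t)) + 3 / 2 * (A * r *
          (θ * r) ^ 2 + r ^ 2 * ∫ t in Ioo (T - (θ * r) ^ 2) T,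
            ∫ x in closedBall a r, gsq (u t) x)) := by
          have j5 : IntegrableOn (fun t => A * r + r ^ 2 * ∫ x in closedBall a r, gsq (u t) x)
              (Ioo (T - (θ * r) ^ 2) T) := j3.add (j2.const_mul (r ^ 2))
          rw [integral_const_mul, integral_add (j1.const_mul (θ ^ 4)) (j5.const_mul (3 / 2)),
            integral_const_mul, integral_const_mul, integral_add j3 (j2.const_mul (r ^ 2)),
            setIntegral_const, vol, smul_eq_mul, integral_const_mul]
          ring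
      _ ≤ _ := by
          refine mul_le_mul_of_nonneg_left ?_ hC.le
          have a1 := mul_le_mul_of_nonneg_left k1 (by positivity : (0 : ℝ) ≤ θ ^ 4)
          have a2 := mul_le_mul_of_nonneg_left k2 hr2.le
          linarith
  refine k3.trans ?_
  have e1 : (2 * C * θ * P + 2 * C * (θ ^ 3)⁻¹ * (A + D)) * (θ * r) ^ 3 =
      2 * C * (θ ^ 4 * (P * r ^ 3) + (A + D) * r ^ 3) := by
    have : θ ^ 3 ≠ 0 := by positivity
    field_simp
  rw [e1]
  have b1 : A * r * (θ * r) ^ 2 ≤ A * r * r ^ 2 := mul_le_mul_of_nonneg_left hθr (by positivity)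
  have b2 : 0 ≤ θ ^ 4 * (P * r ^ 3) := by positivity
  have b3 : 0 ≤ (A + D) * r ^ 3 := by positivity
  have b4 : θ ^ 4 * (P * r ^ 3) + 3 / 2 * (A * r * (θ * r) ^ 2 + r ^ 2 * (D * r)) ≤
      2 * (θ ^ 4 * (P * r ^ 3) + (A + D) * r ^ 3) := by nlinarith
  calc C * (θ ^ 4 * (P * r ^ 3) + 3 / 2 * (A * r * (θ * r) ^ 2 + r ^ 2 * (D * r)))
      ≤ C * (2 * (θ ^ 4 * (P * r ^ 3) + (A + D) * r ^ 3)) := mul_le_mul_of_nonneg_left b4 hC.le
    _ = _ := by ring

end Pool.Agent.H1EI.PR
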