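import Pool.Agent.H1EI.Stm
import Pool.Agent.Q67.VD.Basic

/-!
Project EI, stub PT: decay of the oscillation of the pressure at one time.
-/

set_option autoImplicit false
set_option linter.all false

open MeasureTheory Set Metric
open scoped ContDiff
open H459R3.NS Pool.Agent.W268.NS Pool.Agent.Q67.VD
open W221.NS (nsq gsq adv)
open Pool.Agent.Q85.CL (SM DFO LEq LSl DSl WSl Sing Blow StmDecL StmDom)

namespace Pool.Agent.H1EI.PT

lemma ck (a : V) (r : ℝ) : IsCompact (closedBall a r) := isCompact_closedBall a r

lemma io {g : V → ℝ} (hg : Continuous g) (a : V) (r : ℝ) : IntegrableOn g (closedBall a r) :=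
  hg.continuousOn.integrableOn_compact (ck a r)

lemma tr {g : V → ℝ} (hg : Continuous g) (h0 : ∀ x, 0 ≤ g x) (x a : V) (L R : ℝ)
    (hs : closedBall x L ⊆ closedBall a R) :
    ∫ z in closedBall (0 : V) L, g (x + z) ≤ ∫ y in closedBall a R, g y := by
  have h1 := (measurePreserving_add_left (volume : Measure V) x).setIntegral_preimage_emb
    (measurableEmbedding_addLeft x) g (closedBall x L)
  have h2 : (fun z => x + z) ⁻¹' closedBall x L = closedBall 0 L := by
    ext z
    simp [mem_closedBall, dist_eq_norm]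
  rw [h2] at h1
  rw [h1]
  exact setIntegral_mono_set (io hg a R) (Filter.Eventually.of_forall h0)
    (Filter.Eventually.of_forall hs)

lemma tr2 {g : V → ℝ} (hg : Continuous g) (h0 : ∀ x, 0 ≤ g x) (a z : V) (L R : ℝ)
    (hs : closedBall (a + z) L ⊆ closedBall a R) :
    ∫ x in closedBall a L, g (x + z) ≤ ∫ y in closedBall a R, g y := by
  have h1 := (measurePreserving_add_right (volume : Measure V) z).setIntegral_preimage_emb
    (measurableEmbedding_addRight z) g (closedBall (a + z) L)
  have h2 : (fun x => x + z) ⁻¹' closedBall (a + z) L = closedBall a L := by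
    ext x
    simp [mem_closedBall, dist_eq_norm]
  rw [h2] at h1
  rw [h1]
  exact setIntegral_mono_set (io hg a R) (Filter.Eventually.of_forall h0)
    (Filter.Eventually.of_forall hs)

lemma prod_int {g : V → ℝ} (hg : Continuous g) (a : V) (L : ℝ) :
    Integrable (fun p : V × V => |g (p.1 + p.2)| / ‖p.2‖ ^ 2)
      ((volume.restrict (closedBall a L)).prod (volume.restrict (closedBall 0 L))) := by
  obtain ⟨B, hB⟩ := ((ck a L).prod (ck 0 L)).exists_bound_of_continuousOn
    (f := fun p : V × V => g (p.1 + p.2)) (by fun_prop)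
  have hfin : IsFiniteMeasure (volume.restrict (closedBall a L)) :=
    ⟨by rw [Measure.restrict_apply_univ]; exact (ck a L).measure_lt_top⟩
  have h1 : Integrable (fun p : V × V => B * (‖p.2‖ ^ 2)⁻¹)
      ((volume.restrict (closedBall a L)).prod (volume.restrict (closedBall 0 L))) :=
    (integrable_const B).mul_prod (ker_int L)
  refine h1.mono' ?_ ?_
  · refine Measurable.aestronglyMeasurable ?_
    have h1 : Measurable g := hg.measurable
    fun_prop
  · rw [Measure.prod_restrict]
    refine (ae_restrict_iff' ((isClosed_closedBall.measurableSet).prod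
      isClosed_closedBall.measurableSet)).2 (Filter.Eventually.of_forall fun p hp => ?_)
    rw [Real.norm_eq_abs, abs_div, abs_abs, abs_of_nonneg (sq_nonneg ‖p.2‖), div_eq_mul_inv]
    exact mul_le_mul_of_nonneg_right (hB p hp) (by positivity)

lemma pot_int {g : V → ℝ} (hg : Continuous g) (a : V) (L : ℝ) :
    IntegrableOn (pot L g) (closedBall a L) :=
  (prod_int hg a L).integral_prod_left

lemma int_pot_le {g : V → ℝ} (hg : Continuous g) (a : V) (L R : ℝ) (hL : 0 < L) (hR : 2 * L ≤ R) :
    ∫ x in closedBall a L, pot L g x ≤ 24 * L * ∫ x in closedBall a R, |g x| := by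
  have hp := prod_int hg a L
  have h1 : ∫ x in closedBall a L, pot L g x =
      ∫ z in closedBall (0 : V) L, ∫ x in closedBall a L, |g (x + z)| / ‖z‖ ^ 2 := by
    unfold pot
    exact integral_integral_swap (f := fun x z => |g (x + z)| / ‖z‖ ^ 2) hp
  rw [h1]
  have h2 : ∫ z in closedBall (0 : V) L, (‖z‖ ^ 2)⁻¹ * (∫ x in closedBall a R, |g x|) =
      24 * L * ∫ x in closedBall a R, |g x| := by
    rw [integral_mul_const, ker_val hL.le]
  rw [← h2]
  refine setIntegral_mono_on ?_ ((ker_int L).mul_const _) isClosed_closedBall.measurableSet ?_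
  · exact hp.integral_prod_right
  · intro z hz
    have e : ∫ x in closedBall a L, |g (x + z)| / ‖z‖ ^ 2 =
        (‖z‖ ^ 2)⁻¹ * ∫ x in closedBall a L, |g (x + z)| := by
      rw [← integral_const_mul]
      congr 1
      funext x
      rw [div_eq_inv_mul]
    rw [e]
    refine mul_le_mul_of_nonneg_left ?_ (by positivity)
    refine tr2 hg.abs (fun _ => abs_nonneg _) a z L R ?_
    apply closedBall_subset_closedBall'
    rw [dist_eq_norm, add_sub_cancel_left]
    have : ‖z‖ ≤ L := by simpa using hz
    linarith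

lemma far_le {g : V → ℝ} (hg : Continuous g) (a x : V) (L R : ℝ) (hL : 0 < L) (hR : 2 * L ≤ R)
    (hx : x ∈ closedBall a L) :
    far L L g x ≤ 8 / L ^ 3 * ∫ y in closedBall a R, |g y| := by
  have hsub : closedBall x L ⊆ closedBall a R := by
    apply closedBall_subset_closedBall'
    have := mem_closedBall.1 hx
    linarith
  have h0 := tr hg.abs (fun _ => abs_nonneg _) x a L R hsub
  have hm : MeasurableSet (closedBall (0 : V) L \ closedBall 0 (L / 2)) :=
    isClosed_closedBall.measurableSet.diff isClosed_closedBall.measurableSet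
  have hgi : IntegrableOn (fun z => |g (x + z)|) (closedBall (0 : V) L) :=
    io (by fun_prop) 0 L
  have hle : ∀ z ∈ closedBall (0 : V) L \ closedBall 0 (L / 2),
      |g (x + z)| / ‖z‖ ^ 3 ≤ 8 / L ^ 3 * |g (x + z)| := by
    intro z hz
    have hz2 : L / 2 < ‖z‖ := by
      have := hz.2
      simpa using this
    have h3 : L ^ 3 / 8 ≤ ‖z‖ ^ 3 := by
      have := pow_le_pow_left₀ (by positivity) hz2.le 3
      calc L ^ 3 / 8 = (L / 2) ^ 3 := by ring
        _ ≤ _ := this
    have hz0 : 0 < ‖z‖ := by linarith
    rw [div_le_iff₀ (by positivity)]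
    have h4 : 1 ≤ 8 / L ^ 3 * ‖z‖ ^ 3 := by
      calc (1 : ℝ) = 8 / L ^ 3 * (L ^ 3 / 8) := by field_simp
        _ ≤ _ := mul_le_mul_of_nonneg_left h3 (by positivity)
    calc |g (x + z)| = |g (x + z)| * 1 := (mul_one _).symm
      _ ≤ |g (x + z)| * (8 / L ^ 3 * ‖z‖ ^ 3) := mul_le_mul_of_nonneg_left h4 (abs_nonneg _)
      _ = _ := by ring
  have hint2 : IntegrableOn (fun z => 8 / L ^ 3 * |g (x + z)|)
      (closedBall (0 : V) L \ closedBall 0 (L / 2)) :=
    (hgi.mono_set diff_subset).const_mul _
  have hint1 : IntegrableOn (fun z => |g (x + z)| / ‖z‖ ^ 3)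
      (closedBall (0 : V) L \ closedBall 0 (L / 2)) := by
    refine hint2.mono' ?_ ?_
    · refine Measurable.aestronglyMeasurable ?_
      have h1 : Measurable g := hg.measurable
      fun_prop
    · refine (ae_restrict_iff' hm).2 (Filter.Eventually.of_forall fun z hz => ?_)
      rw [Real.norm_eq_abs, abs_of_nonneg (by positivity)]
      exact hle z hz
  unfold far
  calc ∫ z in closedBall (0 : V) L \ closedBall 0 (L / 2), |g (x + z)| / ‖z‖ ^ 3
      ≤ ∫ z in closedBall (0 : V) L \ closedBall 0 (L / 2), 8 / L ^ 3 * |g (x + z)| :=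
        setIntegral_mono_on hint1 hint2 hm hle
    _ = 8 / L ^ 3 * ∫ z in closedBall (0 : V) L \ closedBall 0 (L / 2), |g (x + z)| :=
        integral_const_mul _ _
    _ ≤ 8 / L ^ 3 * ∫ z in closedBall (0 : V) L, |g (x + z)| := by
        refine mul_le_mul_of_nonneg_left ?_ (by positivity)
        exact setIntegral_mono_set hgi (Filter.Eventually.of_forall fun _ => abs_nonneg _)
          (Filter.Eventually.of_forall diff_subset)
    _ ≤ _ := mul_le_mul_of_nonneg_left h0 (by positivity)

lemma osc_le {f : V → ℝ} (hf : Continuous f) (a : V) (s c : ℝ) (hs : 0 < s) :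
    osc a s f ≤ 2 * ∫ x in closedBall a s, |f x - c| := by
  unfold osc
  have hv : volume.real (closedBall a s) = (2 * s) ^ 3 := vol_ball_real a hs.le
  have hv0 : 0 < volume.real (closedBall a s) := by rw [hv]; positivity
  have hfi := io hf a s
  have hci : IntegrableOn (fun _ : V => c) (closedBall a s) := io continuous_const a s
  set A := ⨍ y in closedBall a s, f y with hA
  have h1 : A - c = (volume.real (closedBall a s))⁻¹ * ∫ x in closedBall a s, (f x - c) := by
    rw [hA, setAverage_eq, integral_sub hfi hci, setIntegral_const, smul_eq_mul, smul_eq_mul,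
      mul_sub, ← mul_assoc (volume.real _)⁻¹, inv_mul_cancel₀ hv0.ne', one_mul]
  have h2 : volume.real (closedBall a s) * |A - c| ≤ ∫ x in closedBall a s, |f x - c| := by
    rw [h1, abs_mul, abs_of_nonneg (by positivity : (0 : ℝ) ≤ (volume.real (closedBall a s))⁻¹),
      ← mul_assoc, mul_inv_cancel₀ hv0.ne', one_mul]
    exact abs_integral_le_integral_abs
  have i1 : IntegrableOn (fun x => |f x - c|) (closedBall a s) := io (by fun_prop) a s
  have i2 : IntegrableOn (fun _ : V => |A - c|) (closedBall a s) := io continuous_const a s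
  calc ∫ x in closedBall a s, |f x - A| ≤ ∫ x in closedBall a s, (|f x - c| + |A - c|) := by
        refine integral_mono (io (by fun_prop) a s) (i1.add i2) fun x => ?_
        have : f x - A = (f x - c) - (A - c) := by ring
        simp only
        rw [this]
        exact abs_sub _ _
    _ = (∫ x in closedBall a s, |f x - c|) + volume.real (closedBall a s) * |A - c| := by
        rw [integral_add i1 i2, setIntegral_const, smul_eq_mul]
    _ ≤ _ := by linarith

lemma grad {f : V → ℝ} (hf : ContDiff ℝ ∞ f) (a : V) (L S : ℝ) (hL : 0 ≤ L) (hS : 0 ≤ S)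
    (h : ∀ x ∈ closedBall a L, ∀ j, |pd j f x| ≤ S) (x : V) (hx : x ∈ closedBall a L) :
    |f x - f a| ≤ 3 * S * ‖x - a‖ := by
  have hd : Differentiable ℝ f := hf.differentiable (by norm_cast)
  have hb : ∀ y ∈ closedBall a L, ‖fderiv ℝ f y‖ ≤ 3 * S := by
    intro y hy
    refine ContinuousLinearMap.opNorm_le_bound _ (by positivity) fun v => ?_
    have e : fderiv ℝ f y v = ∑ j, v j * pd j f y := by
      have e1 : v = ∑ j, v j • (Pi.single j 1 : V) := by
        conv_lhs => rw [← Finset.univ_sum_single v]
        refine Finset.sum_congr rfl fun j _ => ?_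
        rw [← Pi.single_smul, smul_eq_mul, mul_one]
      conv_lhs => rw [e1, map_sum]
      refine Finset.sum_congr rfl fun j _ => ?_
      rw [map_smul, smul_eq_mul]
      rfl
    rw [e, Real.norm_eq_abs]
    calc |∑ j, v j * pd j f y| ≤ ∑ j, |v j * pd j f y| := Finset.abs_sum_le_sum_abs _ _
      _ ≤ ∑ _j : Fin 3, ‖v‖ * S := by
          refine Finset.sum_le_sum fun j _ => ?_
          rw [abs_mul]
          exact mul_le_mul (norm_le_pi_norm v j) (h y hy j) (abs_nonneg _) (norm_nonneg _)
      _ = 3 * S * ‖v‖ := by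
          rw [Finset.sum_const, Finset.card_univ, Fintype.card_fin, nsmul_eq_mul]
          push_cast
          ring
  have := (convex_closedBall a L).norm_image_sub_le_of_norm_fderiv_le (f := f) (C := 3 * S)
    (fun y _ => hd y) hb (mem_closedBall_self hL) hx
  simpa [Real.norm_eq_abs] using this

theorem t (hdec : StmDecL) : Pool.Agent.H1EI.PT := by
  obtain ⟨C, hC, h⟩ := hdec
  refine ⟨24588 * C, by positivity, ?_⟩
  intro r θ a f G hr hθ hθ4 hf hG hlap
  obtain ⟨L, hL⟩ : ∃ L, L = r / 4 := ⟨_, rfl⟩
  have hL0 : 0 < L := by rw [hL]; positivity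
  obtain ⟨m, hm⟩ : ∃ m, m = ⨍ y in closedBall a r, f y := ⟨_, rfl⟩
  have hpd : ∀ j, pd j (fun x => f x - m) = pd j f := by
    intro j
    funext x
    unfold pd
    rw [fderiv_sub_const]
  obtain ⟨f₂, hf₂, h1, h2⟩ := h L L (fun x => f x - m) G a hL0 le_rfl (hf.sub contDiff_const) hG
    (by
      intro x hx
      have hx' : x ∈ ball a r := by
        rw [mem_ball] at hx ⊢
        linarith
      rw [← hlap x hx']
      unfold lap
      refine Finset.sum_congr rfl fun j _ => ?_
      rw [hpd])
  obtain ⟨A, hA⟩ : ∃ A : Fin 3 → ℝ, ∀ i, A i = ∫ x in closedBall a r, |G i x| := ⟨_, fun _ => rfl⟩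
  have hA0 : ∀ i, 0 ≤ A i := fun i => by rw [hA]; exact integral_nonneg fun _ => abs_nonneg _
  have hAs : ∫ x in closedBall a r, ∑ i, |G i x| = ∑ i, A i := by
    rw [integral_finset_sum _ fun i _ => io ((hG i).continuous.abs) a r]
    exact Finset.sum_congr rfl fun i _ => (hA i).symm
  obtain ⟨O, hO⟩ : ∃ O, O = osc a r f := ⟨_, rfl⟩
  have hO' : O = ∫ x in closedBall a r, |f x - m| := by rw [hO, hm]; rfl
  have hO0 : 0 ≤ O := by rw [hO']; exact integral_nonneg fun _ => abs_nonneg _
  have hAS0 : 0 ≤ ∑ i, A i := Finset.sum_nonneg fun i _ => hA0 i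
  obtain ⟨S, hS⟩ : ∃ S, S = C * (8 / L ^ 3 * (∑ i, A i) + O / L ^ 4) := ⟨_, rfl⟩
  have hS0 : 0 ≤ S := by rw [hS]; positivity
  have h2L : 2 * L ≤ r := by rw [hL]; linarith
  have hgr : ∀ x ∈ closedBall a L, ∀ j, |pd j f₂ x| ≤ S := by
    intro x hx j
    refine (h2 x hx j).trans ?_
    rw [hS]
    refine mul_le_mul_of_nonneg_left (add_le_add ?_ ?_) hC.le
    · rw [Finset.mul_sum]
      refine Finset.sum_le_sum fun i _ => ?_
      rw [hA]
      exact far_le (hG i).continuous a x L r hL0 h2L hx
    · refine div_le_div_of_nonneg_right ?_ (by positivity)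
      rw [hO']
      have hc : Continuous fun x => |f x - m| := (hf.continuous.sub continuous_const).abs
      refine tr hc (fun _ => abs_nonneg _) x a L r ?_
      apply closedBall_subset_closedBall'
      have := mem_closedBall.1 hx
      linarith
  have hθr : θ * r ≤ L := by
    rw [hL]
    nlinarith
  have hθr0 : 0 < θ * r := by positivity
  have hsub : closedBall a (θ * r) ⊆ closedBall a L := closedBall_subset_closedBall hθr
  have hpi : ∀ i, IntegrableOn (pot L (G i)) (closedBall a (θ * r)) := fun i =>
    (pot_int (hG i).continuous a L).mono_set hsub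
  have hsi : IntegrableOn (fun x => ∑ i, pot L (G i) x) (closedBall a (θ * r)) :=
    integrable_finset_sum _ fun i _ => hpi i
  have hci : IntegrableOn (fun _ : V => 3 * S * (θ * r)) (closedBall a (θ * r)) :=
    io continuous_const _ _
  have key : ∫ x in closedBall a (θ * r), |f x - (m + f₂ a)| ≤
      C * (24 * L * ∑ i, A i) + (2 * (θ * r)) ^ 3 * (3 * S * (θ * r)) := by
    calc ∫ x in closedBall a (θ * r), |f x - (m + f₂ a)|
        ≤ ∫ x in closedBall a (θ * r), (C * (∑ i, pot L (G i) x) + 3 * S * (θ * r)) := by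
          refine setIntegral_mono_on ?_ ((hsi.const_mul C).add hci)
            isClosed_closedBall.measurableSet ?_
          · have hc : Continuous fun x => |f x - (m + f₂ a)| :=
              (hf.continuous.sub continuous_const).abs
            exact io hc _ _
          · intro x hx
            have e : f x - (m + f₂ a) = (f x - m - f₂ x) + (f₂ x - f₂ a) := by ring
            rw [e]
            refine (abs_add_le _ _).trans (add_le_add (h1 x (hsub hx)) ?_)
            refine (grad hf₂ a L S hL0.le hS0 hgr x (hsub hx)).trans ?_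
            refine mul_le_mul_of_nonneg_left ?_ (by positivity)
            rw [← dist_eq_norm]
            exact mem_closedBall.1 hx
      _ = C * (∑ i, ∫ x in closedBall a (θ * r), pot L (G i) x) +
          (2 * (θ * r)) ^ 3 * (3 * S * (θ * r)) := by
          rw [integral_add (hsi.const_mul C) hci, integral_const_mul,
            integral_finset_sum _ fun i _ => hpi i, setIntegral_const, smul_eq_mul,
            vol_ball_real a hθr0.le]
      _ ≤ _ := by
          refine add_le_add (mul_le_mul_of_nonneg_left ?_ hC.le) le_rfl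
          rw [Finset.mul_sum]
          refine Finset.sum_le_sum fun i _ => ?_
          refine (setIntegral_mono_set (pot_int (hG i).continuous a L)
            (Filter.Eventually.of_forall fun x => pot_nonneg _ _ _)
            (Filter.Eventually.of_forall hsub)).trans ?_
          rw [hA]
          exact int_pot_le (hG i).continuous a L r hL0 h2L
  have h3 := osc_le hf.continuous a (θ * r) (m + f₂ a) hθr0
  rw [hAs, ← hO]
  refine h3.trans ((mul_le_mul_of_nonneg_left key (by norm_num : (0 : ℝ) ≤ 2)).trans ?_)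
  have e1 : 2 * (C * (24 * L * ∑ i, A i) + (2 * (θ * r)) ^ 3 * (3 * S * (θ * r))) =
      12 * C * (r * ∑ i, A i) + θ ^ 4 * (24576 * C * (r * ∑ i, A i)) + 12288 * C * (θ ^ 4 * O) := by
    rw [hS, hL]
    field_simp
    ring
  rw [e1]
  have hθ1 : θ ^ 4 ≤ 1 := pow_le_one₀ hθ.le (by linarith)
  have h5 : 0 ≤ 24576 * C * (r * ∑ i, A i) := by positivity
  have h6 : 0 ≤ C * (θ ^ 4 * O) := by positivity
  nlinarith

end Pool.Agent.H1EI.PT
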