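import Pool.Agent.H1EI.Stm

/-!
Project EI: continuity of the integrals over spheres (helper45).
-/

set_option autoImplicit false

open MeasureTheory Set Metric
open scoped ContDiff
open H459R3.NS Pool.Agent.W268.NS Pool.Agent.Q67.VD

namespace Pool.Agent.H1EI.SC

theorem t : Pool.Agent.H1EI.SC := by
  intro T a f hf
  have hopen : IsOpen (Ioo (0 : ℝ) T ×ˢ (univ : Set ℝ)) := isOpen_Ioo.prod isOpen_univ
  have : LocallyCompactSpace (Ioo (0 : ℝ) T ×ˢ (univ : Set ℝ) : Set (ℝ × ℝ)) :=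
    hopen.locallyCompactSpace
  have h1 : Continuous fun q : (Ioo (0 : ℝ) T ×ˢ (univ : Set ℝ) : Set (ℝ × ℝ)) ×
      sphere (0 : EuclideanSpace ℝ (Fin 3)) 1 =>
        f q.1.1.1 (fun i => a i + q.1.1.2 * q.2.1 i) := by
    have h0 : Continuous fun q : (Ioo (0 : ℝ) T ×ˢ (univ : Set ℝ) : Set (ℝ × ℝ)) ×
        sphere (0 : EuclideanSpace ℝ (Fin 3)) 1 =>
          ((q.1.1.1, (fun i => a i + q.1.1.2 * q.2.1 i)) : ℝ × V) := by
      refine Continuous.prodMk (by fun_prop) ?_
      refine continuous_pi fun i => ?_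
      refine continuous_const.add (Continuous.mul (by fun_prop) ?_)
      have : Continuous fun q : (Ioo (0 : ℝ) T ×ˢ (univ : Set ℝ) : Set (ℝ × ℝ)) ×
        sphere (0 : EuclideanSpace ℝ (Fin 3)) 1 => q.2.1 := by fun_prop
      exact (EuclideanSpace.proj (𝕜 := ℝ) i).continuous.comp this
    exact hf.comp_continuous h0 fun q => ⟨q.1.2.1, mem_univ _⟩
  have h2 := continuous_parametric_integral_of_continuous
    (μ := (volume : Measure (EuclideanSpace ℝ (Fin 3))).toSphere)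
    (f := fun (q : (Ioo (0 : ℝ) T ×ˢ (univ : Set ℝ) : Set (ℝ × ℝ)))
      (σ : sphere (0 : EuclideanSpace ℝ (Fin 3)) 1) => f q.1.1 (fun i => a i + q.1.2 * σ.1 i))
    h1 isCompact_univ
  rw [continuousOn_iff_continuous_restrict]
  have h3 : Continuous fun q : (Ioo (0 : ℝ) T ×ˢ (univ : Set ℝ) : Set (ℝ × ℝ)) =>
      q.1.2 ^ 2 * ∫ σ in (univ : Set (sphere (0 : EuclideanSpace ℝ (Fin 3)) 1)),
        f q.1.1 (fun i => a i + q.1.2 * σ.1 i)
        ∂(volume : Measure (EuclideanSpace ℝ (Fin 3))).toSphere :=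
    Continuous.mul (by fun_prop) h2
  refine h3.congr fun q => ?_
  simp only [Measure.restrict_univ, restrict_apply, sph]

end Pool.Agent.H1EI.SC
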