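import Pool.Agent.H1EI.Stm
import Pool.Agent.Q284.CL.Dom

/-!
Project EI, stub SCALX: the scaling of the excess.
-/

set_option autoImplicit false

open MeasureTheory Set Metric Filter Topology
open scoped ContDiff
open H459R3.NS Pool.Agent.W268.NS Pool.Agent.Q67.VD
open W221.NS (nsq gsq adv)
open Pool.Agent.Q85.CL (SM DFO LEq LSl DSl WSl Sing Blow StmDecL StmDom)
open Pool.Agent.Q284.CL (pd_evD pd_cmulD)

namespace Pool.Agent.H1EI.SCALX

/-- Change of variables. -/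
lemma lint_scale {ν : ℝ} (hν : 0 < ν) (F : ℝ → ENNReal) (x y : ℝ) :
    ∫⁻ s in Ioo (ν * x) (ν * y), F s = ENNReal.ofReal ν * ∫⁻ t in Ioo x y, F (ν * t) := by
  have hvol : ENNReal.ofReal |ν| • Measure.map (ν * ·) (volume : Measure ℝ) = volume :=
    Real.smul_map_volume_mul_left hν.ne'
  have hemb : MeasurableEmbedding (fun t : ℝ => ν * t) :=
    (Homeomorph.mulLeft₀ ν hν.ne').measurableEmbedding
  have hpre : (fun t : ℝ => ν * t) ⁻¹' Ioo (ν * x) (ν * y) = Ioo x y := by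
    ext t
    simp only [mem_preimage, mem_Ioo, mul_lt_mul_iff_right₀ hν]
  calc ∫⁻ s in Ioo (ν * x) (ν * y), F s
      = ∫⁻ s in Ioo (ν * x) (ν * y), F s
          ∂(ENNReal.ofReal |ν| • Measure.map (ν * ·) (volume : Measure ℝ)) := by rw [hvol]
    _ = ENNReal.ofReal ν * ∫⁻ s in Ioo (ν * x) (ν * y), F s
          ∂(Measure.map (ν * ·) (volume : Measure ℝ)) := by
        rw [Measure.restrict_smul, lintegral_smul_measure, abs_of_pos hν, smul_eq_mul]
    _ = _ := by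
        rw [hemb.restrict_map, hemb.lintegral_map, hpre]

lemma mem_ball_sph {a : V} {R ρ : ℝ} (h0 : 0 ≤ ρ) (h : ρ < R)
    (σ : sphere (0 : EuclideanSpace ℝ (Fin 3)) 1) : (fun i => a i + ρ * σ.1 i) ∈ ball a R := by
  rw [mem_ball, dist_pi_lt_iff (h0.trans_lt h)]
  intro i
  rw [Real.dist_eq, add_sub_cancel_left, abs_mul, abs_of_nonneg h0]
  have h1 : |σ.1 i| ≤ 1 := by
    have h2 := PiLp.norm_apply_le σ.1 i
    rw [mem_sphere_zero_iff_norm.1 σ.2] at h2
    exact h2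
  calc ρ * |σ.1 i| ≤ ρ * 1 := mul_le_mul_of_nonneg_left h1 h0
    _ < R := by linarith

lemma sph_congr {a : V} {R ρ : ℝ} (h0 : 0 ≤ ρ) (h : ρ < R) {f g : V → ℝ} (c : ℝ)
    (hfg : ∀ x ∈ ball a R, f x = c * g x) : sph a ρ f = c * sph a ρ g := by
  unfold sph
  have : (fun σ : sphere (0 : EuclideanSpace ℝ (Fin 3)) 1 => f (fun i => a i + ρ * σ.1 i)) =
      fun σ => c * g (fun i => a i + ρ * σ.1 i) := by
    funext σ
    exact hfg _ (mem_ball_sph h0 h σ)
  rw [this, integral_const_mul]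
  ring

theorem t (hD : DOM2) : Pool.Agent.H1EI.SCALX := by
  intro ν T E Ω u p hν hT h a R hR hsub
  obtain ⟨E', v, q, hL, heq⟩ := hD ν T E Ω u p hν hT h a R hR hsub
  refine ⟨E', v, q, hL, ?_, ?_⟩
  · intro δ ε r hr hrR hrT hexc
    have hcl : closedBall a r ⊆ ball a R := closedBall_subset_ball hrR
    have hgs : ∀ t ∈ Ioo 0 T, ∀ x ∈ ball a R, gsq (v (ν * t)) x = (ν⁻¹) ^ 2 * gsq (u t) x := by
      intro t ht x hx
      have hpd : ∀ i j, pd j (fun y => v (ν * t) y i) x = ν⁻¹ * pd j (fun y => u t y i) x := by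
        intro i j
        have hev : (fun y => v (ν * t) y i) =ᶠ[𝓝 x] fun y => ν⁻¹ * u t y i := by
          filter_upwards [isOpen_ball.mem_nhds hx] with y hy
          rw [(heq t ht y hy).1, Pi.smul_apply, smul_eq_mul]
        rw [(pd_evD hev j).eq_of_nhds, pd_cmulD]
      unfold W221.NS.gsq
      simp only [hpd, mul_pow, Finset.mul_sum]
    have hns : ∀ t ∈ Ioo 0 T, ∀ x ∈ ball a R, nsq (v (ν * t)) x = (ν⁻¹) ^ 2 * nsq (u t) x := by
      intro t ht x hx
      unfold W221.NS.nsq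
      simp only [(heq t ht x hx).1, Pi.smul_apply, smul_eq_mul, mul_pow, Finset.mul_sum]
    have hinw : ∀ t ∈ Ioo 0 T, ∀ x ∈ ball a R, inw a (v (ν * t)) x = ν⁻¹ * inw a (u t) x := by
      intro t ht x hx
      unfold inw
      rw [mul_neg, Finset.mul_sum]
      refine congrArg _ (Finset.sum_congr rfl fun i _ => ?_)
      rw [(heq t ht x hx).1, Pi.smul_apply, smul_eq_mul]
      ring
    have hav : ∀ t ∈ Ioo 0 T, (⨍ y in closedBall a r, q (ν * t) y) =
        (ν⁻¹) ^ 2 * ⨍ y in closedBall a r, p t y := by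
      intro t ht
      rw [setAverage_eq, setAverage_eq, setIntegral_congr_fun measurableSet_closedBall
        (fun x hx => (heq t ht x (hcl hx)).2), integral_const_mul, smul_eq_mul, smul_eq_mul]
      ring
    have hex : ∀ t ∈ Ioo 0 T, ∀ ρ ∈ Ioo 0 r,
        exc 1 δ ε (ν * T - ν * t) (⨍ y in closedBall a r, q (ν * t) y) a (v (ν * t)) (q (ν * t)) ρ
          = (ν⁻¹) ^ 3 * exc ν δ ε (T - t) (⨍ y in closedBall a r, p t y) a (u t) (p t) ρ := by
      intro t ht ρ hρ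
      have hA : sph a ρ (fun x => inw a (v (ν * t)) x * (nsq (v (ν * t)) x + 2 * (q (ν * t) x -
          (ν⁻¹) ^ 2 * ⨍ y in closedBall a r, p t y))) = (ν⁻¹) ^ 3 * sph a ρ (fun x =>
            inw a (u t) x * (nsq (u t) x + 2 * (p t x - ⨍ y in closedBall a r, p t y))) := by
        refine sph_congr hρ.1.le (hρ.2.trans hrR) _ fun x hx => ?_
        rw [hns t ht x hx, hinw t ht x hx, (heq t ht x hx).2]
        ring
      have hB : sph a ρ (fun x => (2 - δ) * nsq (v (ν * t)) x +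
          (4 - δ) * (1 * (ν * T - ν * t)) * gsq (v (ν * t)) x +
          ε * |q (ν * t) x - (ν⁻¹) ^ 2 * ⨍ y in closedBall a r, p t y|) =
          (ν⁻¹) ^ 2 * sph a ρ (fun x => (2 - δ) * nsq (u t) x +
          (4 - δ) * (ν * (T - t)) * gsq (u t) x +
          ε * |p t x - ⨍ y in closedBall a r, p t y|) := by
        refine sph_congr hρ.1.le (hρ.2.trans hrR) _ fun x hx => ?_
        have hab : |(ν⁻¹) ^ 2 * p t x - (ν⁻¹) ^ 2 * ⨍ y in closedBall a r, p t y| =
            (ν⁻¹) ^ 2 * |p t x - ⨍ y in closedBall a r, p t y| := by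
          rw [← mul_sub ((ν⁻¹) ^ 2), abs_mul, abs_of_nonneg (by positivity : (0 : ℝ) ≤ (ν⁻¹) ^ 2)]
        rw [hns t ht x hx, hgs t ht x hx, (heq t ht x hx).2, hab]
        ring
      unfold exc
      rw [mul_max_of_nonneg _ _ (by positivity : (0 : ℝ) ≤ (ν⁻¹) ^ 3), mul_zero, hav t ht]
      congr 1
      rw [hA, hB]
      have h32 : (ν⁻¹) ^ 3 * ν = (ν⁻¹) ^ 2 := by
        field_simp
      rw [mul_sub ((ν⁻¹) ^ 3), ← mul_assoc ((ν⁻¹) ^ 3) ν, h32, one_mul]
    have hT0 : 0 ≤ T - r ^ 2 / ν := by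
      rw [sub_nonneg, div_le_iff₀ hν]
      linarith
    unfold ExcLe at hexc ⊢
    have hset : Ioo (ν * T - r ^ 2 / 1) (ν * T) = Ioo (ν * (T - r ^ 2 / ν)) (ν * T) := by
      congr 1
      rw [mul_sub, mul_div_cancel₀ _ hν.ne', div_one]
    rw [hset, lint_scale hν]
    have h2 : ∀ t ∈ Ioo (T - r ^ 2 / ν) T, (∫⁻ ρ in Ioo 0 r, ENNReal.ofReal
        (exc 1 δ ε (ν * T - ν * t) (⨍ y in closedBall a r, q (ν * t) y) a (v (ν * t))
          (q (ν * t)) ρ)) = ENNReal.ofReal ((ν⁻¹) ^ 3) * ∫⁻ ρ in Ioo 0 r, ENNReal.ofReal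
        (exc ν δ ε (T - t) (⨍ y in closedBall a r, p t y) a (u t) (p t) ρ) := by
      intro t ht
      have ht' : t ∈ Ioo 0 T := ⟨hT0.trans_lt ht.1, ht.2⟩
      rw [← lintegral_const_mul' _ _ ENNReal.ofReal_ne_top]
      refine setLIntegral_congr_fun measurableSet_Ioo fun ρ hρ => ?_
      rw [hex t ht' ρ hρ, ENNReal.ofReal_mul (by positivity)]
    rw [setLIntegral_congr_fun measurableSet_Ioo h2, lintegral_const_mul' _ _ ENNReal.ofReal_ne_top,
      ← mul_assoc, ← ENNReal.ofReal_mul hν.le]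
    refine (mul_le_mul_right hexc _).trans ?_
    rw [← ENNReal.ofReal_mul (by positivity)]
    refine le_of_eq (congrArg _ ?_)
    field_simp
  · intro hs B δ hδ
    obtain ⟨t, ht, htδ, x, hx, hB⟩ := hs (ν * B) (min (δ / ν) (min δ (R / 2)))
      (lt_min (div_pos hδ hν) (lt_min hδ (by linarith)))
    have hxb : x ∈ ball a R := by
      rw [mem_ball, dist_eq_norm]
      have := hx.trans ((min_le_right _ _).trans (min_le_right _ _))
      linarith
    refine ⟨ν * t, ⟨mul_pos hν ht.1, mul_lt_mul_of_pos_left ht.2 hν⟩, ?_, x,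
      hx.trans ((min_le_right _ _).trans (min_le_left _ _)), ?_⟩
    · have h1 : T - δ / ν < t := lt_of_le_of_lt (by linarith [min_le_left (δ / ν) (min δ (R / 2))]) htδ
      have h2 := mul_lt_mul_of_pos_left h1 hν
      rwa [mul_sub, mul_div_cancel₀ _ hν.ne'] at h2
    · rw [(heq t ht x hxb).1, norm_smul, Real.norm_eq_abs, abs_of_pos (inv_pos.2 hν),
        ← div_eq_inv_mul, lt_div_iff₀ hν, mul_comm]
      exact hB

end Pool.Agent.H1EI.SCALX
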