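import Pool.Agent.H1EI.Stm

/-!
Project EI, stub SPHX: from spheres to superpositions of spheres. By helper13 (joint continuity as in
`ONE.lean` of helper92).
-/

set_option autoImplicit false

open MeasureTheory Set Metric Filter Topology
open scoped ContDiff
open H459R3.NS Pool.Agent.W268.NS Pool.Agent.Q67.VD
open W221.NS (nsq gsq adv)
open Pool.Agent.Q85.CL (SM DFO LEq LSl DSl WSl Sing Blow StmDecL StmDom)

namespace Pool.Agent.H1EI.SPHX

open Pool.Agent.H1EI

theorem pd_jc {T : ℝ} {F : ℝ → V → ℝ}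
    (hF : ContDiffOn ℝ ∞ (fun z : ℝ × V => F z.1 z.2) (Ioo 0 T ×ˢ univ)) (j : Fin 3) :
    ContinuousOn (fun z : ℝ × V => pd j (F z.1) z.2) (Ioo 0 T ×ˢ univ) := by
  have ho : IsOpen (Ioo 0 T ×ˢ (univ : Set V)) := isOpen_Ioo.prod isOpen_univ
  have h1 := hF.continuousOn_fderiv_of_isOpen ho (by norm_num)
  have h2 : ContinuousOn (fun z : ℝ × V => fderiv ℝ (fun z : ℝ × V => F z.1 z.2) z
      ((0 : ℝ), (Pi.single j 1 : V))) (Ioo 0 T ×ˢ univ) := h1.clm_apply continuousOn_const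
  refine h2.congr fun z hz => ?_
  have h3 : HasFDerivAt (fun z : ℝ × V => F z.1 z.2)
      (fderiv ℝ (fun z : ℝ × V => F z.1 z.2) z) z :=
    ((hF.contDiffAt (ho.mem_nhds hz)).differentiableAt (by norm_num)).hasFDerivAt
  have h4 : HasFDerivAt (fun y : V => F z.1 y)
      ((fderiv ℝ (fun z : ℝ × V => F z.1 z.2) z).comp (ContinuousLinearMap.inr ℝ ℝ V)) z.2 :=
    HasFDerivAt.comp (g := fun z : ℝ × V => F z.1 z.2) (f := fun y : V => (z.1, y)) z.2 h3
      (hasFDerivAt_prodMk_right z.1 z.2)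
  unfold pd
  rw [h4.fderiv]
  simp

section sol

variable {T : ℝ} {O : Set V} {u : ℝ → V → V} {p : ℝ → V → ℝ}

theorem ui (h : LEq T O u p) (i : Fin 3) :
    ContDiffOn ℝ ∞ (fun z : ℝ × V => u z.1 z.2 i) (Ioo 0 T ×ˢ univ) :=
  contDiffOn_pi.1 h.smooth_u i

theorem nsq_jc (h : LEq T O u p) :
    ContinuousOn (fun z : ℝ × V => nsq (u z.1) z.2) (Ioo 0 T ×ˢ univ) := by
  unfold W221.NS.nsq
  exact continuousOn_finsetSum _ fun i _ => (ui h i).continuousOn.pow 2

theorem gsq_jc (h : LEq T O u p) :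
    ContinuousOn (fun z : ℝ × V => gsq (u z.1) z.2) (Ioo 0 T ×ˢ univ) := by
  unfold W221.NS.gsq
  exact continuousOn_finsetSum _ fun i _ => continuousOn_finsetSum _ fun j _ =>
    (pd_jc (F := fun t y => u t y i) (ui h i) j).pow 2

theorem inw_jc (h : LEq T O u p) (a : V) :
    ContinuousOn (fun z : ℝ × V => inw a (u z.1) z.2) (Ioo 0 T ×ˢ univ) := by
  unfold inw
  refine ContinuousOn.neg ?_
  refine continuousOn_finsetSum _ fun i _ => ContinuousOn.mul ?_ (ui h i).continuousOn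
  exact (Continuous.sub ((continuous_apply i).comp continuous_snd) continuous_const).continuousOn

theorem slice_c {f : ℝ → V → ℝ} (hf : ContinuousOn (fun z : ℝ × V => f z.1 z.2) (Ioo 0 T ×ˢ univ))
    {t : ℝ} (ht : t ∈ Ioo 0 T) : Continuous (f t) := by
  rw [← continuousOn_univ]
  exact hf.comp (f := fun x : V => (t, x)) (by fun_prop) fun x _ => ⟨ht, mem_univ _⟩

theorem slice_r {f : ℝ → ℝ → ℝ} (hf : ContinuousOn (fun z : ℝ × ℝ => f z.1 z.2) (Ioo 0 T ×ˢ univ))
    {t : ℝ} (ht : t ∈ Ioo 0 T) : Continuous (f t) := by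
  rw [← continuousOn_univ]
  exact hf.comp (f := fun x : ℝ => (t, x)) (by fun_prop) fun x _ => ⟨ht, mem_univ _⟩

theorem avg_c (hCONT : CONT) (h : LEq T O u p) (a : V) (r : ℝ) :
    ContinuousOn (fun t => ⨍ y in closedBall a r, p t y) (Ioo 0 T) := by
  have hp : ContinuousOn (fun z : ℝ × V => p z.1 z.2) (Ioo 0 T ×ˢ univ) := h.smooth_p.continuousOn
  have h1 := hCONT T p (closedBall a r) (isCompact_closedBall a r) hp
  have e : (fun t => ⨍ y in closedBall a r, p t y) = fun t =>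
      (volume.real (closedBall a r))⁻¹ * ∫ y in closedBall a r, p t y := by
    funext t
    rw [setAverage_eq, smul_eq_mul]
  rw [e]
  exact continuousOn_const.mul h1

theorem par_c {f : ℝ → ℝ → ℝ} (hf : ContinuousOn (fun z : ℝ × ℝ => f z.1 z.2) (Ioo 0 T ×ˢ univ)) (r : ℝ) :
    ContinuousOn (fun t => ∫ ρ in (0 : ℝ)..r, f t ρ) (Ioo 0 T) := by
  rw [continuousOn_iff_continuous_domRestrict]
  have hlc : LocallyCompactSpace (Ioo (0 : ℝ) T) := isOpen_Ioo.locallyCompactSpace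
  have h1 : Continuous (Function.uncurry (fun (t : Ioo (0 : ℝ) T) (ρ : ℝ) => f t ρ)) := by
    have h2 := continuousOn_iff_continuous_domRestrict.1 hf
    exact h2.comp (f := fun z : (Ioo (0 : ℝ) T) × ℝ => (⟨((z.1 : ℝ), z.2), ⟨z.1.2, mem_univ _⟩⟩ : ↥(Ioo (0 : ℝ) T ×ˢ (univ : Set ℝ))))
      (by fun_prop)
  exact intervalIntegral.continuous_parametric_intervalIntegral_of_continuous' h1 0 r

end sol

theorem dsq_c (a : V) : Continuous (dsq a) := by
  unfold dsq
  exact continuous_finsetSum _ fun i _ => ((continuous_apply i).sub continuous_const).pow 2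

theorem dsq_out {a x : V} {r : ℝ} (hr : 0 < r) (hx : x ∉ closedBall a r) : r ^ 2 ≤ dsq a x := by
  rw [mem_closedBall, dist_eq_norm, pi_norm_le_iff_of_nonneg hr.le] at hx
  push Not at hx
  obtain ⟨i, hi⟩ := hx
  have h1 : r ^ 2 ≤ (x i - a i) ^ 2 := by
    rw [Pi.sub_apply, Real.norm_eq_abs] at hi
    rw [← sq_abs (x i - a i)]
    exact pow_le_pow_left₀ hr.le hi.le 2
  refine h1.trans ?_
  unfold dsq
  exact Finset.single_le_sum (f := fun i => (x i - a i) ^ 2) (fun _ _ => sq_nonneg _) (Finset.mem_univ i)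

theorem int_kf {a : V} {r : ℝ} (hr : 0 < r) {k : ℝ → ℝ} (hk : Wt r k) {f : V → ℝ} (hf : Continuous f) :
    Integrable (fun x => k (dsq a x) * f x) := by
  have h1 : Continuous (fun x => k (dsq a x) * f x) := (hk.smooth.continuous.comp (dsq_c a)).mul hf
  refine h1.integrable_of_hasCompactSupport ?_
  refine HasCompactSupport.intro (isCompact_closedBall a r) fun x hx => ?_
  rw [hk.supp _ (dsq_out hr hx), zero_mul]

theorem t (hPOL : POL) (hFLX : FLX) (hCONT : CONT) (hSC : SC) : Pool.Agent.H1EI.SPHX := by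
  intro T E O u p hL δ ε r a hε hr hrT hball hexc
  have hle : LEq T O u p := hL.toLEq
  have hsub : Ioo (T - r ^ 2) T ⊆ Ioo 0 T := fun t ht => ⟨by linarith [ht.1], ht.2⟩
  obtain ⟨c, hc⟩ : ∃ c : ℝ → ℝ, c = fun t => ⨍ y in closedBall a r, p t y := ⟨_, rfl⟩
  have hcc : ContinuousOn c (Ioo 0 T) := by rw [hc]; exact avg_c hCONT hle a r
  have hcc2 : ContinuousOn (fun z : ℝ × V => c z.1) (Ioo 0 T ×ˢ univ) := hcc.comp continuousOn_fst fun z hz => hz.1
  obtain ⟨F1, hF1⟩ : ∃ F1 : ℝ → V → ℝ, F1 = fun t x => inw a (u t) x * (nsq (u t) x + 2 * (p t x - c t)) := ⟨_, rfl⟩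
  obtain ⟨F2, hF2⟩ : ∃ F2 : ℝ → V → ℝ, F2 = fun t x => (2 - δ) * nsq (u t) x + (4 - δ) * (1 * (T - t)) * gsq (u t) x
      + ε * |p t x - c t| := ⟨_, rfl⟩
  have hpj : ContinuousOn (fun z : ℝ × V => p z.1 z.2) (Ioo 0 T ×ˢ univ) := hle.smooth_p.continuousOn
  have j1 : ContinuousOn (fun z : ℝ × V => F1 z.1 z.2) (Ioo 0 T ×ˢ univ) := by
    rw [hF1]
    exact (inw_jc hle a).mul ((nsq_jc hle).add (continuousOn_const.mul (hpj.sub hcc2)))
  have j2 : ContinuousOn (fun z : ℝ × V => F2 z.1 z.2) (Ioo 0 T ×ˢ univ) := by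
    rw [hF2]
    refine ((continuousOn_const.mul (nsq_jc hle)).add (ContinuousOn.mul ?_ (gsq_jc hle))).add
      (continuousOn_const.mul (hpj.sub hcc2).abs)
    exact (Continuous.mul continuous_const (Continuous.mul continuous_const (continuous_const.sub continuous_fst))).continuousOn
  have s1 := hSC T a F1 j1
  have s2 := hSC T a F2 j2
  obtain ⟨e, he⟩ : ∃ e : ℝ → ℝ → ℝ, e = fun t ρ => max 0 (sph a ρ (F1 t) - 1 * sph a ρ (F2 t)) := ⟨_, rfl⟩
  have hexc_e : ∀ t ρ, exc 1 δ ε (T - t) (⨍ y in closedBall a r, p t y) a (u t) (p t) ρ = e t ρ := by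
    intro t ρ
    rw [he, hF1, hF2, hc]
    rfl
  have je : ContinuousOn (fun z : ℝ × ℝ => e z.1 z.2) (Ioo 0 T ×ˢ univ) := by
    rw [he]
    exact ContinuousOn.sup continuousOn_const (s1.sub (continuousOn_const.mul s2))
  have he0 : ∀ t ρ, 0 ≤ e t ρ := by
    intro t ρ
    rw [he]
    exact le_max_left _ _
  obtain ⟨Y, hY⟩ : ∃ Y : ℝ → ℝ, Y = fun t => ∫ ρ in Ioo 0 r, e t ρ := ⟨_, rfl⟩
  have hYi : ∀ t, Y t = ∫ ρ in (0 : ℝ)..r, e t ρ := by
    intro t
    rw [hY, intervalIntegral.integral_of_le hr.le, integral_Ioc_eq_integral_Ioo]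
  have hYc : ContinuousOn Y (Ioo 0 T) := (par_c je r).congr fun t _ => hYi t
  have hYc' : ContinuousOn Y (Ioo (T - r ^ 2) T) := hYc.mono hsub
  have hY0 : ∀ t, 0 ≤ Y t := by
    intro t
    rw [hY]
    exact integral_nonneg fun ρ => he0 t ρ
  have hei : ∀ t ∈ Ioo 0 T, IntegrableOn (e t) (Ioo 0 r) := fun t ht =>
    ((slice_r je ht).continuousOn.integrableOn_compact (isCompact_Icc (a := 0) (b := r))).mono_set Ioo_subset_Icc_self
  have hlin : ∀ t ∈ Ioo 0 T, ∫⁻ ρ in Ioo 0 r, ENNReal.ofReal (e t ρ) = ENNReal.ofReal (Y t) := by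
    intro t ht
    rw [hY]
    exact (ofReal_integral_eq_lintegral_ofReal (hei t ht) (ae_of_all _ fun ρ => he0 t ρ)).symm
  have hbound : ∫⁻ t in Ioo (T - r ^ 2) T, ENNReal.ofReal (Y t) ≤ ENNReal.ofReal (ε * r ^ 3) := by
    unfold ExcLe at hexc
    rw [div_one, one_pow, mul_one] at hexc
    refine le_trans (le_of_eq ?_) hexc
    refine setLIntegral_congr_fun measurableSet_Ioo fun t ht => ?_
    rw [← hlin t (hsub ht)]
    refine lintegral_congr fun ρ => ?_
    rw [hexc_e]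
  have hYm : AEStronglyMeasurable Y (volume.restrict (Ioo (T - r ^ 2) T)) := hYc'.aestronglyMeasurable measurableSet_Ioo
  have hint : IntegrableOn Y (Ioo (T - r ^ 2) T) := by
    refine ⟨hYm, ?_⟩
    rw [hasFiniteIntegral_iff_ofReal (ae_of_all _ fun t => hY0 t)]
    exact lt_of_le_of_lt hbound ENNReal.ofReal_lt_top
  refine ⟨Y, ?_, fun t _ => hY0 t, hYc', hint, ?_⟩
  · intro t ht k S hk hkS
    have ht' := hsub ht
    have hF1c : Continuous (F1 t) := slice_c j1 ht'
    have hF2c : Continuous (F2 t) := slice_c j2 ht'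
    obtain ⟨i1, e1⟩ := hPOL a r k (F1 t) univ hr isOpen_univ (subset_univ _) hk hF1c.continuousOn
    obtain ⟨i2, e2⟩ := hPOL a r k (F2 t) univ hr isOpen_univ (subset_univ _) hk hF2c.continuousOn
    have hinw : Continuous (inw a (u t)) := slice_c (f := fun t => inw a (u t)) (inw_jc hle a) ht'
    have hSM : SM (u t) := by
      intro i
      have h1 : ContDiffOn ℝ ∞ (fun y : V => u t y i) univ :=
        (ui hle i).comp (t := Ioo 0 T ×ˢ univ) (f := fun y : V => (t, y)) ((contDiff_const.prodMk contDiff_id).contDiffOn)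
          fun x _ => ⟨ht', mem_univ _⟩
      exact contDiffOn_univ.1 h1
    have hflx := hFLX O (u t) a r k hle.openO hSM (hle.divfree t ht') hr hball hk
    have hLHS : ∫ x, k (dsq a x) * (inw a (u t) x * (nsq (u t) x + 2 * p t x)) = ∫ x, k (dsq a x) * F1 t x := by
      have h1 : ∀ x, k (dsq a x) * (inw a (u t) x * (nsq (u t) x + 2 * p t x)) =
          k (dsq a x) * F1 t x + 2 * c t * (k (dsq a x) * inw a (u t) x) := by
        intro x
        rw [hF1]
        ring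
      simp_rw [h1]
      rw [integral_add (int_kf hr hk hF1c) ((int_kf hr hk hinw).const_mul _), integral_const_mul, hflx, mul_zero, add_zero]
    have hRHS : ∫ x, k (dsq a x) * ((2 - δ) * nsq (u t) x + (4 - δ) * (T - t) * gsq (u t) x
        + ε * |p t x - ⨍ y in closedBall a r, p t y|) = ∫ x, k (dsq a x) * F2 t x := by
      rw [hF2, hc]
      simp only [one_mul]
    rw [hLHS, hRHS, e1, e2]
    have hSe : S * Y t = ∫ ρ in Ioi (0 : ℝ), (Ioo 0 r).indicator (fun ρ => S * e t ρ) ρ := by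
      rw [setIntegral_indicator measurableSet_Ioo, hY]
      have h1 : Ioi (0 : ℝ) ∩ Ioo 0 r = Ioo 0 r := inter_eq_right.2 fun x hx => hx.1
      rw [h1, integral_const_mul]
    have i3 : IntegrableOn ((Ioo 0 r).indicator (fun ρ => S * e t ρ)) (Ioi (0 : ℝ)) :=
      (IntegrableOn.integrable_indicator (Integrable.const_mul (hei t ht') S) measurableSet_Ioo).integrableOn
    rw [hSe, ← integral_add i2 i3]
    refine setIntegral_mono_on i1 (i2.add i3) measurableSet_Ioi fun ρ hρ => ?_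
    have hρ0 : 0 < ρ := hρ
    rcases lt_or_ge ρ r with h | h
    · rw [indicator_of_mem (show ρ ∈ Ioo 0 r from ⟨hρ0, h⟩)]
      have h1 : sph a ρ (F1 t) ≤ sph a ρ (F2 t) + e t ρ := by
        have h2 : sph a ρ (F1 t) - 1 * sph a ρ (F2 t) ≤ e t ρ := by
          rw [he]
          exact le_max_right _ _
        linarith
      have h3 := mul_le_mul_of_nonneg_left h1 (hk.nonneg (ρ ^ 2))
      have h4 : k (ρ ^ 2) * e t ρ ≤ S * e t ρ := mul_le_mul_of_nonneg_right (hkS _ (sq_nonneg ρ)) (he0 t ρ)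
      linarith
    · have h3 : r ^ 2 ≤ ρ ^ 2 := pow_le_pow_left₀ hr.le h 2
      rw [hk.supp _ h3, indicator_of_notMem (fun hmem => absurd hmem.2 (not_lt.2 h))]
      simp
  · rw [integral_eq_lintegral_of_nonneg_ae (ae_of_all _ fun t => hY0 t) hYm]
    exact ENNReal.toReal_le_of_le_ofReal (by positivity) hbound

end Pool.Agent.H1EI.SPHX
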