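import Pool.Agent.H1EI.CHI
import Pool.Agent.H1EI.KB
import Pool.Agent.H1EI.KS
import Pool.Agent.H1EI.INT
import Pool.Agent.H1EI.HB
import Pool.Agent.H1EI.CONT
import Pool.Agent.H1EI.POL
import Pool.Agent.H1EI.KC
import Pool.Agent.H1EI.FLX
import Pool.Agent.H1EI.PT
import Pool.Agent.H1EI.LAPP
import Pool.Agent.H1EI.EN1
import Pool.Agent.H1EI.DI
import Pool.Agent.H1EI.INIT
import Pool.Agent.H1EI.ONE
import Pool.Agent.H1EI.PR
import Pool.Agent.H1EI.END
import Pool.Agent.H1EI.DOM2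
import Pool.Agent.H1EI.SCALX
import Pool.Agent.H1EI.SC
import Pool.Agent.H1EI.SPHX
import Pool.Agent.H1EI.PER
import Pool.Agent.H1EI.PERX
import Pool.Agent.Q81.CL.Dec

/-!
Project EI: the parts together.
-/

set_option autoImplicit false

namespace Pool.Agent.H1EI

theorem pPT : PT := PT.t Pool.Agent.Q81.CL.decL

theorem pDI : DI := DI.t KB.t KS.t KC.t EN1.t

theorem pONE : ONE := ONE.t CHI.t KS.t CONT.t INT.t HB.t pDI

theorem pPR : PR := PR.t CONT.t LAPP.t pPT

theorem pSCALX : SCALX := SCALX.t DOM2.t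

theorem pSPHX : SPHX := SPHX.t POL.t FLX.t CONT.t SC.t

end Pool.Agent.H1EI
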