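import Pool.Agent.H1EI.Stm

/-!
Project EI: stub CHI.
-/

set_option autoImplicit false

open MeasureTheory Set Metric
open scoped ContDiff

namespace Pool.Agent.H1EI.CHI

theorem t : Pool.Agent.H1EI.CHI := by
  refine ⟨fun s => Real.smoothTransition (4 / 3 * (1 - s)), ?_, ?_, ?_, ?_⟩
  · exact Real.smoothTransition.contDiff.comp (contDiff_const.mul (contDiff_const.sub contDiff_id))
  · intro s s' h
    exact Real.smoothTransition.monotone (by linarith)
  · intro s h
    exact Real.smoothTransition.one_of_one_le (by linarith)
  · intro s h
    exact Real.smoothTransition.zero_of_nonpos (by linarith)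

end Pool.Agent.H1EI.CHI
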