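import Pool.Agent.H1EI.Stm
import Pool.Agent.Q284.CL.Dom

/-!
Project EI, stub DOM2: as `Pool.Agent.Q284.CL.dom`, with the pressure.
-/

set_option autoImplicit false

open MeasureTheory Set Metric Filter Topology
open scoped ContDiff
open H459R3.NS Pool.Agent.W268.NS Pool.Agent.Q67.VD

namespace Pool.Agent.H1EI.DOM2

open Pool.Agent.Q85.CC Pool.Agent.Q85.CL Pool.Agent.Q284.CL

theorem t : Pool.Agent.H1EI.DOM2 := by
  intro ν T E Ω u p hν hT h a R hR hsub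
  obtain ⟨χ, hχ, hχ1, hχs⟩ := bumpD h.openO hR hsub
  have hbs : ball a R ⊆ Ω := ball_subset_closedBall.trans hsub
  set v : ℝ → V → V := fun s x => χ x • (ν⁻¹ • u (s / ν) x) with hv
  set q : ℝ → V → ℝ := fun s x => χ x • ((ν ^ 2)⁻¹ • p (s / ν) x) with hq
  have hveq : ∀ s, ∀ x ∈ ball a R, v s x = ν⁻¹ • u (s / ν) x := by
    intro s x hx
    simp only [hv, hχ1 x hx, one_smul]
  have hqeq : ∀ s, ∀ x ∈ ball a R, q s x = (ν ^ 2)⁻¹ * p (s / ν) x := by
    intro s x hx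
    simp only [hq, hχ1 x hx, smul_eq_mul, one_mul]
  have hmem : ∀ x ∈ ball a R, ball a R ∈ 𝓝 x := fun x hx => isOpen_ball.mem_nhds hx
  have hvev : ∀ s, ∀ x ∈ ball a R, ∀ i, (fun y => v s y i) =ᶠ[𝓝 x]
      fun y => ν⁻¹ * u (s / ν) y i := by
    intro s x hx i
    filter_upwards [hmem x hx] with y hy
    rw [hveq s y hy, Pi.smul_apply, smul_eq_mul]
  have hpd : ∀ s, ∀ x ∈ ball a R, ∀ i j, pd j (fun y => v s y i) x =
      ν⁻¹ * pd j (fun y => u (s / ν) y i) x := by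
    intro s x hx i j
    rw [(pd_evD (hvev s x hx i) j).eq_of_nhds, pd_cmulD]
  have hpdev : ∀ s, ∀ x ∈ ball a R, ∀ i j, pd j (fun y => v s y i) =ᶠ[𝓝 x]
      fun y => ν⁻¹ * pd j (fun y => u (s / ν) y i) y := by
    intro s x hx i j
    filter_upwards [hmem x hx] with y hy
    exact hpd s y hy i j
  have hdiv : ∀ t, t ∈ Ioo 0 (ν * T) → t / ν ∈ Ioo 0 T := by
    intro t ht
    refine ⟨div_pos ht.1 hν, ?_⟩
    rw [div_lt_iff₀ hν, mul_comm T ν]
    exact ht.2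
  have hgsq : ∀ s, ∀ x ∈ ball a R, W221.NS.gsq (v s) x = (ν⁻¹) ^ 2 * W221.NS.gsq (u (s / ν)) x := by
    intro s x hx
    unfold W221.NS.gsq
    simp only [hpd s x hx, mul_pow, Finset.mul_sum]
  have hnsq : ∀ s, ∀ x ∈ ball a R, W221.NS.nsq (v s) x = (ν⁻¹) ^ 2 * W221.NS.nsq (u (s / ν)) x := by
    intro s x hx
    unfold W221.NS.nsq
    simp only [hveq s x hx, Pi.smul_apply, smul_eq_mul, mul_pow, Finset.mul_sum]
  have hintn : ∀ t ∈ Ioo 0 (ν * T), IntegrableOn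
      (fun x => (ν⁻¹) ^ 2 * W221.NS.nsq (u (t / ν)) x) (ball a R) := fun t ht =>
    ((h.en_int _ (hdiv t ht)).mono_set hbs).const_mul _
  have hpre : Ioo 0 (ν * T) ×ˢ ball a R ⊆
      (fun z : ℝ × V => (ν⁻¹ * z.1, z.2)) ⁻¹' (Ioo 0 T ×ˢ Ω) := by
    rintro ⟨t, x⟩ ⟨ht, hx⟩
    have := hdiv t ht
    rw [div_eq_inv_mul] at this
    exact ⟨this, hbs hx⟩
  have hmeas : MeasurableSet (Ioo 0 (ν * T) ×ˢ ball a R) :=
    measurableSet_Ioo.prod measurableSet_ball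
  refine ⟨(ν⁻¹) ^ 2 * E, v, q, ⟨⟨isOpen_ball, smooth_cutD hν h.openO h.smooth_u hχ hχs,
    smooth_cutD hν h.openO h.smooth_p hχ hχs, ?_, ?_⟩, ?_, ?_, ?_, ?_⟩, ?_⟩
  · intro t ht x hx
    have h1 := h.divfree _ (hdiv t ht) x (hbs hx)
    rw [Finset.sum_congr rfl fun i _ => hpd t x hx i i, ← Finset.mul_sum, h1, mul_zero]
  · intro t ht x hx i
    have h1 := h.momentum _ (hdiv t ht) x (hbs hx) i
    have e1 : deriv (fun s => v s x i) t =
        ν⁻¹ * (ν⁻¹ * deriv (fun s => u s x i) (t / ν)) := by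
      have : (fun s => v s x i) = fun s => ν⁻¹ * u (s / ν) x i := by
        funext s; rw [hveq s x hx, Pi.smul_apply, smul_eq_mul]
      rw [this]
      exact deriv_scaleD ν (fun s => u s x i) t
    have e3 : ∀ j, pd j (pd j (fun y => v t y i)) x =
        ν⁻¹ * pd j (pd j (fun y => u (t / ν) y i)) x := by
      intro j
      rw [(pd_evD (hpdev t x hx i j) j).eq_of_nhds, pd_cmulD]
    have e4 : pd i (q t) x = (ν ^ 2)⁻¹ * pd i (p (t / ν)) x := by
      have : q t =ᶠ[𝓝 x] fun y => (ν ^ 2)⁻¹ * p (t / ν) y := by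
        filter_upwards [hmem x hx] with y hy
        exact hqeq t y hy
      rw [(pd_evD this i).eq_of_nhds, pd_cmulD]
    rw [e1, e4]
    simp_rw [e3, hpd t x hx i, hveq t x hx, Pi.smul_apply, smul_eq_mul]
    rw [← Finset.mul_sum]
    have e5 : ∑ j, ν⁻¹ * u (t / ν) x j * (ν⁻¹ * pd j (fun y => u (t / ν) y i) x) =
        ν⁻¹ * (ν⁻¹ * ∑ j, u (t / ν) x j * pd j (fun y => u (t / ν) y i) x) := by
      rw [Finset.mul_sum, Finset.mul_sum]
      refine Finset.sum_congr rfl fun j _ => ?_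
      ring
    rw [e5]
    have e6 : (ν ^ 2)⁻¹ = ν⁻¹ * ν⁻¹ := by
      rw [sq, mul_inv]
    have e7 : ν⁻¹ * ν⁻¹ * ν = ν⁻¹ := by
      rw [mul_assoc, inv_mul_cancel₀ hν.ne', mul_one]
    rw [e6]
    have h2 := congrArg (fun z => ν⁻¹ * ν⁻¹ * z) h1
    simp only [mul_add, mul_sub] at h2
    rw [← mul_assoc, ← mul_assoc, h2, ← mul_assoc, e7]
  · intro t ht
    exact (hintn t ht).congr_fun (fun x hx => (hnsq t x hx).symm) measurableSet_ball
  · intro t ht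
    rw [setIntegral_congr_fun measurableSet_ball (fun x hx => hnsq t x hx),
      integral_const_mul]
    refine mul_le_mul_of_nonneg_left ?_ (by positivity)
    refine (setIntegral_mono_set (h.en_int _ (hdiv t ht)) ?_ hbs.eventuallyLE).trans
      (h.en _ (hdiv t ht))
    refine Eventually.of_forall fun x => ?_
    unfold W221.NS.nsq
    exact Finset.sum_nonneg fun i _ => sq_nonneg _
  · have h1 := ((intOn_scl (inv_pos.2 hν) h.dis).mono_set hpre).const_mul ((ν⁻¹) ^ 2)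
    refine IntegrableOn.congr_fun h1 ?_ hmeas
    rintro ⟨t, x⟩ ⟨ht, hx⟩
    simp only
    rw [hgsq t x hx, div_eq_inv_mul]
  · have h1 := ((intOn_scl (inv_pos.2 hν) h.prs).mono_set hpre).const_mul ((ν ^ 2)⁻¹)
    refine IntegrableOn.congr_fun h1 ?_ hmeas
    rintro ⟨t, x⟩ ⟨ht, hx⟩
    simp only
    rw [hqeq t x hx, div_eq_inv_mul]
  · intro t ht x hx
    rw [hveq _ x hx, hqeq _ x hx, mul_div_cancel_left₀ _ hν.ne', inv_pow]
    exact ⟨rfl, rfl⟩

end Pool.Agent.H1EI.DOM2
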