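import Pool.Agent.Q85.CL.Blow
import Pool.Agent.Q85.CL.Defs2

/-!
Project EI (helper1): energy flows into the singular points of Navier-Stokes flows. Definitions.

`V` is `Fin 3 → ℝ` with the maximum norm (`closedBall a r` is a cube), `dsq a x` is the square of the
EUCLIDEAN distance.
-/

set_option autoImplicit false

open MeasureTheory Set Metric
open scoped ContDiff
open H459R3.NS Pool.Agent.W268.NS Pool.Agent.Q67.VD
open W221.NS (nsq gsq adv)

namespace Pool.Agent.H1EI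

/-- The square of the Euclidean distance. -/
noncomputable def dsq (a x : V) : ℝ := ∑ i, (x i - a i) ^ 2

/-- `-(x - a) · v(x)`. -/
noncomputable def inw (a : V) (v : V → V) (x : V) : ℝ := -∑ i, (x i - a i) * v x i

/-- The integral of `f` over the Euclidean sphere `|x - a| = ρ` with respect to the surface
measure. -/
noncomputable def sph (a : V) (ρ : ℝ) (f : V → ℝ) : ℝ :=
  ρ ^ 2 * ∫ σ : sphere (0 : EuclideanSpace ℝ (Fin 3)) 1, f (fun i => a i + ρ * σ.1 i)
    ∂(volume : Measure (EuclideanSpace ℝ (Fin 3))).toSphere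

/-- The weights. -/
structure Wt (R : ℝ) (k : ℝ → ℝ) : Prop where
  smooth : ContDiff ℝ ∞ k
  nonneg : ∀ s, 0 ≤ k s
  supp : ∀ s, R ^ 2 ≤ s → k s = 0

/-- The part of the net inflow of energy through the sphere of radius `ρ` which exceeds the bound with
the constant `c` (viscosity `ν`, time `T - h`). -/
noncomputable def exc (ν δ ε h c : ℝ) (a : V) (v : V → V) (q : V → ℝ) (ρ : ℝ) : ℝ :=
  max 0 (sph a ρ (fun x => inw a v x * (nsq v x + 2 * (q x - c))) -
    ν * sph a ρ (fun x => (2 - δ) * nsq v x + (4 - δ) * (ν * h) * gsq v x + ε * |q x - c|))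

/-- The excess of the inflow at the scale `r` is small (viscosity `ν`). -/
def ExcLe (ν δ ε T r : ℝ) (a : V) (u : ℝ → V → V) (p : ℝ → V → ℝ) : Prop :=
  ∫⁻ t in Ioo (T - r ^ 2 / ν) T, ∫⁻ ρ in Ioo 0 r,
    ENNReal.ofReal (exc ν δ ε (T - t) (⨍ y in closedBall a r, p t y) a (u t) (p t) ρ)
      ≤ ENNReal.ofReal (ε * ν ^ 2 * r ^ 3)

/-- The upper bound of the inflow at the scale `r` (`ν = 1`), superpositions of spheres. The constant is
the mean value of the pressure in the cube. -/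
structure NoX (δ ε T r : ℝ) (a : V) (u : ℝ → V → V) (p : ℝ → V → ℝ) (Y : ℝ → ℝ) : Prop where
  ineq : ∀ t ∈ Ioo (T - r ^ 2) T, ∀ (k : ℝ → ℝ) (S : ℝ), Wt r k → (∀ s, 0 ≤ s → k s ≤ S) →
    (∫ x, k (dsq a x) * (inw a (u t) x * (nsq (u t) x + 2 * p t x))) ≤
      (∫ x, k (dsq a x) * ((2 - δ) * nsq (u t) x + (4 - δ) * (T - t) * gsq (u t) x
        + ε * |p t x - ⨍ y in closedBall a r, p t y|)) + S * Y t
  nonneg : ∀ t ∈ Ioo (T - r ^ 2) T, 0 ≤ Y t
  cont : ContinuousOn Y (Ioo (T - r ^ 2) T)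
  int : IntegrableOn Y (Ioo (T - r ^ 2) T)
  le : ∫ t in Ioo (T - r ^ 2) T, Y t ≤ ε * r ^ 3

/-- A cut-off function. -/
structure Cut (χ : ℝ → ℝ) : Prop where
  smooth : ContDiff ℝ ∞ χ
  anti : Antitone χ
  one : ∀ s, s ≤ 1 / 4 → χ s = 1
  zero : ∀ s, 1 ≤ s → χ s = 0

/-- The backward heat kernel (dimension one weight), `s` is the square of the distance. -/
noncomputable def Ph (τ s : ℝ) : ℝ := (√τ)⁻¹ * Real.exp (-s / (4 * τ))

/-- The weight function `η`, with `τ = T + w - t`. -/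
noncomputable def et (χ : ℝ → ℝ) (r τ s : ℝ) : ℝ := Ph τ s * χ (s / r ^ 2)

/-- The part of `-2 ∂ₛ η` with the derivative of `χ`. -/
noncomputable def k2 (χ : ℝ → ℝ) (r τ s : ℝ) : ℝ := Ph τ s * (-2 * deriv χ (s / r ^ 2) / r ^ 2)

/-- `-2 ∂ₛ η`. -/
noncomputable def kk (χ : ℝ → ℝ) (r τ s : ℝ) : ℝ := et χ r τ s / (2 * τ) + k2 χ r τ s

/-- The terms of `∂ₜ η + Δ η` with derivatives of `χ`. -/
noncomputable def cc (χ : ℝ → ℝ) (r τ s : ℝ) : ℝ :=
  Ph τ s * (-2 * s * deriv χ (s / r ^ 2) / (r ^ 2 * τ)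
    + 4 * s * deriv (deriv χ) (s / r ^ 2) / r ^ 4 + 6 * deriv χ (s / r ^ 2) / r ^ 2)

/-- Mean oscillation (times the volume) of `f` in the cube. -/
noncomputable def osc (a : V) (r : ℝ) (f : V → ℝ) : ℝ :=
  ∫ x in closedBall a r, |f x - ⨍ y in closedBall a r, f y|

/-- `-(v · ∇) v`. -/
noncomputable def GG (v : V → V) (i : Fin 3) (x : V) : ℝ :=
  -∑ j, v x j * pd j (fun y => v y i) x

/-- Scaled energy at most `A`, scaled dissipation at most `D`, at the scale `r`. -/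
structure Se (T : ℝ) (a : V) (r A D : ℝ) (u : ℝ → V → V) : Prop where
  en : ∀ t ∈ Ioo (T - r ^ 2) T, ∫ x in closedBall a r, nsq (u t) x ≤ A * r
  dii : IntegrableOn (fun t => ∫ x in closedBall a r, gsq (u t) x) (Ioo (T - r ^ 2) T)
  di : ∫ t in Ioo (T - r ^ 2) T, ∫ x in closedBall a r, gsq (u t) x ≤ D * r

/-- Scaled oscillation of the pressure at most `P`, at the scale `r`. -/
structure Sp (T : ℝ) (a : V) (r P : ℝ) (p : ℝ → V → ℝ) : Prop where
  pri : IntegrableOn (fun t => osc a r (p t)) (Ioo (T - r ^ 2) T)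
  pr : ∫ t in Ioo (T - r ^ 2) T, osc a r (p t) ≤ P * r ^ 3

end Pool.Agent.H1EI
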