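import Pool.Agent.H1EI.Stm
import Pool.Agent.Q95.CL.Far
import Pool.Agent.Q285.CL.WSc

/-!
Project EI: the theorem from its parts.
-/

set_option autoImplicit false

open MeasureTheory Set Metric
open scoped ContDiff
open H459R3.NS Pool.Agent.W268.NS Pool.Agent.Q67.VD
open W221.NS (nsq gsq adv)
open Pool.Agent.Q85.CL (SM DFO LEq LSl DSl WSl Sing Blow StmDecL StmDom)

namespace Pool.Agent.H1EI

theorem Sing.pos {T : ℝ} {u : ℝ → V → V} {a : V} (h : Sing T u a) : 0 < T := by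
  obtain ⟨t, ht, -⟩ := h 0 1 one_pos
  exact ht.1.trans ht.2

theorem main (hL : LIM) (hE : END) (hS : SCALX) (hX : SPHX) : MAIN := by
  intro δ hδ hδ1
  obtain ⟨σ, hσ, hEnd⟩ := hE
  obtain ⟨ε, hε, hLim⟩ := hL δ σ hδ hδ1 hσ
  refine ⟨ε, hε, ?_⟩
  intro ν T E Ω u p hν h a ha hs r₀ hr₀
  by_contra hcon
  push Not at hcon
  have hT0 : 0 < T := Sing.pos hs
  have hνT : 0 < ν * T := mul_pos hν hT0
  obtain ⟨R₀, hR₀, hR₀Ω⟩ := Metric.nhds_basis_closedBall.mem_iff.1 (h.openO.mem_nhds ha)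
  obtain ⟨E', v, q, hv, hN', hsing⟩ := hS ν T E Ω u p hν hT0 h a R₀ hR₀ hR₀Ω
  have h1 : 0 < min (r₀ / 2) (min (R₀ / 2) (√(ν * T))) :=
    lt_min (by linarith) (lt_min (by linarith) (Real.sqrt_pos.2 hνT))
  set r₁ := min (r₀ / 2) (min (R₀ / 2) (√(ν * T))) with hr₁
  have hr₁a : r₁ ≤ r₀ / 2 := min_le_left _ _
  have hr₁b : r₁ ≤ R₀ / 2 := (min_le_right _ _).trans (min_le_left _ _)
  have hr₁c : r₁ ≤ √(ν * T) := (min_le_right _ _).trans (min_le_right _ _)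
  have hsq : ∀ r : ℝ, 0 < r → r ≤ r₁ → r ^ 2 ≤ ν * T := by
    intro r hr hr1
    calc r ^ 2 ≤ (√(ν * T)) ^ 2 := pow_le_pow_left₀ hr.le (hr1.trans hr₁c) 2
      _ = ν * T := Real.sq_sqrt hνT.le
  have hsub : closedBall a r₁ ⊆ ball a R₀ := closedBall_subset_ball (by linarith)
  have hY : ∀ r : ℝ, 0 < r → r ≤ r₁ → ∃ Y : ℝ → ℝ, NoX δ ε (ν * T) r a v q Y := by
    intro r hr hr1
    have h2 : closedBall a r ⊆ ball a R₀ := (closedBall_subset_closedBall hr1).trans hsub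
    refine hX (ν * T) E' (ball a R₀) v q hv δ ε r a hε.le hr (hsq r hr hr1) h2 ?_
    refine hN' δ ε r hr (by linarith) (hsq r hr hr1) ?_
    exact hcon r hr (by linarith) (hsq r hr hr1)
      ((h2.trans ball_subset_closedBall).trans hR₀Ω)
  obtain ⟨r, hr, hrR, hr1, hrT, hSe⟩ := hLim (ν * T) E' (ball a R₀) v q hv r₁ a h1
    (hsq r₁ h1 le_rfl) hsub hY
  exact hEnd (ν * T) E' (ball a R₀) v q hv a r hr hr1 hrT
    ((closedBall_subset_closedBall hrR).trans hsub) hSe (hsing hs)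

/-- The excess of the net inflow of energy into `a` is large at arbitrarily small scales. -/
def InfAt (ν δ ε T : ℝ) (Ω : Set V) (u : ℝ → V → V) (p : ℝ → V → ℝ) (a : V) : Prop :=
  ∀ r₀ : ℝ, 0 < r₀ → ∃ r : ℝ, 0 < r ∧ r < r₀ ∧ r ^ 2 ≤ ν * T ∧ closedBall a r ⊆ Ω ∧
    ENNReal.ofReal (ε * ν ^ 2 * r ^ 3) < ∫⁻ t in Ioo (T - r ^ 2 / ν) T, ∫⁻ ρ in Ioo 0 r,
      ENNReal.ofReal (exc ν δ ε (T - t) (⨍ y in closedBall a r, p t y) a (u t) (p t) ρ)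

/-- The three classes of solutions. -/
theorem fin (hM : MAIN) (hPer : PER) (hPX : PERX) : ∀ δ : ℝ, 0 < δ → δ ≤ 1 →
    ∃ ε : ℝ, 0 < ε ∧ ∀ (ν T : ℝ) (u : ℝ → V → V) (p : ℝ → V → ℝ), 0 < ν →
      (∀ (E : ℝ) (Ω : Set V), DSl ν T E Ω u p → ∀ a ∈ Ω, Sing T u a → InfAt ν δ ε T Ω u p a) ∧
      (∀ E : ℝ, WSl ν T E u p → (Blow T u → ∃ a, Sing T u a) ∧
        ∀ a, Sing T u a → InfAt ν δ ε T univ u p a) ∧
      (IsSol ν T u p → (Blow T u → ∃ a, Sing T u a) ∧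
        ∀ a, Sing T u a → InfAt ν δ ε T univ u p a) := by
  intro δ hδ hδ1
  obtain ⟨ε, hε, h⟩ := hM δ hδ hδ1
  have hD : ∀ (ν T : ℝ) (u : ℝ → V → V) (p : ℝ → V → ℝ), 0 < ν → ∀ (E : ℝ) (Ω : Set V),
      DSl ν T E Ω u p → ∀ a ∈ Ω, Sing T u a → ∀ Ω', Ω ⊆ Ω' → InfAt ν δ ε T Ω' u p a := by
    intro ν T u p hν E Ω hD a ha hs Ω' hΩ' r₀ hr₀
    obtain ⟨r, hr, hrr, hrT, hsub, hlt⟩ := h ν T E Ω u p hν hD a ha hs r₀ hr₀
    exact ⟨r, hr, hrr, hrT, hsub.trans hΩ', not_le.1 hlt⟩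
  refine ⟨ε, hε, fun ν T u p hν => ⟨?_, ?_, ?_⟩⟩
  · exact fun E Ω hd a ha hs => hD ν T u p hν E Ω hd a ha hs Ω subset_rfl
  · intro E hW
    refine ⟨fun hB => Pool.Agent.Q85.CL.sing_whole Pool.Agent.Q95.CL.far Pool.Agent.Q285.CL.wsc
      hν hW hB, fun a hs => ?_⟩
    exact hD ν T u p hν E _ (Pool.Agent.Q85.CL.whole_D hW a) a (mem_ball_self (by norm_num)) hs _
      (subset_univ _)
  · intro hP
    refine ⟨fun hB => Pool.Agent.Q85.CL.sing_per hP hB, fun a hs => ?_⟩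
    have hT : 0 < T := Sing.pos hs
    obtain ⟨E, p', hd, hpp⟩ := hPer ν T u p hν hT hP a
    intro r₀ hr₀
    obtain ⟨r, hr, hrr, hrT, hsub, hlt⟩ := h ν T E _ u p' hν hd a (mem_ball_self (by norm_num)) hs
      (min r₀ (1 / 2)) (lt_min hr₀ (by norm_num))
    refine ⟨r, hr, hrr.trans_le (min_le_left _ _), hrT, subset_univ _, not_le.1 fun hle => hlt ?_⟩
    exact hPX ν T u p p' hν hP a hpp δ ε r hr (hrr.trans_le (min_le_right _ _)) hrT hle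

end Pool.Agent.H1EI
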