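import Pool.Agent.H1EI.Stm

/-!
Stub LIM of project EI: small energy and dissipation at a small scale.
-/

set_option autoImplicit false

open MeasureTheory Set Metric
open scoped ContDiff
open H459R3.NS Pool.Agent.W268.NS Pool.Agent.Q67.VD
open W221.NS (nsq gsq adv)
open Pool.Agent.Q85.CL (SM DFO LEq LSl DSl WSl Sing Blow StmDecL StmDom)

namespace Pool.Agent.H1EI.LIM

open Pool.Agent.H1EI

theorem Se_mono {T : ℝ} {a : V} {r A D A' D' : ℝ} {u : ℝ → V → V} (hr : 0 ≤ r) (hA : A ≤ A')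
    (hD : D ≤ D') (h : Se T a r A D u) : Se T a r A' D' u where
  en := fun t ht => (h.en t ht).trans (mul_le_mul_of_nonneg_right hA hr)
  dii := h.dii
  di := h.di.trans (mul_le_mul_of_nonneg_right hD hr)

theorem Sp_mono {T : ℝ} {a : V} {r P P' : ℝ} {p : ℝ → V → ℝ} (hr : 0 ≤ r) (hP : P ≤ P')
    (h : Sp T a r P p) : Sp T a r P' p where
  pri := h.pri
  pr := h.pr.trans (mul_le_mul_of_nonneg_right hP (by positivity))

/-- the recursion -/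
noncomputable def sq (c₁ c₂ c₃ c₄ A P : ℝ) : ℕ → ℝ × ℝ
  | 0 => (A, P)
  | n + 1 => (c₁ * (sq c₁ c₂ c₃ c₄ A P n).1 + c₂ * ((sq c₁ c₂ c₃ c₄ A P n).2 + 1),
      c₃ * (sq c₁ c₂ c₃ c₄ A P n).2 + c₄ * (sq c₁ c₂ c₃ c₄ A P n).1)

theorem sq_nonneg' {c₁ c₂ c₃ c₄ A P : ℝ} (h1 : 0 ≤ c₁) (h2 : 0 ≤ c₂) (h3 : 0 ≤ c₃) (h4 : 0 ≤ c₄)
    (hA : 0 ≤ A) (hP : 0 ≤ P) (n : ℕ) :
    0 ≤ (sq c₁ c₂ c₃ c₄ A P n).1 ∧ 0 ≤ (sq c₁ c₂ c₃ c₄ A P n).2 := by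
  induction n with
  | zero => exact ⟨hA, hP⟩
  | succ n ih =>
    obtain ⟨ih1, ih2⟩ := ih
    simp only [sq]
    constructor <;> positivity

theorem t (hI : Pool.Agent.H1EI.ITER) (hN : Pool.Agent.H1EI.INIT) (hO : Pool.Agent.H1EI.ONE)
    (hP : Pool.Agent.H1EI.PR) : Pool.Agent.H1EI.LIM := by
  intro δ σ hδ hδ1 hσ
  obtain ⟨C₁, hC₁, hO1⟩ := hO δ hδ hδ1
  obtain ⟨C₃, hC₃, hP1⟩ := hP
  obtain ⟨θ, hθ, hθ4, hI1⟩ := hI δ (2 * C₁) (2 * C₃) hδ (by positivity) (by positivity)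
  obtain ⟨C₂, hC₂, hO2⟩ := hO1 θ hθ hθ4
  obtain ⟨ε, hε, hI2⟩ := hI1 C₂ σ hC₂ hσ
  refine ⟨ε, hε, ?_⟩
  intro T E O u p hL r₁ a hr₁ hr₁T hcb hNo
  set r₀ : ℝ := min r₁ 1 with hr₀def
  have hr₀ : 0 < r₀ := lt_min hr₁ one_pos
  have hr₀R : r₀ ≤ r₁ := min_le_left _ _
  have hr₀1 : r₀ ≤ 1 := min_le_right _ _
  have hr₀2 : r₀ ^ 2 ≤ T := (pow_le_pow_left₀ hr₀.le hr₀R 2).trans hr₁T
  obtain ⟨A, P, hA, hPp, hSe, hSp⟩ := hN T E O u p hL a r₀ hr₀ hr₀2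
    ((closedBall_subset_closedBall hr₀R).trans hcb)
  have hθ1 : θ ≤ 1 := by linarith
  have hθδ : 0 < θ ^ δ := Real.rpow_pos_of_pos hθ δ
  set F : ℕ → ℝ × ℝ := sq (2 * C₁ * θ ^ δ) (ε * C₂) (2 * C₃ * θ) (2 * C₃ * (θ ^ 3)⁻¹) A P with hF
  have hFnn : ∀ n, 0 ≤ (F n).1 ∧ 0 ≤ (F n).2 := fun n =>
    sq_nonneg' (by positivity) (by positivity) (by positivity) (by positivity) hA hPp n
  have hF1 : ∀ n, (F (n + 1)).1 = 2 * C₁ * θ ^ δ * (F n).1 + ε * C₂ * ((F n).2 + 1) := fun n => rfl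
  have hF2 : ∀ n, (F (n + 1)).2 = 2 * C₃ * θ * (F n).2 + 2 * C₃ * (θ ^ 3)⁻¹ * (F n).1 := fun n => rfl
  have hrn : ∀ n : ℕ, 0 < θ ^ n * r₀ ∧ θ ^ n * r₀ ≤ r₀ := by
    intro n
    refine ⟨by positivity, ?_⟩
    exact mul_le_of_le_one_left hr₀.le (pow_le_one₀ hθ.le hθ1)
  have hrn2 : ∀ n : ℕ, (θ ^ n * r₀) ^ 2 ≤ T := fun n =>
    (pow_le_pow_left₀ (hrn n).1.le (hrn n).2 2).trans hr₀2
  have hmain : ∀ n : ℕ, Se T a (θ ^ n * r₀) (F n).1 (F n).1 u ∧ Sp T a (θ ^ n * r₀) (F n).2 p := by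
    intro n
    induction n with
    | zero =>
      rw [pow_zero, one_mul]
      exact ⟨hSe, hSp⟩
    | succ n ih =>
      obtain ⟨ih1, ih2⟩ := ih
      have hrR : θ ^ n * r₀ ≤ r₁ := (hrn n).2.trans hr₀R
      obtain ⟨Y, hY⟩ := hNo (θ ^ n * r₀) (hrn n).1 hrR
      have h1 := hO2 T E O u p hL ε (θ ^ n * r₀) (F n).1 (F n).1 (F n).2 a Y hε.le (hrn n).1
        ((closedBall_subset_closedBall hrR).trans hcb) (hrn2 n) hY ih1 ih2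
      have h2 := hP1 θ hθ hθ4 T E O u p hL (θ ^ n * r₀) (F n).1 (F n).1 (F n).2 a (hrn n).1
        (hrn2 n) ((closedBall_subset_closedBall hrR).trans hcb) ih1 ih2
      have e : θ ^ (n + 1) * r₀ = θ * (θ ^ n * r₀) := by ring
      rw [e]
      have hpos : 0 ≤ θ * (θ ^ n * r₀) := by
        have := (hrn n).1
        positivity
      constructor
      · refine Se_mono hpos (le_of_eq ?_) (le_of_eq ?_) h1 <;>
        · rw [hF1]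
          ring
      · refine Sp_mono hpos ?_ h2
        rw [hF2]
        have h3 : 0 ≤ C₃ * θ * (F n).2 := by
          have := (hFnn n).2
          positivity
        have h4 : C₃ * (θ ^ 3)⁻¹ * ((F n).1 + (F n).1) = 2 * C₃ * (θ ^ 3)⁻¹ * (F n).1 := by ring
        rw [h4]
        linarith
  obtain ⟨n, hn⟩ := hI2 (fun n => (F n).1) (fun n => (F n).2) (fun n => (hFnn n).1)
    (fun n => (hFnn n).2) (fun n => (hF1 n).le) (fun n => (hF2 n).le)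
  refine ⟨θ ^ n * r₀, (hrn n).1, (hrn n).2.trans hr₀R, (hrn n).2.trans hr₀1, hrn2 n, ?_⟩
  exact Se_mono (hrn n).1.le hn hn (hmain n).1

end Pool.Agent.H1EI.LIM
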