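import Pool.Agent.H1EI.Stm

/-! Project EI (helper1), stub PERN: the inequality for both pressures (helper12). -/

set_option autoImplicit false

open MeasureTheory Set Metric
open scoped ContDiff
open H459R3.NS Pool.Agent.W268.NS Pool.Agent.Q67.VD
open W221.NS (nsq gsq adv)
open Pool.Agent.Q85.CL (SM DFO LEq LSl DSl WSl Sing Blow StmDecL StmDom)

namespace Pool.Agent.H1EI.PERN

lemma supp_ball {R : ℝ} {k : ℝ → ℝ} (hR : 0 < R) (hk : Wt R k) (a x : V) (h : k (dsq a x) ≠ 0) : x ∈ ball a R := by
  have h1 : dsq a x < R ^ 2 := by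
    by_contra hcon
    push Not at hcon
    exact h (hk.supp _ hcon)
  rw [mem_ball, dist_pi_lt_iff hR]
  intro i
  rw [Real.dist_eq]
  have h2 : (x i - a i) ^ 2 ≤ dsq a x := by
    unfold dsq
    exact Finset.single_le_sum (f := fun i => (x i - a i) ^ 2) (fun j _ => sq_nonneg _) (Finset.mem_univ i)
  exact abs_lt_of_sq_lt_sq (lt_of_le_of_lt h2 h1) hR.le

lemma dsq_cont (a : V) : Continuous (dsq a) := by
  unfold dsq
  fun_prop

lemma integ {R : ℝ} {k : ℝ → ℝ} (hR : 0 < R) (hk : Wt R k) (a : V) (g : V → ℝ) (hg : Continuous g) :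
    Integrable (fun x => k (dsq a x) * g x) := by
  have hc : Continuous (fun x => k (dsq a x) * g x) := (hk.smooth.continuous.comp (dsq_cont a)).mul hg
  apply hc.integrable_of_hasCompactSupport
  apply HasCompactSupport.of_support_subset_isCompact (isCompact_closedBall a R)
  intro x hx
  have h1 : k (dsq a x) ≠ 0 := left_ne_zero_of_mul hx
  exact ball_subset_closedBall (supp_ball hR hk a x h1)

theorem t (hF : FLX) : Pool.Agent.H1EI.PERN := by
  intro ν T u p p' hν hS a hp δ ε T₀ R hR hR2 hT0 hN t ht c k hk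
  have ht' : t ∈ Ioo 0 T := ⟨lt_of_le_of_lt hT0 ht.1, ht.2⟩
  have ht2 : t ∈ Ico 0 T := ⟨ht'.1.le, ht'.2⟩
  obtain ⟨c0, hc0⟩ := hp t ht'
  have hemb : ContDiff ℝ ∞ (fun y : V => ((t, y) : ℝ × V)) := contDiff_const.prodMk contDiff_id
  have hu : ContDiff ℝ ∞ (fun y => u t y) :=
    hS.smooth_u.comp_contDiff hemb (fun y => ⟨ht2, mem_univ _⟩)
  have hui : SM (u t) := fun i => (contDiff_pi.1 hu) i
  have hpc : Continuous (p t) :=
    (hS.smooth_p.comp_contDiff hemb (fun y => ⟨ht2, mem_univ _⟩)).continuous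
  have huc : ∀ i, Continuous (fun x => u t x i) := fun i => (hui i).continuous
  have hinw : Continuous (inw a (u t)) := by
    unfold inw
    refine (continuous_finsetSum _ fun i _ => ?_).neg
    exact ((continuous_apply i).sub continuous_const).mul (huc i)
  have hnsq : Continuous (nsq (u t)) := by
    unfold nsq
    exact continuous_finsetSum _ fun i _ => (huc i).pow 2
  have h0 := hF univ (u t) a R k isOpen_univ hui (fun x _ => hS.divfree t ht2 x) hR (subset_univ _) hk
  have hpt : ∀ x, k (dsq a x) ≠ 0 → p' t x = p t x + c0 := by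
    intro x hx
    apply hc0
    exact ball_subset_ball hR2.le (supp_ball hR hk a x hx)
  have h1 : ∀ x, k (dsq a x) * (inw a (u t) x * (nsq (u t) x + 2 * p' t x)) =
      k (dsq a x) * (inw a (u t) x * (nsq (u t) x + 2 * p t x)) + (2 * c0) * (k (dsq a x) * inw a (u t) x) := by
    intro x
    by_cases hx : k (dsq a x) = 0
    · rw [hx]
      ring
    · rw [hpt x hx]
      ring
  have h2 : ∫ x, k (dsq a x) * (inw a (u t) x * (nsq (u t) x + 2 * p' t x)) =
      ∫ x, k (dsq a x) * (inw a (u t) x * (nsq (u t) x + 2 * p t x)) := by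
    simp_rw [h1]
    rw [integral_add, integral_const_mul, h0, mul_zero, add_zero]
    · exact integ hR hk a _ (hinw.mul (hnsq.add (continuous_const.mul hpc)))
    · exact (integ hR hk a _ hinw).const_mul _
  have h3 : ∀ x, k (dsq a x) * ((2 - δ) * nsq (u t) x + (4 - δ) * (ν * (T - t)) * gsq (u t) x + ε * |p' t x - c|) =
      k (dsq a x) * ((2 - δ) * nsq (u t) x + (4 - δ) * (ν * (T - t)) * gsq (u t) x + ε * |p t x - (c - c0)|) := by
    intro x
    by_cases hx : k (dsq a x) = 0
    · rw [hx]
      ring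
    · rw [hpt x hx]
      have : p t x + c0 - c = p t x - (c - c0) := by ring
      rw [this]
  simp_rw [h3]
  rw [h2]
  exact hN t ht (c - c0) k hk

end Pool.Agent.H1EI.PERN
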