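import Pool.Agent.H1EI.Stm

set_option autoImplicit false

open MeasureTheory Set Metric
open scoped ContDiff
open H459R3.NS Pool.Agent.W268.NS Pool.Agent.Q67.VD
open W221.NS (nsq gsq adv)

namespace Pool.Agent.H1EI.SPH

open Pool.Agent.H1EI

lemma slice {E : Type*} [NormedAddCommGroup E] [NormedSpace ℝ E] {T : ℝ} {Ω : Set V} {f : ℝ → V → E}
    (hf : ContDiffOn ℝ ∞ (fun z : ℝ × V => f z.1 z.2) (Ioo 0 T ×ˢ Ω)) {t : ℝ} (ht : t ∈ Ioo 0 T) :
    ContDiffOn ℝ ∞ (f t) Ω := by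
  have h1 : ContDiffOn ℝ ∞ (fun x : V => ((t, x) : ℝ × V)) Ω := (contDiff_const.prodMk contDiff_id).contDiffOn
  have h2 := hf.comp h1 (fun x hx => ⟨ht, hx⟩)
  exact h2

lemma cont_pd {E : Type*} [NormedAddCommGroup E] [NormedSpace ℝ E] {Ω : Set V} (hΩ : IsOpen Ω) {f : V → E}
    (hf : ContDiffOn ℝ ∞ f Ω) (j : Fin 3) : ContinuousOn (pd j f) Ω := by
  have h1 : ContinuousOn (fderiv ℝ f) Ω := hf.continuousOn_fderiv_of_isOpen hΩ (by norm_num)
  unfold pd
  exact h1.clm_apply continuousOn_const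

lemma comp_cont {Ω : Set V} {v : V → V} (hv : ContDiffOn ℝ ∞ v Ω) (i : Fin 3) : ContDiffOn ℝ ∞ (fun y => v y i) Ω :=
  contDiffOn_pi.1 hv i

lemma cont_nsq {Ω : Set V} {v : V → V} (hv : ContDiffOn ℝ ∞ v Ω) : ContinuousOn (nsq v) Ω := by
  unfold nsq
  exact continuousOn_finset_sum _ fun i _ => ((comp_cont hv i).continuousOn).pow 2

lemma cont_gsq {Ω : Set V} (hΩ : IsOpen Ω) {v : V → V} (hv : ContDiffOn ℝ ∞ v Ω) : ContinuousOn (gsq v) Ω := by
  unfold gsq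
  exact continuousOn_finset_sum _ fun i _ => continuousOn_finset_sum _ fun j _ =>
    (cont_pd hΩ (comp_cont hv i) j).pow 2

lemma cont_inw {Ω : Set V} {v : V → V} (hv : ContDiffOn ℝ ∞ v Ω) (a : V) : ContinuousOn (inw a v) Ω := by
  unfold inw
  refine ContinuousOn.neg ?_
  refine continuousOn_finset_sum _ fun i _ => ?_
  refine ContinuousOn.mul ?_ ((comp_cont hv i).continuousOn)
  exact (((continuous_apply i).sub continuous_const)).continuousOn

lemma int_k {R : ℝ} (hR : 0 < R) {k : ℝ → ℝ} (hk : Wt R k) : IntegrableOn (fun ρ : ℝ => k (ρ ^ 2)) (Ioi 0) := by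
  have hc : Continuous (fun ρ : ℝ => k (ρ ^ 2)) := hk.smooth.continuous.comp (continuous_pow 2)
  have h1 : IntegrableOn (fun ρ : ℝ => k (ρ ^ 2)) (Icc 0 R) := hc.continuousOn.integrableOn_compact isCompact_Icc
  have h2 : IntegrableOn (fun ρ : ℝ => k (ρ ^ 2)) (Ioi R) := by
    refine (integrableOn_zero).congr_fun (fun ρ hρ => ?_) measurableSet_Ioi
    have h3 : R ^ 2 ≤ ρ ^ 2 := pow_le_pow_left₀ hR.le (le_of_lt hρ) 2
    exact (hk.supp _ h3).symm
  have h3 := h1.union h2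
  refine h3.mono_set ?_
  intro ρ hρ
  rcases le_or_gt ρ R with h | h
  · exact Or.inl ⟨le_of_lt hρ, h⟩
  · exact Or.inr h

theorem t (hPOL : POL) : Pool.Agent.H1EI.SPH := by
  intro ν T Ω u p hν hΩ hu hp δ ε T₀ R a hε hR hball hT₀ hsph t ht c k hk
  have ht' : t ∈ Ioo 0 T := ⟨lt_of_le_of_lt hT₀ ht.1, ht.2⟩
  have hut := slice hu ht'
  have hpt := slice hp ht'
  have hpc : ContinuousOn (p t) Ω := hpt.continuousOn
  have c1 : ContinuousOn (fun x => inw a (u t) x * (nsq (u t) x + 2 * p t x)) Ω :=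
    (cont_inw hut a).mul ((cont_nsq hut).add (continuousOn_const.mul hpc))
  have c2 : ContinuousOn (fun x => (2 - δ) * nsq (u t) x + (4 - δ) * (ν * (T - t)) * gsq (u t) x
        + ε * |p t x - c|) Ω :=
    ((continuousOn_const.mul (cont_nsq hut)).add (continuousOn_const.mul (cont_gsq hΩ hut))).add
      (continuousOn_const.mul ((hpc.sub continuousOn_const).abs))
  obtain ⟨i1, e1⟩ := hPOL a R k _ Ω hR hΩ hball hk c1
  obtain ⟨i2, e2⟩ := hPOL a R k _ Ω hR hΩ hball hk c2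
  have i3 := int_k hR hk
  rw [e1, e2, ← integral_const_mul, ← integral_const_mul, ← integral_add (i2.const_mul ν) (i3.const_mul (ε * ν ^ 3))]
  refine setIntegral_mono_on i1 ((i2.const_mul ν).add (i3.const_mul (ε * ν ^ 3))) measurableSet_Ioi fun ρ hρ => ?_
  rcases lt_or_ge ρ R with h | h
  · have h1 := hsph t ht ρ ⟨hρ, h⟩ c
    have h2 := mul_le_mul_of_nonneg_left h1 (hk.nonneg (ρ ^ 2))
    refine h2.trans (le_of_eq ?_)
    ring
  · have h3 : R ^ 2 ≤ ρ ^ 2 := pow_le_pow_left₀ hR.le h 2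
    rw [hk.supp _ h3]
    simp

end Pool.Agent.H1EI.SPH
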