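import Pool.Agent.H1EI.Stm

/-!
Project EI, second part (helper1): a positive proportion of the scales.
-/

set_option autoImplicit false

open MeasureTheory Set Metric
open scoped ContDiff
open H459R3.NS Pool.Agent.W268.NS Pool.Agent.Q67.VD
open W221.NS (nsq gsq adv)
open Pool.Agent.Q85.CL (SM DFO LEq LSl DSl WSl Sing Blow StmDecL StmDom)

namespace Pool.Agent.H1EI

/-- ITER2 (Mathlib only). `S` is the set of the bad scales. `θ` with `C₁ θ^δ ≤ 1/4`, `C₃ θ ≤ 1/4`;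
`λ > 0` with `λ C₃ θ⁻³ ≤ 1/4`; `ε` with `ε C₂ ≤ λ/4`, `ε C₂ ≤ σ/8`. Then `b = a + λ P ≥ a > σ` satisfies
`b (n+1) ≤ b n / 2 + ε C₂ ≤ (5/8) b n` for `n ∉ S` and `b (n+1) ≤ (θ⁻¹ + 1) b n` for `n ∈ S`, so by
induction `σ < b N ≤ (5/8)^N ((8/5) (θ⁻¹ + 1))^m b 0`, `m` the number of the bad `n < N`; take
logarithms: `c = log (8/5) / log ((8/5) (θ⁻¹ + 1))`. -/
def ITER2 : Prop := ∀ δ C₁ C₃ : ℝ, 0 < δ → 0 < C₁ → 0 < C₃ → ∃ θ c : ℝ, 0 < θ ∧ θ ≤ 1 / 4 ∧ 0 < c ∧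
  ∀ C₂ σ : ℝ, 0 < C₂ → 0 < σ → ∃ ε : ℝ, 0 < ε ∧ ∀ (a P : ℕ → ℝ) (S : Set ℕ), (∀ n, σ < a n) →
    (∀ n, 0 ≤ P n) →
    (∀ n, n ∉ S → a (n + 1) ≤ C₁ * θ ^ δ * a n + ε * C₂ * (P n + 1)) →
    (∀ n, n ∈ S → a (n + 1) ≤ θ⁻¹ * a n) →
    (∀ n, P (n + 1) ≤ C₃ * θ * P n + C₃ * (θ ^ 3)⁻¹ * a n) →
      ∃ K : ℝ, ∀ N : ℕ, c * N ≤ K + ({n | n ∈ S ∧ n < N}.ncard : ℝ)

/-- LIM2. The scales `θⁿ r₁` with a large excess have a positive lower density if energy and dissipation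
are not small at any scale. uses: `ITER2`, `INIT`, `ONE`, `PR`.

As `LIM`: `rₙ = θⁿ r₁`, numbers `Aₙ = Dₙ`, `Pₙ` with `Se T a rₙ Aₙ Aₙ u`, `Sp T a rₙ Pₙ p` (from `INIT` for
`n = 0`), `a n = 2 A n`; at the good scales `A (n+1) = C₁ θ^δ (2 A n) + ε C₂ (P n + 1)`, at the bad scales
`A (n+1) = θ⁻¹ A n` (`Se` at the scale `r` gives `Se` at the scale `θ r` with `A/θ`, as the integrands are
nonnegative); the pressure as before. If `a n ≤ σ` for some `n` then `Se T a rₙ σ σ u`, excluded. -/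
def LIM2 : Prop := ∀ δ : ℝ, 0 < δ → δ ≤ 1 → ∃ θ c : ℝ, 0 < θ ∧ θ ≤ 1 / 4 ∧ 0 < c ∧ ∀ σ : ℝ, 0 < σ →
  ∃ ε : ℝ, 0 < ε ∧ ∀ (T E : ℝ) (O : Set V) (u : ℝ → V → V) (p : ℝ → V → ℝ), LSl T E O u p →
  ∀ (r₁ : ℝ) (a : V), 0 < r₁ → r₁ ^ 2 ≤ T → closedBall a r₁ ⊆ O →
  (∀ r : ℝ, 0 < r → r ≤ r₁ → ¬ Se T a r σ σ u) →
    ∃ K : ℝ, ∀ N : ℕ, c * N ≤ K +
      ({n : ℕ | ¬ (∃ Y : ℝ → ℝ, NoX δ ε T (θ ^ n * r₁) a u p Y) ∧ n < N}.ncard : ℝ)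

end Pool.Agent.H1EI
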